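import Pool.Agent.H14R2.RC.Defs

/-!
Word balls and families of words which mix tuples of points.
-/

namespace Run7.h624.DM
open RC14 Finset Equiv

noncomputable section

/-! ### balls in the word metric -/
section Ball
variable {G : Type*} [Group G] {k : ℕ}

/-- products of at most `t` factors from `{x_i, x_i⁻¹}` -/
def Bl (x : Fin k → G) (t : ℕ) : Set G :=
  {g | ∃ w : List G, w.length ≤ t ∧ (∀ y ∈ w, ∃ i, y = x i ∨ y = (x i)⁻¹) ∧ w.prod = g}

lemma Bl_mono (x : Fin k → G) {s t : ℕ} (h : s ≤ t) : Bl x s ⊆ Bl x t := by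
  rintro g ⟨w, h1, h2, h3⟩
  exact ⟨w, h1.trans h, h2, h3⟩

lemma Bl_one (x : Fin k → G) (t : ℕ) : (1 : G) ∈ Bl x t :=
  ⟨[], by simp, by simp, by simp⟩

lemma Bl_mul (x : Fin k → G) {s t : ℕ} {g h : G} (hg : g ∈ Bl x s) (hh : h ∈ Bl x t) :
    g * h ∈ Bl x (s + t) := by
  obtain ⟨w, h1, h2, h3⟩ := hg
  obtain ⟨w', h1', h2', h3'⟩ := hh
  refine ⟨w ++ w', by simp; omega, ?_, by simp [h3, h3']⟩
  intro y hy
  rcases List.mem_append.1 hy with hy | hy
  · exact h2 y hy
  · exact h2' y hy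

lemma Bl_inv (x : Fin k → G) {t : ℕ} {g : G} (hg : g ∈ Bl x t) : g⁻¹ ∈ Bl x t := by
  obtain ⟨w, h1, h2, h3⟩ := hg
  refine ⟨(w.map (·⁻¹)).reverse, by simpa using h1, ?_, ?_⟩
  · intro y hy
    rw [List.mem_reverse, List.mem_map] at hy
    obtain ⟨z, hz, rfl⟩ := hy
    obtain ⟨i, hi | hi⟩ := h2 z hz
    · exact ⟨i, Or.inr (by rw [hi])⟩
    · exact ⟨i, Or.inl (by rw [hi, inv_inv])⟩
  · rw [← h3, List.prod_inv_reverse]

lemma Bl_gen (x : Fin k → G) (i : Fin k) : x i ∈ Bl x 1 :=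
  ⟨[x i], by simp, fun y hy => ⟨i, Or.inl (by simpa using hy)⟩, by simp⟩

lemma Bl_pow (x : Fin k → G) {t : ℕ} {g : G} (hg : g ∈ Bl x t) (j : ℕ) : g ^ j ∈ Bl x (j * t) := by
  induction j with
  | zero => simpa using Bl_one x _
  | succ j ih =>
    rw [pow_succ]
    have := Bl_mul x ih hg
    rwa [show (j + 1) * t = j * t + t by ring]

lemma Bl_conj (x : Fin k → G) {s t : ℕ} {g h : G} (hg : g ∈ Bl x s) (hh : h ∈ Bl x t) :
    g * h * g⁻¹ ∈ Bl x (2 * s + t) := by
  have := Bl_mul x (Bl_mul x hg hh) (Bl_inv x hg)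
  rwa [show 2 * s + t = s + t + s by ring]

/-- the ball of a subfamily -/
lemma Bl_sub {k' : ℕ} (x : Fin k → G) (x' : Fin k' → G) (h : ∀ i, ∃ j, x' i = x j) {t : ℕ} :
    Bl x' t ⊆ Bl x t := by
  rintro g ⟨w, h1, h2, h3⟩
  refine ⟨w, h1, fun y hy => ?_, h3⟩
  obtain ⟨i, hi⟩ := h2 y hy
  obtain ⟨j, hj⟩ := h i
  exact ⟨j, by rw [← hj]; exact hi⟩

end Ball

/-! ### mixing families -/
section MixDef

variable {n : ℕ} {K : Type*} [Fintype K]

/-- the family `g` moves every `r`-tuple to every `r`-tuple with the uniform probability, up to the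
relative error `e` -/
def Mix (r : ℕ) (e : ℝ) (g : K → Perm (Fin n)) : Prop :=
  ∀ a b : Tup r n, |(#{κ | mv (g κ) a = b} : ℝ) * Fintype.card (Tup r n) - Fintype.card K| ≤
    e * Fintype.card K

lemma Mix.upper {r : ℕ} {e : ℝ} {g : K → Perm (Fin n)} (h : Mix r e g) (a b : Tup r n) :
    (#{κ | mv (g κ) a = b} : ℝ) * Fintype.card (Tup r n) ≤ (1 + e) * Fintype.card K := by
  have := (abs_le.1 (h a b)).2
  linarith

lemma Mix.lower {r : ℕ} {e : ℝ} {g : K → Perm (Fin n)} (h : Mix r e g) (a b : Tup r n) :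
    (1 - e) * Fintype.card K ≤ (#{κ | mv (g κ) a = b} : ℝ) * Fintype.card (Tup r n) := by
  have := (abs_le.1 (h a b)).1
  linarith

lemma Mix.mono {r : ℕ} {e e' : ℝ} {g : K → Perm (Fin n)} (h : Mix r e g) (he : e ≤ e') :
    Mix r e' g := fun a b => (h a b).trans (by gcongr)

lemma mv_inv_eq {r : ℕ} (g : Perm (Fin n)) (a b : Tup r n) : mv g⁻¹ a = b ↔ mv g b = a := by
  constructor
  · rintro rfl; rw [← mv_mul]; simp
  · rintro rfl; rw [← mv_mul]; simp

lemma Mix.inv {r : ℕ} {e : ℝ} {g : K → Perm (Fin n)} (h : Mix r e g) :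
    Mix r e (fun κ => (g κ)⁻¹) := by
  intro a b
  have := h b a
  simp only [mv_inv_eq]
  exact this

/-- multiplying by a fixed permutation on the right does not change anything -/
lemma Mix.mul_right {r : ℕ} {e : ℝ} {g : K → Perm (Fin n)} (h : Mix r e g) (u : Perm (Fin n)) :
    Mix r e (fun κ => g κ * u) := by
  intro a b
  have := h (mv u a) b
  simp only [mv_mul]
  exact this

lemma Mix.exists {r : ℕ} {e : ℝ} {g : K → Perm (Fin n)} (h : Mix r e g) [Nonempty K] (he : e < 1)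
    (a b : Tup r n) : ∃ κ, mv (g κ) a = b := by
  by_contra hcon
  push Not at hcon
  have h1 : #{κ | mv (g κ) a = b} = 0 := by
    rw [card_eq_zero, filter_eq_empty_iff]
    intro κ _
    exact hcon κ
  have h2 := h.lower a b
  rw [h1] at h2
  have h3 : (0 : ℝ) < Fintype.card K := by exact_mod_cast Fintype.card_pos
  simp only [Nat.cast_zero, zero_mul] at h2
  nlinarith

lemma card_mem_eq {r : ℕ} (g : K → Perm (Fin n)) (a : Tup r n) (B : Finset (Tup r n)) :
    #{κ | mv (g κ) a ∈ B} = ∑ b ∈ B, #{κ | mv (g κ) a = b} := by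
  have h := card_eq_sum_card_fiberwise (s := univ.filter fun κ => mv (g κ) a ∈ B)
    (f := fun κ => mv (g κ) a) (t := B) (by
      intro κ hκ
      have : κ ∈ univ.filter fun κ => mv (g κ) a ∈ B := hκ
      exact (mem_filter.1 this).2)
  rw [h]
  refine sum_congr rfl fun b hb => ?_
  congr 1
  ext κ
  simp only [mem_filter, mem_univ, true_and]
  constructor
  · exact fun h => h.2
  · exact fun h => ⟨by rw [h]; exact hb, h⟩

/-- summing over a set of tuples, upper bound -/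
lemma Mix.upper_set {r : ℕ} {e : ℝ} {g : K → Perm (Fin n)} (h : Mix r e g) (a : Tup r n)
    (B : Finset (Tup r n)) :
    (#{κ | mv (g κ) a ∈ B} : ℝ) * Fintype.card (Tup r n) ≤ (1 + e) * #B * Fintype.card K := by
  rw [card_mem_eq]
  push_cast
  rw [sum_mul]
  calc ∑ b ∈ B, (#{κ | mv (g κ) a = b} : ℝ) * Fintype.card (Tup r n)
      ≤ ∑ _b ∈ B, (1 + e) * Fintype.card K := sum_le_sum fun b _ => h.upper a b
    _ = _ := by rw [sum_const, nsmul_eq_mul]; ring

/-- summing over a set of tuples, lower bound -/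
lemma Mix.lower_set {r : ℕ} {e : ℝ} {g : K → Perm (Fin n)} (h : Mix r e g) (a : Tup r n)
    (B : Finset (Tup r n)) :
    (1 - e) * #B * Fintype.card K ≤ (#{κ | mv (g κ) a ∈ B} : ℝ) * Fintype.card (Tup r n) := by
  rw [card_mem_eq]
  push_cast
  rw [sum_mul]
  calc (1 - e) * #B * Fintype.card K = ∑ _b ∈ B, (1 - e) * Fintype.card K := by
        rw [sum_const, nsmul_eq_mul]; ring
    _ ≤ _ := sum_le_sum fun b _ => h.lower a b

end MixDef

/-! ### the walk on tuples -/
section Walk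

variable {n k : ℕ}

/-- the steps of the lazy walk -/
abbrev St (k : ℕ) := Fin k × Bool × Bool

/-- the group element of a step: half of the steps are trivial -/
def st (x : Fin k → Alt n) (s : St k) : Alt n :=
  if s.2.2 then 1 else if s.2.1 then x s.1 else (x s.1)⁻¹

/-- the words of length `T` -/
def gw (x : Fin k → Alt n) (T : ℕ) (ω : Fin T → St k) : Alt n := (List.ofFn fun i => st x (ω i)).prod

lemma gw_mem (x : Fin k → Alt n) (T : ℕ) (ω : Fin T → St k) : gw x T ω ∈ Bl x T := by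
  induction T with
  | zero => simpa [gw] using Bl_one x 0
  | succ T ih =>
    have h1 : gw x (T + 1) ω = st x (ω 0) * gw x T (fun i => ω i.succ) := by
      simp [gw, List.ofFn_succ]
    rw [h1]
    have h2 := Bl_mul x (s := 1) (t := T) (g := st x (ω 0)) (h := gw x T fun i => ω i.succ) ?_ (ih _)
    · rwa [add_comm 1 T] at h2
    unfold st
    split_ifs
    · exact Bl_one x 1
    · exact Bl_gen x _
    · exact Bl_inv x (Bl_gen x _)

/-- the averaging operator of the Schreier graph of `A_n` on `r`-tuples of distinct points -/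
def sw {r : ℕ} (x : Fin k → Alt n) (f : Tup r n → ℝ) (a : Tup r n) : ℝ :=
  (∑ i, (f (mv (x i : Perm (Fin n)) a) + f (mv (x i : Perm (Fin n))⁻¹ a))) / (2 * k)

/-- spectral gap on `r`-tuples -/
def TGap (r : ℕ) (ε : ℝ) (x : Fin k → Alt n) : Prop :=
  ∀ f : Tup r n → ℝ, ∑ a, f a = 0 → ∑ a, f a * sw x f a ≤ (1 - ε) * ∑ a, f a ^ 2

lemma sum_sw_sq {r : ℕ} (hk : 1 ≤ k) (x : Fin k → Alt n) (f : Tup r n → ℝ) :
    ∑ a, sw x f a ^ 2 ≤ ∑ a, f a ^ 2 := by
  have hkp : (0 : ℝ) < k := by exact_mod_cast hk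
  have h1 : ∀ a, sw x f a ^ 2 ≤ sw x (fun a => f a ^ 2) a := by
    intro g
    simp only [sw]
    have h2 : (∑ i, (f (mv (x i : Perm (Fin n)) g) + f (mv (x i : Perm (Fin n))⁻¹ g))) ^ 2 ≤
        k * ∑ i, (f (mv (x i : Perm (Fin n)) g) + f (mv (x i : Perm (Fin n))⁻¹ g)) ^ 2 := by
      have := sq_sum_le_card_mul_sum_sq (s := (Finset.univ : Finset (Fin k)))
        (f := fun i => f (mv (x i : Perm (Fin n)) g) + f (mv (x i : Perm (Fin n))⁻¹ g))
      simpa using this
    have h3 : ∑ i, (f (mv (x i : Perm (Fin n)) g) + f (mv (x i : Perm (Fin n))⁻¹ g)) ^ 2 ≤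
        2 * ∑ i, (f (mv (x i : Perm (Fin n)) g) ^ 2 + f (mv (x i : Perm (Fin n))⁻¹ g) ^ 2) := by
      rw [Finset.mul_sum]
      exact Finset.sum_le_sum fun i _ => by
        nlinarith [sq_nonneg (f (mv (x i : Perm (Fin n)) g) - f (mv (x i : Perm (Fin n))⁻¹ g))]
    rw [div_pow, div_le_div_iff₀ (by positivity) (by positivity)]
    have h4 : (∑ i, (f (mv (x i : Perm (Fin n)) g) + f (mv (x i : Perm (Fin n))⁻¹ g))) ^ 2 ≤
        2 * k * ∑ i, (f (mv (x i : Perm (Fin n)) g) ^ 2 + f (mv (x i : Perm (Fin n))⁻¹ g) ^ 2) := by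
      nlinarith
    nlinarith
  refine (Finset.sum_le_sum fun a _ => h1 a).trans (le_of_eq ?_)
  simp only [sw]
  rw [← Finset.sum_div, Finset.sum_comm]
  have : ∀ i, ∑ a, (f (mv (x i : Perm (Fin n)) a) ^ 2 + f (mv (x i : Perm (Fin n))⁻¹ a) ^ 2) =
      2 * ∑ a, f a ^ 2 := by
    intro i
    rw [Finset.sum_add_distrib, two_mul]
    congr 1
    · exact Equiv.sum_comp (mvE (x i : Perm (Fin n))) (fun a => f a ^ 2)
    · exact Equiv.sum_comp (mvE (x i : Perm (Fin n))⁻¹) (fun a => f a ^ 2)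
  simp_rw [this]
  rw [Finset.sum_const, Finset.card_univ, Fintype.card_fin, nsmul_eq_mul]
  field_simp

/-- the lazy operator -/
def lz {r : ℕ} (x : Fin k → Alt n) (f : Tup r n → ℝ) (a : Tup r n) : ℝ := (f a + sw x f a) / 2

lemma lz_contr {r : ℕ} (hk : 1 ≤ k) {x : Fin k → Alt n} {ε : ℝ} (h : TGap r ε x)
    (f : Tup r n → ℝ) (hf : ∑ a, f a = 0) :
    ∑ a, lz x f a ^ 2 ≤ (1 - ε / 2) * ∑ a, f a ^ 2 := by
  have h1 := sum_sw_sq hk x f
  have h2 := h f hf
  have e1 : ∑ a, lz x f a ^ 2 =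
      (∑ a, f a ^ 2 + 2 * ∑ a, f a * sw x f a + ∑ a, sw x f a ^ 2) / 4 := by
    rw [Finset.mul_sum, ← Finset.sum_add_distrib, ← Finset.sum_add_distrib, Finset.sum_div]
    exact Finset.sum_congr rfl fun a _ => by simp only [lz]; ring
  rw [e1]
  nlinarith

lemma sum_lz {r : ℕ} (hk : 1 ≤ k) (x : Fin k → Alt n) (f : Tup r n → ℝ) :
    ∑ a, lz x f a = ∑ a, f a := by
  have hkp : (0 : ℝ) < k := by exact_mod_cast hk
  have h1 : ∑ a, sw x f a = ∑ a, f a := by
    simp only [sw]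
    rw [← Finset.sum_div, Finset.sum_comm]
    have : ∀ i, ∑ a, (f (mv (x i : Perm (Fin n)) a) + f (mv (x i : Perm (Fin n))⁻¹ a)) =
        2 * ∑ a, f a := by
      intro i
      rw [Finset.sum_add_distrib, two_mul]
      congr 1
      · exact Equiv.sum_comp (mvE (x i : Perm (Fin n))) (fun a => f a)
      · exact Equiv.sum_comp (mvE (x i : Perm (Fin n))⁻¹) (fun a => f a)
    simp_rw [this]
    rw [Finset.sum_const, Finset.card_univ, Fintype.card_fin, nsmul_eq_mul]
    field_simp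
  simp only [lz]
  rw [← Finset.sum_div, Finset.sum_add_distrib, h1]
  ring

/-- the distribution after `T` steps -/
def dist {r : ℕ} (x : Fin k → Alt n) (T : ℕ) (a b : Tup r n) : ℝ :=
  (#{ω : Fin T → St k | mv (gw x T ω : Perm (Fin n)) a = b} : ℝ) / (4 * k) ^ T

lemma card_St : Fintype.card (St k) = 4 * k := by
  simp [St]; ring

lemma dist_zero {r : ℕ} (x : Fin k → Alt n) (a b : Tup r n) :
    dist x 0 a b = if b = a then 1 else 0 := by
  unfold dist gw
  by_cases h : b = a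
  · subst h; simp
  · have h' : ¬ a = b := fun e => h e.symm
    simp [h, h']

lemma gw_cons (x : Fin k → Alt n) (T : ℕ) (s : St k) (ω : Fin T → St k) :
    gw x (T + 1) (Fin.cons s ω : Fin (T + 1) → St k) = st x s * gw x T ω := by
  simp [gw, List.ofFn_succ]

lemma card_succ {r : ℕ} (x : Fin k → Alt n) (T : ℕ) (a b : Tup r n) :
    #{ω : Fin (T + 1) → St k | mv (gw x (T + 1) ω : Perm (Fin n)) a = b} =
      ∑ s : St k, #{ω : Fin T → St k | mv (gw x T ω : Perm (Fin n)) a =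
        mv (st x s : Perm (Fin n))⁻¹ b} := by
  have h1 : ∀ (T : ℕ) (b : Tup r n), #{ω : Fin T → St k | mv (gw x T ω : Perm (Fin n)) a = b} =
      ∑ ω : Fin T → St k, if mv (gw x T ω : Perm (Fin n)) a = b then 1 else 0 := by
    intro T b
    rw [card_filter]
  rw [h1, ← (Fin.consEquiv (fun _ : Fin (T + 1) => St k)).sum_comp, Fintype.sum_prod_type]
  refine sum_congr rfl fun s _ => ?_
  rw [h1]
  refine sum_congr rfl fun ω _ => ?_
  have h2 : (Fin.consEquiv (fun _ : Fin (T + 1) => St k)) (s, ω) =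
      (Fin.cons s ω : Fin (T + 1) → St k) := rfl
  rw [h2, gw_cons]
  have h3 : (mv ((st x s * gw x T ω : Alt n) : Perm (Fin n)) a = b) ↔
      (mv (gw x T ω : Perm (Fin n)) a = mv (st x s : Perm (Fin n))⁻¹ b) := by
    rw [Subgroup.coe_mul, mv_mul]
    constructor
    · intro h
      rw [← h, ← mv_mul]; simp
    · intro h
      rw [h, ← mv_mul]; simp
  simp only [h3]

lemma dist_succ {r : ℕ} (hk : 1 ≤ k) (x : Fin k → Alt n) (T : ℕ) (a b : Tup r n) :
    dist x (T + 1) a b = lz x (dist x T a) b := by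
  have hkp : (0 : ℝ) < k := by exact_mod_cast hk
  unfold lz sw dist
  rw [card_succ, Fintype.sum_prod_type]
  simp_rw [Fintype.sum_prod_type, Fintype.sum_bool, st]
  simp only [if_true, Bool.false_eq_true, if_false, Subgroup.coe_one, inv_one, mv_one,
    Subgroup.coe_inv, inv_inv]
  push_cast
  simp only [sum_add_distrib, sum_const, card_univ, Fintype.card_fin, nsmul_eq_mul, ← sum_div]
  rw [pow_succ]
  field_simp
  ring

lemma sum_dist {r : ℕ} (hk : 1 ≤ k) (x : Fin k → Alt n) (T : ℕ) (a : Tup r n) :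
    ∑ b, dist x T a b = 1 := by
  induction T with
  | zero => simp [dist_zero]
  | succ T ih =>
    have : ∀ b, dist x (T + 1) a b = lz x (dist x T a) b := fun b => dist_succ hk x T a b
    simp_rw [this]
    rw [sum_lz hk, ih]

lemma lz_sub {r : ℕ} (hk : 1 ≤ k) (x : Fin k → Alt n) (f : Tup r n → ℝ) (c : ℝ) (b : Tup r n) :
    lz x (fun a => f a - c) b = lz x f b - c := by
  have hkp : (0 : ℝ) < k := by exact_mod_cast hk
  simp only [lz, sw]
  have : ∑ i, ((f (mv (x i : Perm (Fin n)) b) - c) + (f (mv (x i : Perm (Fin n))⁻¹ b) - c)) =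
      ∑ i, (f (mv (x i : Perm (Fin n)) b) + f (mv (x i : Perm (Fin n))⁻¹ b)) - 2 * k * c := by
    rw [show (2 * k * c : ℝ) = ∑ _i : Fin k, 2 * c by simp; ring, ← Finset.sum_sub_distrib]
    exact Finset.sum_congr rfl fun i _ => by ring
  rw [this]
  field_simp
  ring

/-- the distribution after `T` steps is nearly uniform -/
lemma dist_near {r : ℕ} (hk : 1 ≤ k) {x : Fin k → Alt n} {ε : ℝ} (h : TGap r ε x) (hε : ε ≤ 2)
    (T : ℕ) (a b : Tup r n) :
    (dist x T a b - 1 / Fintype.card (Tup r n)) ^ 2 ≤ (1 - ε / 2) ^ T := by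
  have hN : (0 : ℝ) < Fintype.card (Tup r n) := by
    exact_mod_cast Fintype.card_pos_iff.2 ⟨a⟩
  set c : ℝ := 1 / Fintype.card (Tup r n) with hc
  have hs : ∀ T, ∑ b, (dist x T a b - c) = 0 := by
    intro T
    rw [sum_sub_distrib, sum_dist hk, hc, sum_const, card_univ, nsmul_eq_mul]
    field_simp
    ring
  have main : ∑ b, (dist x T a b - c) ^ 2 ≤ (1 - ε / 2) ^ T := by
    induction T with
    | zero =>
      have e1 : ∀ b, (dist x 0 a b - c) ^ 2 = (if b = a then (1 - 2 * c) else 0) + c ^ 2 := by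
        intro b
        rw [dist_zero]
        split_ifs <;> ring
      simp_rw [e1]
      rw [sum_add_distrib]
      simp only [sum_ite_eq', mem_univ, if_true, sum_const, card_univ, nsmul_eq_mul, pow_zero]
      have e2 : (Fintype.card (Tup r n) : ℝ) * c ^ 2 = c := by rw [hc]; field_simp
      rw [e2]
      have : 0 < c := by positivity
      linarith
    | succ T ih =>
      have e1 : ∀ b, dist x (T + 1) a b - c = lz x (fun b => dist x T a b - c) b := by
        intro b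
        rw [lz_sub hk, dist_succ hk]
      simp_rw [e1]
      refine (lz_contr hk h _ (hs T)).trans ?_
      rw [pow_succ, mul_comm]
      exact mul_le_mul_of_nonneg_right ih (by linarith)
  exact (single_le_sum (f := fun b => (dist x T a b - c) ^ 2) (fun _ _ => sq_nonneg _)
    (mem_univ b)).trans main

/-- the words of length `T` mix the `r`-tuples -/
lemma mix_gw {r : ℕ} (hk : 1 ≤ k) {x : Fin k → Alt n} {ε : ℝ} (h : TGap r ε x) (hε : ε ≤ 2)
    (T : ℕ) (e : ℝ) (he : 0 ≤ e)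
    (hT : (1 - ε / 2) ^ T * (Fintype.card (Tup r n) : ℝ) ^ 2 ≤ e ^ 2) :
    Mix r e (fun ω : Fin T → St k => (gw x T ω : Perm (Fin n))) := by
  intro a b
  have hN : (0 : ℝ) < Fintype.card (Tup r n) := by
    exact_mod_cast Fintype.card_pos_iff.2 ⟨a⟩
  have hkp : (0 : ℝ) < k := by exact_mod_cast hk
  have h1 := dist_near hk h hε T a b
  have h2 : (Fintype.card (Fin T → St k) : ℝ) = (4 * k) ^ T := by
    rw [Fintype.card_fun, card_St, Fintype.card_fin]; push_cast; ring
  rw [h2]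
  have h3 : (#{ω : Fin T → St k | mv (gw x T ω : Perm (Fin n)) a = b} : ℝ) =
      dist x T a b * (4 * k) ^ T := by
    unfold dist
    field_simp
  rw [h3]
  have h4 : |dist x T a b * Fintype.card (Tup r n) - 1| ≤ e := by
    apply abs_le_of_sq_le_sq _ he
    refine le_trans ?_ hT
    have : (dist x T a b * Fintype.card (Tup r n) - 1) ^ 2 =
        (dist x T a b - 1 / Fintype.card (Tup r n)) ^ 2 * (Fintype.card (Tup r n) : ℝ) ^ 2 := by
      field_simp
    rw [this]
    exact mul_le_mul_of_nonneg_right h1 (by positivity)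
  have h5 : dist x T a b * (4 * k) ^ T * Fintype.card (Tup r n) - (4 * k) ^ T =
      (dist x T a b * Fintype.card (Tup r n) - 1) * (4 * k) ^ T := by ring
  rw [h5, abs_mul, abs_of_pos (show (0 : ℝ) < (4 * k) ^ T by positivity)]
  exact mul_le_mul_of_nonneg_right h4 (by positivity)

/-- `T ≥ 4 (r + j) log n / ε` steps give the relative error `n ^ (-j)` -/
lemma mix_time {r : ℕ} (hk : 1 ≤ k) {x : Fin k → Alt n} {ε : ℝ} (h : TGap r ε x) (hε0 : 0 < ε)
    (hε : ε ≤ 2) (hn : 1 ≤ n) (T j : ℕ) (hT : 4 * (r + j) * Real.log n / ε ≤ T) :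
    Mix r ((1 / (n : ℝ)) ^ j) (fun ω : Fin T → St k => (gw x T ω : Perm (Fin n))) := by
  have hn0 : (0 : ℝ) < n := by exact_mod_cast hn
  refine mix_gw hk h hε T _ (by positivity) ?_
  have h1 : (1 - ε / 2) ^ T ≤ Real.exp (-(2 * (r + j) * Real.log n)) := by
    have h2 : 1 - ε / 2 ≤ Real.exp (-(ε / 2)) := by
      have := Real.add_one_le_exp (-(ε / 2)); linarith
    calc (1 - ε / 2) ^ T ≤ Real.exp (-(ε / 2)) ^ T := pow_le_pow_left₀ (by linarith) h2 T
      _ = Real.exp (-(ε / 2) * T) := by rw [← Real.exp_nat_mul]; ring_nf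
      _ ≤ _ := by
        apply Real.exp_le_exp.2
        rw [div_le_iff₀ hε0] at hT
        nlinarith
  have h3 : Real.exp (-(2 * (r + j) * Real.log n)) = (1 / (n : ℝ)) ^ (2 * (r + j)) := by
    rw [one_div, inv_pow, ← Real.exp_log hn0, ← Real.exp_nat_mul, Real.log_exp, ← Real.exp_neg]
    push_cast
    ring_nf
  rw [h3] at h1
  have h4 : (Fintype.card (Tup r n) : ℝ) ≤ (n : ℝ) ^ r := by
    rw [Fintype.card_embedding_eq, Fintype.card_fin, Fintype.card_fin]
    exact_mod_cast Nat.descFactorial_le_pow n r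
  calc (1 - ε / 2) ^ T * (Fintype.card (Tup r n) : ℝ) ^ 2
      ≤ (1 / (n : ℝ)) ^ (2 * (r + j)) * ((n : ℝ) ^ r) ^ 2 := by
        gcongr
    _ = ((1 / (n : ℝ)) ^ j) ^ 2 := by
        rw [mul_add, pow_add, mul_comm 2 r, pow_mul, ← pow_mul (1 / (n:ℝ)) j 2, mul_comm 2 j]
        have : ((1 / (n : ℝ)) ^ r) ^ 2 * ((n : ℝ) ^ r) ^ 2 = 1 := by
          rw [← mul_pow, ← mul_pow]
          field_simp
          simp
        calc ((1 / (n : ℝ)) ^ r) ^ 2 * (1 / (n : ℝ)) ^ (j * 2) * ((n : ℝ) ^ r) ^ 2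
            = (((1 / (n : ℝ)) ^ r) ^ 2 * ((n : ℝ) ^ r) ^ 2) * (1 / (n : ℝ)) ^ (j * 2) := by ring
          _ = _ := by rw [this, one_mul]

/-- routing -/
lemma route {r : ℕ} (hk : 1 ≤ k) {x : Fin k → Alt n} {ε : ℝ} (h : TGap r ε x) (hε0 : 0 < ε)
    (hε : ε ≤ 2) (hn : 2 ≤ n) (T : ℕ) (hT : 4 * (r + 1) * Real.log n / ε ≤ T) (a b : Tup r n) :
    ∃ g ∈ Bl x T, mv (g : Perm (Fin n)) a = b := by
  have : NeZero k := ⟨by omega⟩
  have hm := mix_time hk h hε0 hε (by omega) T 1 (by exact_mod_cast hT)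
  obtain ⟨ω, hω⟩ := hm.exists (by
    have : (2 : ℝ) ≤ n := by exact_mod_cast hn
    rw [pow_one, div_lt_one (by linarith)]
    linarith) a b
  exact ⟨gw x T ω, gw_mem x T ω, hω⟩

end Walk

end

end Run7.h624.DM
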