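import Pool.Agent.Run7.h624.DM.Flip
import Pool.Agent.Run7.h624.DM.Base

/-!
Counting permutations with cycles of given lengths, and paths of `y w` for a mixing family `y`.
-/

namespace Run7.h624.DM
open RC14 Finset Equiv

noncomputable section

variable {n : ℕ}

/-! ### cycle lengths -/

/-- the length of the cycle of `b` -/
def cyl (w : Perm (Fin n)) (b : Fin n) : ℕ := #{p | w.SameCycle b p}

lemma cyl_eq (w : Perm (Fin n)) (b : Fin n) : cyl w b = Function.minimalPeriod w b := by
  unfold cyl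
  have h1 : ({p | w.SameCycle b p} : Finset (Fin n)) =
      (range (Function.minimalPeriod w b)).image (fun i => (w^[i]) b) := by
    ext p
    simp only [mem_filter, mem_univ, true_and, mem_image, mem_range]
    constructor
    · intro h
      obtain ⟨m, hm⟩ := h.exists_nat_pow_eq
      refine ⟨m % Function.minimalPeriod w b, Nat.mod_lt _ ?_, ?_⟩
      · exact Function.minimalPeriod_pos_of_mem_periodicPts (w.injective.mem_periodicPts b)
      · rw [Function.iterate_mod_minimalPeriod_eq, Perm.iterate_eq_pow]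
        exact hm
    · rintro ⟨m, -, hm⟩
      refine ⟨m, ?_⟩
      rw [zpow_natCast, ← Perm.iterate_eq_pow]
      exact hm
  rw [h1, card_image_of_injOn, card_range]
  intro i hi j hj hij
  exact Function.iterate_injOn_Iio_minimalPeriod (by simpa using hi) (by simpa using hj) hij

lemma cyl_pos (w : Perm (Fin n)) (b : Fin n) : 0 < cyl w b := by
  rw [cyl_eq]
  exact Function.minimalPeriod_pos_of_mem_periodicPts (w.injective.mem_periodicPts b)

lemma cyl_le (w : Perm (Fin n)) (b : Fin n) : cyl w b ≤ n := by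
  have := card_le_univ ({p | w.SameCycle b p} : Finset (Fin n))
  simpa [cyl] using this

lemma cyl_congr {w : Perm (Fin n)} {b c : Fin n} (h : w.SameCycle b c) : cyl w b = cyl w c := by
  unfold cyl
  congr 1
  ext p
  simp only [mem_filter, mem_univ, true_and]
  exact ⟨fun h' => h.symm.trans h', fun h' => h.trans h'⟩

/-- the points fixed by a power -/
lemma pow_fix (w : Perm (Fin n)) (l : ℕ) (p : Fin n) : (w ^ l) p = p ↔ cyl w p ∣ l := by
  rw [cyl_eq, ← Function.isPeriodicPt_iff_minimalPeriod_dvd, Function.IsPeriodicPt,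
    Function.IsFixedPt, Perm.iterate_eq_pow]

lemma exists_perm_ext {ι : Type*} [Fintype ι] (a b : ι ↪ Fin n) :
    ∃ σ : Perm (Fin n), ∀ i, σ (a i) = b i := by
  classical
  let e : {x // x ∈ Set.range a} ≃ {x // x ∈ Set.range b} :=
    (Equiv.ofInjective a a.injective).symm.trans (Equiv.ofInjective b b.injective)
  refine ⟨e.extendSubtype, fun i => ?_⟩
  rw [Equiv.extendSubtype_apply_of_mem e (a i) ⟨i, rfl⟩]
  simp only [e, Equiv.trans_apply]
  have : (Equiv.ofInjective a a.injective).symm ⟨a i, ⟨i, rfl⟩⟩ = i :=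
    Equiv.ofInjective_symm_apply a.injective i
  rw [this]
  rfl

/-- a permutation and an invariant pattern -/
lemma card_pairs_le {ι : Type*} [Fintype ι] [DecidableEq ι] (ρ : Perm ι) :
    #{x : Perm (Fin n) × (ι ↪ Fin n) | ∀ i, x.1 (x.2 i) = x.2 (ρ i)} ≤ n.factorial := by
  classical
  rcases isEmpty_or_nonempty (ι ↪ Fin n) with hE | ⟨⟨a0⟩⟩
  · have : IsEmpty (Perm (Fin n) × (ι ↪ Fin n)) := ⟨fun x => hE.false x.2⟩
    rw [univ_eq_empty, filter_empty, card_empty]
    exact Nat.zero_le _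
  have h1 : #{x : Perm (Fin n) × (ι ↪ Fin n) | ∀ i, x.1 (x.2 i) = x.2 (ρ i)} =
      ∑ a : ι ↪ Fin n, #{w : Perm (Fin n) | ∀ i, w (a i) = a (ρ i)} := by
    rw [card_filter, Fintype.sum_prod_type_right]
    refine sum_congr rfl fun a _ => ?_
    rw [card_filter]
  have h2 : ∀ a : ι ↪ Fin n, #{w : Perm (Fin n) | ∀ i, w (a i) = a (ρ i)} ≤
      #{w : Perm (Fin n) | ∀ i, w (a i) = a0 i} := by
    intro a
    obtain ⟨σ, hσ⟩ := exists_perm_ext (ρ.toEmbedding.trans a) a0
    refine card_le_card_of_injOn (fun w => σ * w) ?_ (fun w _ w' _ h => mul_left_cancel h)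
    intro w hw
    have hw' := (mem_filter.1 hw).2
    rw [mem_coe, mem_filter]
    refine ⟨mem_univ _, fun i => ?_⟩
    rw [Perm.mul_apply, hw']
    exact hσ i
  rw [h1]
  refine (sum_le_sum fun a _ => h2 a).trans ?_
  have h3 : ∑ a : ι ↪ Fin n, #{w : Perm (Fin n) | ∀ i, w (a i) = a0 i} =
      ∑ w : Perm (Fin n), #{a : ι ↪ Fin n | ∀ i, w (a i) = a0 i} := by
    simp only [card_filter]
    rw [sum_comm]
  rw [h3]
  have h4 : ∀ w : Perm (Fin n), #{a : ι ↪ Fin n | ∀ i, w (a i) = a0 i} ≤ 1 := by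
    intro w
    rw [card_le_one]
    intro a ha b hb
    have ha' := (mem_filter.1 ha).2
    have hb' := (mem_filter.1 hb).2
    ext i
    have := w.injective ((ha' i).trans (hb' i).symm)
    rw [this]
  refine (sum_le_sum fun w _ => h4 w).trans ?_
  simp [Fintype.card_perm]

/-- the cyclic rotation -/
def rt (l : ℕ) : Perm (Fin (l + 1)) := finRotate (l + 1)

lemma rt_val (l : ℕ) (i : Fin (l + 1)) : (rt l i : ℕ) = (i + 1 : ℕ) % (l + 1) := by
  unfold rt
  rw [finRotate_apply, Fin.val_add, Fin.val_one', Nat.add_mod_mod]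

lemma orbit_spec (w : Perm (Fin n)) (b : Fin n) {l : ℕ} (h : cyl w b = l + 1) :
    Function.Injective (fun i : Fin (l + 1) => (w^[(i : ℕ)]) b) ∧
    ∀ i : Fin (l + 1), w ((w^[(i : ℕ)]) b) = (w^[(rt l i : ℕ)]) b := by
  rw [cyl_eq] at h
  constructor
  · intro i j hij
    apply Fin.ext
    have hi : (i : ℕ) ∈ Set.Iio (Function.minimalPeriod w b) := by
      rw [h]; exact i.2
    have hj : (j : ℕ) ∈ Set.Iio (Function.minimalPeriod w b) := by
      rw [h]; exact j.2
    exact Function.iterate_injOn_Iio_minimalPeriod hi hj hij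
  · intro i
    have h1 := Function.iterate_mod_minimalPeriod_eq (f := ⇑w) (x := b) (n := (i : ℕ) + 1)
    rw [h] at h1
    rw [rt_val, h1, Function.iterate_succ_apply' (⇑w)]

/-- the expected number of points in cycles of length `l` is at most one -/
theorem card_cyl (l : ℕ) :
    #{x : Perm (Fin n) × Fin n | cyl x.1 x.2 = l + 1} ≤ n.factorial := by
  refine le_trans ?_ (card_pairs_le (n := n) (rt l))
  refine card_le_card_of_surjOn (fun x => (x.1, x.2 0)) ?_
  rintro ⟨w, b⟩ hx
  have hx' := (mem_filter.1 hx).2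
  obtain ⟨h1, h2⟩ := orbit_spec w b hx'
  refine ⟨(w, ⟨_, h1⟩), ?_, rfl⟩
  simp only [coe_filter, mem_univ, true_and, Set.mem_ofPred_eq]
  exact h2

/-- pairs of points in different cycles of lengths `l` and `j` -/
theorem card_cyl2 (l j : ℕ) :
    #{x : Perm (Fin n) × Fin n × Fin n | cyl x.1 x.2.1 = l + 1 ∧ cyl x.1 x.2.2 = j + 1 ∧
      ¬ x.1.SameCycle x.2.1 x.2.2} ≤ n.factorial := by
  refine le_trans ?_ (card_pairs_le (n := n) (sumCongr (rt l) (rt j)))
  refine card_le_card_of_surjOn (fun x => (x.1, x.2 (Sum.inl 0), x.2 (Sum.inr 0))) ?_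
  rintro ⟨w, b, c⟩ hx
  obtain ⟨-, hb, hc, hbc⟩ := mem_filter.1 hx
  obtain ⟨h1, h2⟩ := orbit_spec w b hb
  obtain ⟨h3, h4⟩ := orbit_spec w c hc
  have hinj : Function.Injective (Sum.elim (fun i : Fin (l + 1) => (w^[(i : ℕ)]) b)
      (fun i : Fin (j + 1) => (w^[(i : ℕ)]) c)) := by
    refine h1.sumElim h3 ?_
    intro i i' hii
    apply hbc
    have e1 : w.SameCycle b ((w^[(i : ℕ)]) b) := ⟨(i : ℕ), by
      rw [zpow_natCast, Perm.iterate_eq_pow]⟩
    have e2 : w.SameCycle c ((w^[(i' : ℕ)]) c) := ⟨(i' : ℕ), by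
      rw [zpow_natCast, Perm.iterate_eq_pow]⟩
    have hii' : (w^[(i : ℕ)]) b = (w^[(i' : ℕ)]) c := hii
    rw [hii'] at e1
    exact e1.trans e2.symm
  refine ⟨(w, ⟨_, hinj⟩), ?_, rfl⟩
  rw [mem_coe, mem_filter]
  refine ⟨mem_univ _, ?_⟩
  rintro (i | i)
  · exact h2 i
  · exact h4 i

/-! ### paths -/

section Path

variable {K : Type*} [Fintype K] [DecidableEq K]

/-- every tuple goes to every tuple with probability at most twice the uniform one -/
def Mx (r : ℕ) (y : K → Perm (Fin n)) : Prop :=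
  ∀ a b : Tup r n, (#{κ | mv (y κ) a = b} : ℝ) * Fintype.card (Tup r n) ≤ 2 * Fintype.card K

lemma path_bound {r : ℕ} {y : K → Perm (Fin n)} (hy : Mx r y) (w : Perm (Fin n)) (p : Fin n)
    (E : Finset K)
    (hE : ∀ κ ∈ E, ∀ i j, i < r → j < r → ((y κ * w) ^ i) p = ((y κ * w) ^ j) p → i = j)
    (B : Finset (Tup r n))
    (hB : ∀ κ ∈ E, ∀ b0 : Tup r n, (∀ i, b0 i = ((y κ * w) ^ ((i : ℕ) + 1)) p) → b0 ∈ B) :
    (#E : ℝ) * Fintype.card (Tup r n) ≤ 2 * Fintype.card K * #B := by
  have h1 : E ⊆ B.biUnion (fun b0 => E.filter fun κ => ∀ i, b0 i = ((y κ * w) ^ ((i : ℕ) + 1)) p) := by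
    intro κ hκ
    rw [mem_biUnion]
    have hinj : Function.Injective (fun i : Fin r => ((y κ * w) ^ ((i : ℕ) + 1)) p) := by
      intro i j hij
      apply Fin.ext
      apply hE κ hκ i j i.2 j.2
      have hij' : ((y κ * w) ^ ((i : ℕ) + 1)) p = ((y κ * w) ^ ((j : ℕ) + 1)) p := hij
      rw [pow_succ', pow_succ', Perm.mul_apply, Perm.mul_apply] at hij'
      exact (y κ * w).injective hij'
    refine ⟨⟨_, hinj⟩, hB κ hκ _ fun i => rfl, ?_⟩
    rw [mem_filter]
    exact ⟨hκ, fun i => rfl⟩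
  have h2 : ∀ b0 ∈ B, (#(E.filter fun κ => ∀ i, b0 i = ((y κ * w) ^ ((i : ℕ) + 1)) p) : ℝ) *
      Fintype.card (Tup r n) ≤ 2 * Fintype.card K := by
    intro b0 _
    rcases (E.filter fun κ => ∀ i, b0 i = ((y κ * w) ^ ((i : ℕ) + 1)) p).eq_empty_or_nonempty with
      h3 | ⟨κ0, h3⟩
    · rw [h3]
      simp
    · obtain ⟨h4, h5⟩ := mem_filter.1 h3
      have hinj : Function.Injective (fun i : Fin r => w (((y κ0 * w) ^ (i : ℕ)) p)) := by
        intro i j hij
        apply Fin.ext
        exact hE κ0 h4 i j i.2 j.2 (w.injective hij)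
      refine le_trans ?_ (hy ⟨_, hinj⟩ b0)
      gcongr
      intro κ hκ
      obtain ⟨h6, h7⟩ := mem_filter.1 hκ
      rw [mem_filter]
      refine ⟨mem_univ _, ?_⟩
      have h8 : ∀ i : ℕ, i < r → ((y κ * w) ^ i) p = ((y κ0 * w) ^ i) p := by
        intro i hi
        rcases i with _ | i
        · rfl
        · have h9 := h7 ⟨i, by omega⟩
          have h10 := h5 ⟨i, by omega⟩
          rw [h9] at h10
          exact h10
      ext i
      rw [h7 i, mv_apply]
      show ((y κ (w (((y κ0 * w) ^ (i : ℕ)) p)) : Fin n) : ℕ) = _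
      rw [← h8 i i.2, pow_succ', Perm.mul_apply, Perm.mul_apply]
  calc (#E : ℝ) * Fintype.card (Tup r n)
      ≤ (∑ b0 ∈ B, (#(E.filter fun κ => ∀ i, b0 i = ((y κ * w) ^ ((i : ℕ) + 1)) p) : ℝ)) *
        Fintype.card (Tup r n) := by
        gcongr
        exact_mod_cast (card_le_card h1).trans card_biUnion_le
    _ = ∑ b0 ∈ B, (#(E.filter fun κ => ∀ i, b0 i = ((y κ * w) ^ ((i : ℕ) + 1)) p) : ℝ) *
        Fintype.card (Tup r n) := by rw [sum_mul]
    _ ≤ ∑ _b0 ∈ B, 2 * (Fintype.card K : ℝ) := sum_le_sum h2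
    _ = _ := by rw [sum_const, nsmul_eq_mul]; ring

/-- the tuples with a given coordinate -/
lemma card_coord {r : ℕ} (l : Fin r) (q : Fin n) :
    #{a : Tup r n | a l = q} * n = Fintype.card (Tup r n) := by
  have h1 : ∀ q' : Fin n, #{a : Tup r n | a l = q'} = #{a : Tup r n | a l = q} := by
    intro q'
    refine card_bij (fun a _ => mv (swap q q') a) ?_ ?_ ?_
    · intro a ha
      simp only [mem_filter, mem_univ, true_and] at ha ⊢
      rw [mv_apply, ha, swap_apply_right]
    · intro a _ b _ hab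
      exact (mvE (swap q q')).injective hab
    · intro a ha
      refine ⟨mv (swap q q') a, ?_, ?_⟩
      · simp only [mem_filter, mem_univ, true_and] at ha ⊢
        rw [mv_apply, ha, swap_apply_left]
      · rw [← mv_mul, swap_mul_self, mv_one]
  have h2 : ∑ q' : Fin n, #{a : Tup r n | a l = q'} = Fintype.card (Tup r n) := by
    rw [← card_univ, card_eq_sum_card_fiberwise (f := fun a : Tup r n => a l) (t := univ)
      (fun a _ => by simp)]
  simp_rw [h1] at h2
  rw [sum_const, card_univ, Fintype.card_fin, smul_eq_mul] at h2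
  rw [mul_comm]
  exact h2

/-- the tuples in a set -/
lemma card_tup_in (t : ℕ) (S : Finset (Fin n)) : #{a : Tup t n | ∀ i, a i ∈ S} ≤ #S ^ t := by
  have : #{a : Tup t n | ∀ i, a i ∈ S} ≤ #(Fintype.piFinset fun _ : Fin t => S) := by
    refine card_le_card_of_injOn (fun a => (a : Fin t → Fin n)) ?_ ?_
    · intro a ha
      have ha' := (mem_filter.1 ha).2
      rw [mem_coe, Fintype.mem_piFinset]
      exact ha'
    · intro a _ b _ hab
      exact DFunLike.coe_injective hab
  rw [Fintype.card_piFinset_const] at this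
  exact this

/-- few members of the family keep the orbit of `p` in `S` for `t` steps -/
theorem stay_bound {t : ℕ} {y : K → Perm (Fin n)} (hy : ∀ r ≤ t, Mx r y) (w : Perm (Fin n))
    (p : Fin n) (S : Finset (Fin n)) (htn : t ≤ n) :
    (#{κ | ∀ m ≤ t, ((y κ * w) ^ m) p ∈ S} : ℝ) ≤
      (2 * (#S : ℝ) ^ t / Fintype.card (Tup t n) + 2 * t / n) * Fintype.card K := by
  classical
  have hn : 0 < n := p.pos
  have hn' : (0 : ℝ) < n := by exact_mod_cast hn
  have hN : ∀ r ≤ n, (0 : ℝ) < Fintype.card (Tup r n) := by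
    intro r hr
    have : Nonempty (Tup r n) := ⟨Fin.castLEEmb hr⟩
    exact_mod_cast Fintype.card_pos
  set E0 : Finset K := {κ | (∀ i j, i < t → j < t → ((y κ * w) ^ i) p = ((y κ * w) ^ j) p → i = j) ∧
    ∀ m ≤ t, ((y κ * w) ^ m) p ∈ S} with hE0
  set E : ℕ → Finset K := fun m => {κ | (∀ i j, i < m + 1 → j < m + 1 →
    ((y κ * w) ^ i) p = ((y κ * w) ^ j) p → i = j) ∧ ((y κ * w) ^ (m + 1)) p = p} with hE
  have hcov : ({κ | ∀ m ≤ t, ((y κ * w) ^ m) p ∈ S} : Finset K) ⊆ E0 ∪ (range t).biUnion E := by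
    intro κ hκ
    have hκ' := (mem_filter.1 hκ).2
    rw [mem_union]
    by_cases h1 : ∀ i j, i < t → j < t → ((y κ * w) ^ i) p = ((y κ * w) ^ j) p → i = j
    · left
      rw [hE0, mem_filter]
      exact ⟨mem_univ _, h1, hκ'⟩
    · right
      have h2 : ∃ d, d + 1 < t ∧ ((y κ * w) ^ (d + 1)) p = p := by
        push Not at h1
        obtain ⟨i, j, hi, hj, hij, hne⟩ := h1
        have key : ∀ i j, i < j → j < t → ((y κ * w) ^ i) p = ((y κ * w) ^ j) p →
            ∃ d, d + 1 < t ∧ ((y κ * w) ^ (d + 1)) p = p := by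
          intro i j hij hj h
          refine ⟨j - i - 1, by omega, ?_⟩
          rw [show j = i + (j - i - 1 + 1) by omega, pow_add, Perm.mul_apply] at h
          exact (((y κ * w) ^ i).injective h).symm
        rcases lt_or_gt_of_ne hne with h | h
        · exact key i j h hj hij
        · exact key j i h hi hij.symm
      classical
      have h3 := Nat.find_spec h2
      set d := Nat.find h2 with hd
      rw [mem_biUnion]
      refine ⟨d, by rw [mem_range]; omega, ?_⟩
      rw [hE, mem_filter]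
      refine ⟨mem_univ _, ?_, h3.2⟩
      have key : ∀ i j, i < j → j < d + 1 → ((y κ * w) ^ i) p = ((y κ * w) ^ j) p → False := by
        intro i j hij hj h
        have h4 : j - i - 1 < d := by omega
        apply Nat.find_min h2 h4
        refine ⟨by omega, ?_⟩
        rw [show j = i + (j - i - 1 + 1) by omega, pow_add, Perm.mul_apply] at h
        exact (((y κ * w) ^ i).injective h).symm
      intro i j hi hj hij
      rcases lt_trichotomy i j with h | h | h
      · exact absurd hij (fun hh => key i j h hj hh)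
      · exact h
      · exact absurd hij.symm (fun hh => key j i h hi hh)
  have b0 : (#E0 : ℝ) ≤ 2 * (#S : ℝ) ^ t / Fintype.card (Tup t n) * Fintype.card K := by
    have h1 := path_bound (hy t le_rfl) w p E0 (fun κ hκ => (mem_filter.1 hκ).2.1)
      {a : Tup t n | ∀ i, a i ∈ S} (by
        intro κ hκ b0 hb0
        rw [mem_filter]
        refine ⟨mem_univ _, fun i => ?_⟩
        rw [hb0 i]
        exact (mem_filter.1 hκ).2.2 _ (by omega))
    have h2 : (#{a : Tup t n | ∀ i, a i ∈ S} : ℝ) ≤ (#S : ℝ) ^ t := by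
      exact_mod_cast card_tup_in t S
    have h3 : (#E0 : ℝ) * Fintype.card (Tup t n) ≤ 2 * Fintype.card K * (#S : ℝ) ^ t :=
      h1.trans (by gcongr)
    rw [div_mul_eq_mul_div, le_div_iff₀ (hN t htn)]
    calc _ ≤ _ := h3
      _ = _ := by ring
  have b1 : ∀ m ∈ range t, (#(E m) : ℝ) ≤ 2 / n * Fintype.card K := by
    intro m hm
    rw [mem_range] at hm
    have h1 := path_bound (hy (m + 1) (by omega)) w p (E m) (fun κ hκ => (mem_filter.1 hκ).2.1)
      {a : Tup (m + 1) n | a (Fin.last m) = p} (by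
        intro κ hκ b0 hb0
        rw [mem_filter]
        refine ⟨mem_univ _, ?_⟩
        rw [hb0, Fin.val_last]
        exact (mem_filter.1 hκ).2.2)
    have h2 := card_coord (Fin.last m) p
    have h3 : (#{a : Tup (m + 1) n | a (Fin.last m) = p} : ℝ) * n =
        Fintype.card (Tup (m + 1) n) := by exact_mod_cast h2
    have h4 := hN (m + 1) (by omega)
    have h5 : (0 : ℝ) < #{a : Tup (m + 1) n | a (Fin.last m) = p} := by
      by_contra hcon
      push Not at hcon
      nlinarith
    rw [← h3] at h1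
    rw [div_mul_eq_mul_div, le_div_iff₀ hn']
    have h6 : (#(E m) : ℝ) * n * #{a : Tup (m + 1) n | a (Fin.last m) = p} ≤
        2 * Fintype.card K * #{a : Tup (m + 1) n | a (Fin.last m) = p} := by
      calc _ = _ := by ring
        _ ≤ _ := h1
    exact le_of_mul_le_mul_right h6 h5
  calc (#{κ | ∀ m ≤ t, ((y κ * w) ^ m) p ∈ S} : ℝ)
      ≤ (#E0 : ℝ) + ∑ m ∈ range t, (#(E m) : ℝ) := by
        have h1 := (card_le_card hcov).trans (card_union_le _ _)
        have h2 := card_biUnion_le (s := range t) (t := E)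
        have h3 := h1.trans (Nat.add_le_add_left h2 _)
        exact_mod_cast h3
    _ ≤ 2 * (#S : ℝ) ^ t / Fintype.card (Tup t n) * Fintype.card K +
        ∑ m ∈ range t, (2 / n * Fintype.card K : ℝ) := add_le_add b0 (sum_le_sum b1)
    _ = _ := by
        rw [sum_const, card_range, nsmul_eq_mul]; ring

end Path

end

end Run7.h624.DM
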