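import Pool.Agent.Run7.h624.DM.Base

/-!
Commutators with random conjugates: from a permutation with support of size `M` to one with support
of size between `M² / (6 n)` and `10 M² / n`.
-/

namespace Run7.h624.DM
open RC14 Finset Equiv

noncomputable section

variable {n : ℕ}

/-- a pair of distinct points as a tuple -/
def pr (p q : Fin n) (h : p ≠ q) : Tup 2 n := ⟨![p, q], by
  intro i j hij
  fin_cases i <;> fin_cases j <;> simp at hij ⊢
  · exact h hij
  · exact h hij.symm⟩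

@[simp] lemma pr_0 (p q : Fin n) (h : p ≠ q) : pr p q h 0 = p := rfl
@[simp] lemma pr_1 (p q : Fin n) (h : p ≠ q) : pr p q h 1 = q := rfl

lemma tup2_ext {a b : Tup 2 n} (h0 : a 0 = b 0) (h1 : a 1 = b 1) : a = b := by
  ext i
  fin_cases i
  · exact congrArg Fin.val h0
  · exact congrArg Fin.val h1

lemma cardB2 (A B : Finset (Fin n)) :
    #{b : Tup 2 n | b 0 ∈ A ∧ b 1 ∈ B} = #{s ∈ A ×ˢ B | s.1 ≠ s.2} := by
  refine card_bij (fun b _ => (b 0, b 1)) ?_ ?_ ?_
  · intro b hb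
    simp only [mem_filter, mem_univ, true_and, mem_product] at hb ⊢
    exact ⟨hb, fun h => by simpa using b.injective h⟩
  · intro a _ b _ h
    simp only [Prod.mk.injEq] at h
    exact tup2_ext h.1 h.2
  · rintro ⟨s, t⟩ h
    simp only [mem_filter, mem_product, ne_eq] at h
    exact ⟨pr s t h.2, by simp [h.1.1, h.1.2], rfl⟩

lemma cardB2_same (A : Finset (Fin n)) :
    (#{b : Tup 2 n | b 0 ∈ A ∧ b 1 ∈ A} : ℝ) = #A * (#A - 1) := by
  rw [cardB2]
  have h : (A ×ˢ A).filter (fun s => s.1 ≠ s.2) = A.offDiag := by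
    ext ⟨s, t⟩; simp [mem_offDiag, and_assoc]
  rw [h, offDiag_card, Nat.cast_sub (Nat.le_mul_self _)]
  push_cast
  ring

lemma cardB2_disj (A B : Finset (Fin n)) (h : Disjoint A B) :
    (#{b : Tup 2 n | b 0 ∈ A ∧ b 1 ∈ B} : ℝ) = #A * #B := by
  rw [cardB2]
  have h : (A ×ˢ B).filter (fun s => s.1 ≠ s.2) = A ×ˢ B := by
    apply filter_true_of_mem
    rintro ⟨s, t⟩ hst hne
    rw [mem_product] at hst
    have hst' : s = t := hne
    exact (disjoint_left.1 h hst.1) (by rw [hst']; exact hst.2)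
  rw [h, card_product]
  push_cast
  ring

lemma cardB4_le (A B : Finset (Fin n)) :
    (#{b : Tup 4 n | (b 0 ∈ A ∧ b 1 ∈ B) ∧ b 2 ∈ A ∧ b 3 ∈ B} : ℝ) ≤ (#A * #B) ^ 2 := by
  have h : #{b : Tup 4 n | (b 0 ∈ A ∧ b 1 ∈ B) ∧ b 2 ∈ A ∧ b 3 ∈ B} ≤
      #((A ×ˢ B) ×ˢ (A ×ˢ B)) := by
    refine card_le_card_of_injOn (fun b => ((b 0, b 1), (b 2, b 3))) ?_ ?_
    · intro b hb
      have hb' := (mem_filter.1 hb).2
      simp only [coe_product, Set.mem_prod, mem_coe]
      exact hb'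
    · intro a _ b _ h
      simp only [Prod.mk.injEq] at h
      ext i
      fin_cases i
      · exact congrArg Fin.val h.1.1
      · exact congrArg Fin.val h.1.2
      · exact congrArg Fin.val h.2.1
      · exact congrArg Fin.val h.2.2
  rw [card_product, card_product] at h
  calc (#{b : Tup 4 n | (b 0 ∈ A ∧ b 1 ∈ B) ∧ b 2 ∈ A ∧ b 3 ∈ B} : ℝ)
      ≤ ((#A * #B * (#A * #B) : ℕ) : ℝ) := by exact_mod_cast h
    _ = _ := by push_cast; ring

/-! ### the three counts -/

section Counts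
variable (z h : Perm (Fin n))

/-- the conjugate -/
def cjg : Perm (Fin n) := h⁻¹ * z * h

/-- the commutator -/
def cm : Perm (Fin n) := z * cjg z h * z⁻¹ * (cjg z h)⁻¹

def A1 : ℕ := #{p ∈ z.support | h p ∉ z.support ∧ h (z p) ∉ z.support}
def A2 : ℕ := #{p ∈ z.support | h⁻¹ p ∉ z.support ∧ h⁻¹ (z p) ∈ z.support}
def A3 : ℕ := #{p ∈ z.support | h p ∉ z.support ∧ h (z p) ∈ z.support}

lemma cjg_fix (p : Fin n) : cjg z h p = p ↔ h p ∉ z.support := by
  unfold cjg
  rw [Perm.notMem_support, Perm.mul_apply, Perm.mul_apply, Perm.inv_eq_iff_eq]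

lemma card_cm : #(cm z h).support = #{p | z (cjg z h p) ≠ cjg z h (z p)} := by
  symm
  refine card_bij (fun p _ => cjg z h (z p)) ?_ ?_ ?_
  · intro p hp
    simp only [mem_filter, mem_univ, true_and] at hp
    rw [Perm.mem_support]
    unfold cm
    simpa using hp
  · intro a _ b _ hab
    simpa using hab
  · intro p hp
    rw [Perm.mem_support] at hp
    refine ⟨z⁻¹ ((cjg z h)⁻¹ p), ?_, by simp⟩
    simp only [mem_filter, mem_univ, true_and]
    unfold cm at hp
    simpa using hp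

lemma card_cm_upper : #(cm z h).support + A1 z h ≤ #z.support + A2 z h := by
  rw [card_cm]
  have h1 : #{p | z (cjg z h p) ≠ cjg z h (z p)} =
      #{p | z (cjg z h p) ≠ cjg z h (z p) ∧ p ∈ z.support} +
      #{p | z (cjg z h p) ≠ cjg z h (z p) ∧ p ∉ z.support} := by
    rw [← card_filter_add_card_filter_not (s := univ.filter fun p => z (cjg z h p) ≠ cjg z h (z p))
      (fun p => p ∈ z.support), filter_filter, filter_filter]
  rw [h1]
  have h2 : #{p | z (cjg z h p) ≠ cjg z h (z p) ∧ p ∈ z.support} + A1 z h ≤ #z.support := by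
    unfold A1
    rw [← card_union_of_disjoint]
    · apply card_le_card
      intro p hp
      rcases mem_union.1 hp with hp | hp
      · exact (mem_filter.1 hp).2.2
      · exact (mem_filter.1 hp).1
    · rw [disjoint_left]
      intro p hp hp'
      obtain ⟨h3, h4, h5⟩ := mem_filter.1 hp
      obtain ⟨h6, h7, h8⟩ := mem_filter.1 hp'
      apply h4
      rw [(cjg_fix z h p).2 h7, (cjg_fix z h (z p)).2 h8]
  have h3 : #{p | z (cjg z h p) ≠ cjg z h (z p) ∧ p ∉ z.support} ≤ A2 z h := by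
    unfold A2
    refine card_le_card_of_injOn (fun p => h p) ?_ (fun a _ b _ hab => h.injective hab)
    intro p hp
    obtain ⟨-, h4, h5⟩ := mem_filter.1 hp
    have h6 : z p = p := Perm.notMem_support.1 h5
    rw [h6] at h4
    have h7 : h p ∈ z.support := by
      by_contra h8
      rw [← cjg_fix] at h8
      rw [h8] at h4
      exact h4 h6
    simp only [coe_filter, Set.mem_ofPred_eq]
    refine ⟨h7, by simpa using h5, ?_⟩
    have h9 : cjg z h p ∈ z.support := Perm.mem_support.2 h4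
    simpa [cjg] using h9
  omega

lemma card_cm_lower : A3 z h ≤ #(cm z h).support := by
  rw [card_cm]
  unfold A3
  apply card_le_card
  intro p hp
  obtain ⟨h1, h2, h3⟩ := mem_filter.1 hp
  simp only [mem_filter, mem_univ, true_and]
  rw [(cjg_fix z h p).2 h2]
  intro h4
  exact ((cjg_fix z h (z p)).1 h4.symm) h3

end Counts

/-! ### averages over a mixing family -/

section Avg
variable {K : Type*} [Fintype K] {h : K → Perm (Fin n)} {e : ℝ} (z : Perm (Fin n))

lemma card_tup2 : (Fintype.card (Tup 2 n) : ℝ) = n * (n - 1) := by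
  rw [Fintype.card_embedding_eq, Fintype.card_fin, Fintype.card_fin]
  rcases n with _ | n
  · simp
  · rw [Nat.succ_descFactorial_succ, Nat.descFactorial_one]
    push_cast
    ring

lemma card_tup4 (hn : 3 ≤ n) :
    (Fintype.card (Tup 4 n) : ℝ) = n * (n - 1) * (n - 2) * (n - 3) := by
  rw [Fintype.card_embedding_eq, Fintype.card_fin, Fintype.card_fin]
  obtain ⟨m, rfl⟩ := Nat.exists_eq_add_of_le hn
  rw [show 3 + m = m + 1 + 1 + 1 by ring, Nat.succ_descFactorial_succ,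
    Nat.succ_descFactorial_succ, Nat.succ_descFactorial_succ, Nat.descFactorial_one]
  push_cast
  ring

lemma ne_of_supp {p : Fin n} (hp : p ∈ z.support) : p ≠ z p := fun e => (Perm.mem_support.1 hp) e.symm

lemma compl_card : (#(z.support)ᶜ : ℝ) = n - #z.support := by
  rw [card_compl, Fintype.card_fin, Nat.cast_sub]
  simpa using card_le_univ z.support

lemma sum_A1 (hm : Mix 2 e h) :
    (1 - e) * (#z.support * ((n - #z.support) * (n - #z.support - 1))) * Fintype.card K ≤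
      (∑ κ, (A1 z (h κ) : ℝ)) * (n * (n - 1)) := by
  have h1 : ∑ κ, (A1 z (h κ) : ℝ) = ∑ p ∈ z.support,
      (#{κ | h κ p ∉ z.support ∧ h κ (z p) ∉ z.support} : ℝ) := by
    unfold A1
    simp only [card_filter]
    push_cast
    rw [sum_comm]
  rw [h1, sum_mul]
  have h2 : ∀ p ∈ z.support, (1 - e) * ((n - #z.support) * (n - #z.support - 1)) * Fintype.card K ≤
      (#{κ | h κ p ∉ z.support ∧ h κ (z p) ∉ z.support} : ℝ) * (n * (n - 1)) := by
    intro p hp
    have h3 := hm.lower_set (pr p (z p) (ne_of_supp z hp))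
      (univ.filter fun b : Tup 2 n => b 0 ∈ (z.support)ᶜ ∧ b 1 ∈ (z.support)ᶜ)
    rw [cardB2_same, compl_card, card_tup2] at h3
    simp only [mem_filter, mem_univ, true_and, mv_apply, pr_0, pr_1, mem_compl] at h3
    exact h3
  calc (1 - e) * (#z.support * ((n - #z.support) * (n - #z.support - 1))) * Fintype.card K
      = ∑ _p ∈ z.support, (1 - e) * ((n - #z.support) * (n - #z.support - 1)) *
          Fintype.card K := by rw [sum_const, nsmul_eq_mul]; ring
    _ ≤ _ := sum_le_sum h2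

lemma sum_A2 (hm : Mix 2 e h) :
    (∑ κ, (A2 z (h κ) : ℝ)) * (n * (n - 1)) ≤
      (1 + e) * (#z.support * ((n - #z.support) * #z.support)) * Fintype.card K := by
  have h1 : ∑ κ, (A2 z (h κ) : ℝ) = ∑ p ∈ z.support,
      (#{κ | (h κ)⁻¹ p ∉ z.support ∧ (h κ)⁻¹ (z p) ∈ z.support} : ℝ) := by
    unfold A2
    simp only [card_filter]
    push_cast
    rw [sum_comm]
  rw [h1, sum_mul]
  have h2 : ∀ p ∈ z.support,
      (#{κ | (h κ)⁻¹ p ∉ z.support ∧ (h κ)⁻¹ (z p) ∈ z.support} : ℝ) * (n * (n - 1)) ≤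
      (1 + e) * ((n - #z.support) * #z.support) * Fintype.card K := by
    intro p hp
    have h3 := hm.inv.upper_set (pr p (z p) (ne_of_supp z hp))
      (univ.filter fun b : Tup 2 n => b 0 ∈ (z.support)ᶜ ∧ b 1 ∈ z.support)
    rw [cardB2_disj _ _ (disjoint_compl_left), compl_card, card_tup2] at h3
    simp only [mem_filter, mem_univ, true_and, mv_apply, pr_0, pr_1, mem_compl] at h3
    exact h3
  calc _ ≤ ∑ _p ∈ z.support, (1 + e) * ((n - #z.support) * #z.support) * Fintype.card K :=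
        sum_le_sum h2
    _ = _ := by rw [sum_const, nsmul_eq_mul]; ring

lemma sum_A3 (hm : Mix 2 e h) :
    (1 - e) * (#z.support * ((n - #z.support) * #z.support)) * Fintype.card K ≤
      (∑ κ, (A3 z (h κ) : ℝ)) * (n * (n - 1)) ∧
    (∑ κ, (A3 z (h κ) : ℝ)) * (n * (n - 1)) ≤
      (1 + e) * (#z.support * ((n - #z.support) * #z.support)) * Fintype.card K := by
  have h1 : ∑ κ, (A3 z (h κ) : ℝ) = ∑ p ∈ z.support,
      (#{κ | h κ p ∉ z.support ∧ h κ (z p) ∈ z.support} : ℝ) := by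
    unfold A3
    simp only [card_filter]
    push_cast
    rw [sum_comm]
  rw [h1, sum_mul]
  constructor
  · have h2 : ∀ p ∈ z.support, (1 - e) * ((n - #z.support) * #z.support) * Fintype.card K ≤
        (#{κ | h κ p ∉ z.support ∧ h κ (z p) ∈ z.support} : ℝ) * (n * (n - 1)) := by
      intro p hp
      have h3 := hm.lower_set (pr p (z p) (ne_of_supp z hp))
        (univ.filter fun b : Tup 2 n => b 0 ∈ (z.support)ᶜ ∧ b 1 ∈ z.support)
      rw [cardB2_disj _ _ (disjoint_compl_left), compl_card, card_tup2] at h3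
      simp only [mem_filter, mem_univ, true_and, mv_apply, pr_0, pr_1, mem_compl] at h3
      exact h3
    calc _ = ∑ _p ∈ z.support, (1 - e) * ((n - #z.support) * #z.support) *
            Fintype.card K := by rw [sum_const, nsmul_eq_mul]; ring
      _ ≤ _ := sum_le_sum h2
  · have h2 : ∀ p ∈ z.support,
        (#{κ | h κ p ∉ z.support ∧ h κ (z p) ∈ z.support} : ℝ) * (n * (n - 1)) ≤
        (1 + e) * ((n - #z.support) * #z.support) * Fintype.card K := by
      intro p hp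
      have h3 := hm.upper_set (pr p (z p) (ne_of_supp z hp))
        (univ.filter fun b : Tup 2 n => b 0 ∈ (z.support)ᶜ ∧ b 1 ∈ z.support)
      rw [cardB2_disj _ _ (disjoint_compl_left), compl_card, card_tup2] at h3
      simp only [mem_filter, mem_univ, true_and, mv_apply, pr_0, pr_1, mem_compl] at h3
      exact h3
    calc _ ≤ ∑ _p ∈ z.support, (1 + e) * ((n - #z.support) * #z.support) * Fintype.card K :=
          sum_le_sum h2
      _ = _ := by rw [sum_const, nsmul_eq_mul]; ring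

lemma sum_A3_sq (hn : 3 ≤ n) (he : 0 ≤ e) (hm : Mix 4 e h) :
    (∑ κ, (A3 z (h κ) : ℝ) ^ 2) * (n * (n - 1) * (n - 2) * (n - 3)) ≤
      (∑ κ, (A3 z (h κ) : ℝ)) * (n * (n - 1) * (n - 2) * (n - 3)) +
      (1 + e) * (#z.support ^ 2 * ((n - #z.support) * #z.support) ^ 2) * Fintype.card K := by
  set Q : K → Fin n → Prop := fun κ p => h κ p ∉ z.support ∧ h κ (z p) ∈ z.support with hQ
  have h1 : ∀ κ, (A3 z (h κ) : ℝ) ^ 2 = ∑ p ∈ z.support, ∑ p' ∈ z.support,
      (if Q κ p ∧ Q κ p' then (1 : ℝ) else 0) := by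
    intro κ
    unfold A3
    rw [card_filter]
    push_cast
    rw [sq, sum_mul_sum]
    refine sum_congr rfl fun p _ => sum_congr rfl fun p' _ => ?_
    have aux : ∀ (P R : Prop) [Decidable P] [Decidable R],
        (if P then (1 : ℝ) else 0) * (if R then (1 : ℝ) else 0) = if P ∧ R then (1 : ℝ) else 0 := by
      intro P R _ _
      by_cases hP : P <;> by_cases hR : R <;> simp [hP, hR]
    exact aux (Q κ p) (Q κ p')
  have h1' : ∀ κ, (A3 z (h κ) : ℝ) = ∑ p ∈ z.support, (if Q κ p then (1 : ℝ) else 0) := by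
    intro κ
    unfold A3
    rw [card_filter]
    push_cast
    rfl
  simp_rw [h1, h1']
  rw [sum_comm]
  have h2 : ∀ p ∈ z.support, (∑ κ, ∑ p' ∈ z.support, (if Q κ p ∧ Q κ p' then (1 : ℝ) else 0)) *
      (n * (n - 1) * (n - 2) * (n - 3)) ≤
      (∑ κ, (if Q κ p then (1 : ℝ) else 0)) * (n * (n - 1) * (n - 2) * (n - 3)) +
      (1 + e) * (#z.support * ((n - #z.support) * #z.support) ^ 2) * Fintype.card K := by
    intro p hp
    rw [sum_comm, ← add_sum_erase _ _ hp, add_mul]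
    have h3 : ∀ κ, (if Q κ p ∧ Q κ p then (1 : ℝ) else 0) = if Q κ p then 1 else 0 := by
      intro κ; simp
    simp_rw [h3]
    refine add_le_add le_rfl ?_
    rw [sum_mul]
    have h4 : ∀ p' ∈ z.support.erase p,
        (∑ κ, (if Q κ p ∧ Q κ p' then (1 : ℝ) else 0)) * (n * (n - 1) * (n - 2) * (n - 3)) ≤
        (1 + e) * ((n - #z.support) * #z.support) ^ 2 * Fintype.card K := by
      intro p' hp'
      obtain ⟨hne, hp'⟩ := mem_erase.1 hp'
      by_cases hz1 : z p = p'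
      · have h5 : ∀ κ, (if Q κ p ∧ Q κ p' then (1 : ℝ) else 0) = 0 := by
          intro κ
          rw [if_neg]
          rintro ⟨⟨-, h6⟩, h7, -⟩
          rw [hz1] at h6
          exact h7 h6
        simp_rw [h5]
        rw [sum_const_zero, zero_mul]
        positivity
      by_cases hz2 : z p' = p
      · have h5 : ∀ κ, (if Q κ p ∧ Q κ p' then (1 : ℝ) else 0) = 0 := by
          intro κ
          rw [if_neg]
          rintro ⟨⟨h7, -⟩, -, h6⟩
          rw [hz2] at h6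
          exact h7 h6
        simp_rw [h5]
        rw [sum_const_zero, zero_mul]
        positivity
      let a : Tup 4 n := ⟨![p, z p, p', z p'], by
        have e1 := ne_of_supp z hp
        have e2 := ne_of_supp z hp'
        have e3 : z p ≠ z p' := fun hh => hne (z.injective hh).symm
        intro i j hij
        fin_cases i <;> fin_cases j <;> simp at hij ⊢
        · exact e1 hij
        · exact hne hij.symm
        · exact hz2 hij.symm
        · exact e1 hij.symm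
        · exact hz1 hij
        · exact hne hij.symm
        · exact hne hij
        · exact hz1 hij.symm
        · exact e2 hij
        · exact hz2 hij
        · exact hne hij
        · exact e2 hij.symm⟩
      have h5 := hm.upper_set a
        (univ.filter fun b : Tup 4 n => (b 0 ∈ (z.support)ᶜ ∧ b 1 ∈ z.support) ∧
          b 2 ∈ (z.support)ᶜ ∧ b 3 ∈ z.support)
      have h6 := cardB4_le (z.support)ᶜ z.support
      rw [compl_card] at h6
      rw [card_tup4 hn] at h5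
      have h7 : (∑ κ, (if Q κ p ∧ Q κ p' then (1 : ℝ) else 0)) =
          (#{κ | mv (h κ) a ∈ univ.filter fun b : Tup 4 n =>
            (b 0 ∈ (z.support)ᶜ ∧ b 1 ∈ z.support) ∧ b 2 ∈ (z.support)ᶜ ∧ b 3 ∈ z.support} : ℝ) := by
        rw [card_filter]
        push_cast
        refine sum_congr rfl fun κ _ => ?_
        congr 1
        simp only [mem_filter, mem_univ, true_and, mem_compl, hQ]
        rfl
      rw [h7]
      refine h5.trans ?_
      gcongr
    calc _ ≤ ∑ _p' ∈ z.support.erase p,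
          (1 + e) * ((n - #z.support) * #z.support) ^ 2 * Fintype.card K := sum_le_sum h4
      _ = (#(z.support.erase p) : ℝ) *
          ((1 + e) * ((n - #z.support) * #z.support) ^ 2 * Fintype.card K) := by
          rw [sum_const, nsmul_eq_mul]
      _ ≤ (#z.support : ℝ) * ((1 + e) * ((n - #z.support) * #z.support) ^ 2 * Fintype.card K) := by
          gcongr
          exact erase_subset _ _
      _ = _ := by ring
  have h8 : ∑ κ, ∑ p ∈ z.support, (if Q κ p then (1 : ℝ) else 0) =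
      ∑ p ∈ z.support, ∑ κ, (if Q κ p then (1 : ℝ) else 0) := sum_comm
  rw [h8, sum_mul, sum_mul]
  calc _ ≤ ∑ p ∈ z.support, ((∑ κ, (if Q κ p then (1 : ℝ) else 0)) *
        (n * (n - 1) * (n - 2) * (n - 3)) +
      (1 + e) * (#z.support * ((n - #z.support) * #z.support) ^ 2) * Fintype.card K) :=
        sum_le_sum h2
    _ = _ := by
        rw [sum_add_distrib, sum_const, nsmul_eq_mul]; ring

end Avg

/-- a simultaneous first and second moment argument -/
lemma exists_good {K : Type*} [Fintype K] [Nonempty K] (F G : K → ℝ) (hF : ∀ κ, 0 ≤ F κ)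
    (B μ V β : ℝ) (hB : 0 < B) (hμ : 0 < μ) (hβ : 0 < β)
    (h1 : ∑ κ, F κ ≤ B * Fintype.card K) (h2 : ∑ κ, G κ = μ * Fintype.card K)
    (h3 : ∑ κ, G κ ^ 2 ≤ (μ ^ 2 + V) * Fintype.card K) (h4 : 1 / (1 + β) + 4 * V / μ ^ 2 < 1) :
    ∃ κ, F κ ≤ (1 + β) * B ∧ μ / 2 ≤ G κ := by
  by_contra hcon
  push Not at hcon
  have hK : (0 : ℝ) < Fintype.card K := by exact_mod_cast Fintype.card_pos
  have h5 : ∀ κ, (1 : ℝ) ≤ F κ / ((1 + β) * B) + 4 * (G κ - μ) ^ 2 / μ ^ 2 := by
    intro κ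
    by_cases h6 : F κ ≤ (1 + β) * B
    · have h7 := hcon κ h6
      have h8 : 1 ≤ 4 * (G κ - μ) ^ 2 / μ ^ 2 := by
        rw [le_div_iff₀ (by positivity)]
        nlinarith
      have h9 : 0 ≤ F κ / ((1 + β) * B) := div_nonneg (hF κ) (by positivity)
      linarith
    · push Not at h6
      have h8 : 1 ≤ F κ / ((1 + β) * B) := by
        rw [le_div_iff₀ (by positivity)]
        linarith
      have h9 : 0 ≤ 4 * (G κ - μ) ^ 2 / μ ^ 2 := by positivity
      linarith
  have h6 : (Fintype.card K : ℝ) ≤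
      ∑ κ, (F κ / ((1 + β) * B) + 4 * (G κ - μ) ^ 2 / μ ^ 2) := by
    calc (Fintype.card K : ℝ) = ∑ _κ : K, (1 : ℝ) := by simp
      _ ≤ _ := sum_le_sum fun κ _ => h5 κ
  rw [sum_add_distrib, ← sum_div, ← sum_div, ← mul_sum] at h6
  have h7 : ∑ κ, (G κ - μ) ^ 2 ≤ V * Fintype.card K := by
    have h8 : ∀ κ, (G κ - μ) ^ 2 = G κ ^ 2 - 2 * μ * G κ + μ ^ 2 := fun κ => by ring
    simp_rw [h8]
    rw [sum_add_distrib, sum_sub_distrib, ← mul_sum, h2, sum_const, card_univ, nsmul_eq_mul]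
    nlinarith
  have h8 : (∑ κ, F κ) / ((1 + β) * B) ≤ Fintype.card K / (1 + β) := by
    rw [div_le_div_iff₀ (by positivity) (by positivity)]
    nlinarith
  have h9 : 4 * ∑ κ, (G κ - μ) ^ 2 ≤ 4 * (V * Fintype.card K) := by linarith
  have h10 : 4 * (∑ κ, (G κ - μ) ^ 2) / μ ^ 2 ≤ 4 * (V * Fintype.card K) / μ ^ 2 :=
    div_le_div_of_nonneg_right h9 (by positivity)
  have h11 : (Fintype.card K : ℝ) ≤ (1 / (1 + β) + 4 * V / μ ^ 2) * Fintype.card K := by
    calc (Fintype.card K : ℝ) ≤ Fintype.card K / (1 + β) + 4 * (V * Fintype.card K) / μ ^ 2 := by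
          linarith
      _ = _ := by ring
  nlinarith

/-! ### numerical estimates -/

lemma num1 (N M e κ : ℝ) (hκ : 0 < κ) (hκ2 : κ ≤ 1 / 2) (hN : 4500 ≤ κ * N) (he : 0 ≤ e)
    (he2 : e * N ^ 2 ≤ 1) (hM1 : 1 ≤ M) (hM : M ≤ (1 / 2 - κ) * N) (B : ℝ)
    (hB : B * (N * (N - 1)) = M * (N * (N - 1)) - (1 - e) * (M * ((N - M) * (N - M - 1))) +
      (1 + e) * (M * ((N - M) * M))) :
    0 < B ∧ B ≤ (1 - κ / 3) * M ∧ B * N ≤ 5 * M ^ 2 := by
  have hN1 : 9000 ≤ N := by nlinarith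
  have hM0 : 0 < M := by linarith
  have hNM : N / 2 ≤ N - M := by nlinarith
  have hNN : 0 < N * (N - 1) := by nlinarith
  have e1 : e * ((N - M) * (N - 1)) ≤ 1 := by
    have : (N - M) * (N - 1) ≤ N ^ 2 := by nlinarith
    nlinarith
  have e0 : 0 ≤ e * ((N - M) * (N - 1)) := by
    have : 0 ≤ (N - M) * (N - 1) := by nlinarith
    positivity
  have hB' : B * (N * (N - 1)) = M * (3 * M * N - 2 * M ^ 2 - M + e * ((N - M) * (N - 1))) := by
    rw [hB]; ring
  refine ⟨?_, ?_, ?_⟩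
  · have h1 : 0 < M * (3 * M * N - 2 * M ^ 2 - M + e * ((N - M) * (N - 1))) := by
      apply mul_pos hM0
      have : 0 < 3 * M * N - 2 * M ^ 2 - M := by nlinarith
      linarith
    rw [← hB'] at h1
    by_contra hcon
    push Not at hcon
    nlinarith
  · have h1 : M * (3 * M * N - 2 * M ^ 2 - M + e * ((N - M) * (N - 1))) ≤
        (1 - κ / 3) * M * (N * (N - 1)) := by
      have h2 : 3 * M * N - 2 * M ^ 2 - M + e * ((N - M) * (N - 1)) ≤
          (1 - κ / 3) * (N * (N - 1)) := by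
        have h3 : κ * N ≤ N - 2 * M - 1 := by nlinarith
        have h4 : N / 2 * (κ * N) ≤ (N - M) * (N - 2 * M - 1) := by
          apply mul_le_mul hNM h3 (by positivity) (by linarith)
        have h5 : N * (N - 1) - (N - M) * (N - 2 * M - 1) = 3 * M * N - 2 * M ^ 2 - M := by ring
        rw [← h5]
        have h6 : 6 ≤ κ * N ^ 2 := by nlinarith
        nlinarith [mul_pos hκ hNN]
      calc _ ≤ M * ((1 - κ / 3) * (N * (N - 1))) := by gcongr
        _ = _ := by ring
    rw [← hB'] at h1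
    exact le_of_mul_le_mul_right h1 hNN
  · have h2 : 3 * M * N - 2 * M ^ 2 - M + e * ((N - M) * (N - 1)) ≤ 5 * M * (N - 1) := by
      nlinarith
    have h3 : B * N * (N - 1) ≤ 5 * M ^ 2 * (N - 1) := by
      calc B * N * (N - 1) = B * (N * (N - 1)) := by ring
        _ = M * (3 * M * N - 2 * M ^ 2 - M + e * ((N - M) * (N - 1))) := hB'
        _ ≤ M * (5 * M * (N - 1)) := by gcongr
        _ = _ := by ring
    exact le_of_mul_le_mul_right h3 (by linarith)

lemma num2 (N M e μ : ℝ) (hN : 9000 ≤ N) (he : 0 ≤ e)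
    (he2 : e * N ^ 2 ≤ 1) (hM1 : 1 ≤ M) (hM : M ≤ 1 / 2 * N)
    (h : (1 - e) * (M * ((N - M) * M)) ≤ μ * (N * (N - 1))) :
    9 / 20 * M ^ 2 ≤ μ * N := by
  have he3 : e ≤ 1 / 100 := by nlinarith
  have h1 : 9 / 20 * M ^ 2 * (N - 1) ≤ (1 - e) * (M * ((N - M) * M)) := by
    have h2 : 9 / 10 * (N / 2) ≤ (1 - e) * (N - M) :=
      mul_le_mul (by linarith) (by linarith) (by linarith) (by linarith)
    have h3 : 9 / 20 * (N - 1) ≤ (1 - e) * (N - M) := by linarith
    calc 9 / 20 * M ^ 2 * (N - 1) = M ^ 2 * (9 / 20 * (N - 1)) := by ring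
      _ ≤ M ^ 2 * ((1 - e) * (N - M)) := by gcongr
      _ = _ := by ring
  have h2 : 9 / 20 * M ^ 2 * (N - 1) ≤ μ * N * (N - 1) := by
    calc _ ≤ _ := h1
      _ ≤ _ := h
      _ = _ := by ring
  exact le_of_mul_le_mul_right h2 (by linarith)

lemma num3 (N P e μ S : ℝ) (hN : 9000 ≤ N) (he : 0 ≤ e)
    (he2 : e * N ^ 2 ≤ 1) (hP : 0 ≤ P) (hμ : (1 - e) * P ≤ μ)
    (h : S * (N * (N - 1) * (N - 2) * (N - 3)) ≤ μ * (N * (N - 1) * (N - 2) * (N - 3)) +
      (1 + e) * (P * (N * (N - 1))) ^ 2) :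
    S ≤ μ ^ 2 + (μ + 6 * μ ^ 2 / N) := by
  have he3 : e ≤ 1 / 100 := by nlinarith
  have hN0 : 0 < N := by linarith
  have he4 : e ≤ 1 / (9000 * N) := by
    rw [le_div_iff₀ (by positivity)]
    nlinarith
  have hNN : 0 < N * (N - 1) := by nlinarith
  have h23 : 0 < (N - 2) * (N - 3) := by nlinarith
  have h1 : S * ((N - 2) * (N - 3)) ≤ μ * ((N - 2) * (N - 3)) + (1 + e) * P ^ 2 * (N * (N - 1)) := by
    have : (S * ((N - 2) * (N - 3))) * (N * (N - 1)) ≤
        (μ * ((N - 2) * (N - 3)) + (1 + e) * P ^ 2 * (N * (N - 1))) * (N * (N - 1)) := by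
      nlinarith
    exact le_of_mul_le_mul_right this hNN
  have h2 : N * (N - 1) ≤ (1 + 5 / N) * ((N - 2) * (N - 3)) := by
    have : (1 + 5 / N) * ((N - 2) * (N - 3)) = (N + 5) * ((N - 2) * (N - 3)) / N := by
      field_simp
    rw [this, le_div_iff₀ hN0]
    nlinarith
  have h3 : S ≤ μ + (1 + e) * P ^ 2 * (1 + 5 / N) := by
    have : S * ((N - 2) * (N - 3)) ≤
        (μ + (1 + e) * P ^ 2 * (1 + 5 / N)) * ((N - 2) * (N - 3)) := by
      have h4 : 0 ≤ (1 + e) * P ^ 2 := by positivity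
      nlinarith
    exact le_of_mul_le_mul_right this h23
  have h4 : ((1 - e) * P) ^ 2 ≤ μ ^ 2 := by
    have : 0 ≤ (1 - e) * P := mul_nonneg (by linarith) hP
    exact pow_le_pow_left₀ this hμ 2
  have h5 : (1 + e) * (1 + 5 / N) ≤ (1 + 6 / N) * (1 - e) ^ 2 := by
    have h6 : (1 - 2 * e) ≤ (1 - e) ^ 2 := by nlinarith
    have h7 : (1 + 6 / N) * (1 - 2 * e) ≤ (1 + 6 / N) * (1 - e) ^ 2 := by gcongr
    refine le_trans ?_ h7
    have h8 : 0 < 1 / N := by positivity
    have h9 : 1 / N ≤ 1 / 9000 := by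
      rw [div_le_div_iff₀ hN0 (by norm_num)]; linarith
    have e5 : (5 : ℝ) / N = 5 * (1 / N) := by ring
    have e6 : (6 : ℝ) / N = 6 * (1 / N) := by ring
    have he5 : e ≤ 1 / 9000 * (1 / N) := by
      calc e ≤ 1 / (9000 * N) := he4
        _ = _ := by rw [one_div, mul_inv, one_div, one_div]
    rw [e5, e6]
    nlinarith
  have h6 : (1 + e) * P ^ 2 * (1 + 5 / N) ≤ (1 + 6 / N) * μ ^ 2 := by
    calc (1 + e) * P ^ 2 * (1 + 5 / N) = (1 + e) * (1 + 5 / N) * P ^ 2 := by ring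
      _ ≤ (1 + 6 / N) * (1 - e) ^ 2 * P ^ 2 := by gcongr
      _ = (1 + 6 / N) * ((1 - e) * P) ^ 2 := by ring
      _ ≤ _ := by gcongr
  calc S ≤ μ + (1 + 6 / N) * μ ^ 2 := by linarith
    _ = _ := by ring

lemma num4 (N M κ μ : ℝ) (hκ : 0 < κ) (hκ2 : κ ≤ 1 / 2) (hN : 4500 ≤ κ * N) (hM1 : 1 ≤ M)
    (hM2 : 400 * N ≤ κ * M ^ 2) (hμ : 9 / 20 * M ^ 2 ≤ μ * N) :
    1 / (1 + κ / 6) + 4 * (μ + 6 * μ ^ 2 / N) / μ ^ 2 < 1 := by
  have hN1 : 9000 ≤ N := by nlinarith
  have hN0 : 0 < N := by linarith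
  have hμ0 : 180 ≤ κ * μ := by
    have h1 : 180 * N ≤ κ * μ * N := by
      calc 180 * N ≤ 9 / 20 * (κ * M ^ 2) := by linarith
        _ = κ * (9 / 20 * M ^ 2) := by ring
        _ ≤ κ * (μ * N) := by gcongr
        _ = _ := by ring
    exact le_of_mul_le_mul_right h1 hN0
  have hμ1 : 0 < μ := by
    by_contra hcon
    push Not at hcon
    nlinarith
  have h1 : 4 * (μ + 6 * μ ^ 2 / N) / μ ^ 2 = 4 / μ + 24 / N := by
    field_simp
    ring
  rw [h1]
  have h2 : 4 / μ ≤ κ / 45 := by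
    rw [div_le_div_iff₀ hμ1 (by norm_num)]
    linarith
  have h3 : 24 / N ≤ κ / 100 := by
    rw [div_le_div_iff₀ hN0 (by norm_num)]
    linarith
  have h4 : 1 / (1 + κ / 6) ≤ 1 - κ / 8 := by
    rw [div_le_iff₀ (by positivity)]
    nlinarith
  linarith

lemma comm_core {K : Type*} [Fintype K] [Nonempty K] (a1 a2 a3 c : K → ℝ) (N M e κ : ℝ)
    (hκ : 0 < κ) (hκ2 : κ ≤ 1 / 2) (hn : 4500 ≤ κ * N) (he : 0 ≤ e) (he2 : e * N ^ 2 ≤ 1)
    (hM1 : 1 ≤ M) (hM : M ≤ (1 / 2 - κ) * N) (hM2 : 400 * N ≤ κ * M ^ 2)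
    (hF : ∀ i, 0 ≤ M - a1 i + a2 i)
    (s1 : (1 - e) * (M * ((N - M) * (N - M - 1))) * Fintype.card K ≤ (∑ i, a1 i) * (N * (N - 1)))
    (s2 : (∑ i, a2 i) * (N * (N - 1)) ≤ (1 + e) * (M * ((N - M) * M)) * Fintype.card K)
    (s3 : (1 - e) * (M * ((N - M) * M)) * Fintype.card K ≤ (∑ i, a3 i) * (N * (N - 1)))
    (s4 : (∑ i, a3 i ^ 2) * (N * (N - 1) * (N - 2) * (N - 3)) ≤
      (∑ i, a3 i) * (N * (N - 1) * (N - 2) * (N - 3)) +
      (1 + e) * (M ^ 2 * ((N - M) * M) ^ 2) * Fintype.card K)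
    (hup : ∀ i, c i ≤ M - a1 i + a2 i) (hlo : ∀ i, a3 i ≤ c i) :
    ∃ i, M ^ 2 ≤ 6 * N * c i ∧ c i ≤ (1 - κ / 6) * M ∧ c i * N ≤ 10 * M ^ 2 := by
  have hK : (0 : ℝ) < Fintype.card K := by exact_mod_cast Fintype.card_pos
  have hN1 : 9000 ≤ N := by nlinarith
  have hN0 : 0 < N := by linarith
  have hNN : 0 < N * (N - 1) := by nlinarith
  obtain ⟨B, hB⟩ : ∃ B : ℝ, B * (N * (N - 1)) = M * (N * (N - 1)) -
      (1 - e) * (M * ((N - M) * (N - M - 1))) + (1 + e) * (M * ((N - M) * M)) :=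
    ⟨_, div_mul_cancel₀ _ hNN.ne'⟩
  obtain ⟨hB0, hB1, hB2⟩ := num1 N M e κ hκ hκ2 hn he he2 hM1 hM B hB
  obtain ⟨μ, hμs⟩ : ∃ μ : ℝ, ∑ i, a3 i = μ * Fintype.card K :=
    ⟨_, (div_mul_cancel₀ _ hK.ne').symm⟩
  have hμ1 : (1 - e) * (M * ((N - M) * M)) ≤ μ * (N * (N - 1)) := by
    rw [hμs] at s3
    have : (1 - e) * (M * ((N - M) * M)) * Fintype.card K ≤
        μ * (N * (N - 1)) * Fintype.card K := by
      calc _ ≤ _ := s3
        _ = _ := by ring
    exact le_of_mul_le_mul_right this hK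
  have hμ2 := num2 N M e μ hN1 he he2 hM1 (by nlinarith) hμ1
  have hμ0 : 0 < μ := by
    have : 0 < μ * N := lt_of_lt_of_le (by positivity) hμ2
    by_contra hcon
    push Not at hcon
    nlinarith
  obtain ⟨P, hP⟩ : ∃ P : ℝ, P * (N * (N - 1)) = M * ((N - M) * M) :=
    ⟨_, div_mul_cancel₀ _ hNN.ne'⟩
  have hNM : 0 ≤ N - M := by nlinarith
  have hP0 : 0 ≤ P := by
    have : 0 ≤ P * (N * (N - 1)) := by rw [hP]; positivity
    by_contra hcon
    push Not at hcon
    nlinarith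
  have hPμ : (1 - e) * P ≤ μ := by
    have : (1 - e) * P * (N * (N - 1)) ≤ μ * (N * (N - 1)) := by
      calc _ = (1 - e) * (P * (N * (N - 1))) := by ring
        _ ≤ _ := by rw [hP]; exact hμ1
    exact le_of_mul_le_mul_right this hNN
  have h3 : (∑ i, a3 i ^ 2) / Fintype.card K ≤ μ ^ 2 + (μ + 6 * μ ^ 2 / N) := by
    refine num3 N P e μ _ hN1 he he2 hP0 hPμ ?_
    rw [hP, div_mul_eq_mul_div, div_le_iff₀ hK]
    rw [hμs] at s4
    calc _ ≤ _ := s4
      _ = _ := by ring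
  have h3' : ∑ i, a3 i ^ 2 ≤ (μ ^ 2 + (μ + 6 * μ ^ 2 / N)) * Fintype.card K := by
    rwa [div_le_iff₀ hK] at h3
  have h4 := num4 N M κ μ hκ hκ2 hn hM1 hM2 hμ2
  have h1 : ∑ i, (M - a1 i + a2 i) ≤ B * Fintype.card K := by
    have h5 : ∑ i, (M - a1 i + a2 i) = M * Fintype.card K - ∑ i, a1 i + ∑ i, a2 i := by
      rw [sum_add_distrib, sum_sub_distrib, sum_const, card_univ, nsmul_eq_mul]
      ring
    rw [h5]
    have h6 : (M * Fintype.card K - ∑ i, a1 i + ∑ i, a2 i) *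
        (N * (N - 1)) ≤ B * Fintype.card K * (N * (N - 1)) := by
      have h7 : B * Fintype.card K * (N * (N - 1)) = (M * (N * (N - 1)) -
          (1 - e) * (M * ((N - M) * (N - M - 1))) + (1 + e) * (M * ((N - M) * M))) *
          Fintype.card K := by
        rw [← hB]; ring
      rw [h7]
      linarith [s1, s2]
    exact le_of_mul_le_mul_right h6 hNN
  obtain ⟨i, hi1, hi2⟩ := exists_good (fun i => M - a1 i + a2 i)
    a3 hF B μ (μ + 6 * μ ^ 2 / N) (κ / 6) hB0 hμ0 (by positivity) h1 hμs h3' h4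
  have hM0 : 0 < M := by linarith
  have hup' := hup i
  refine ⟨i, ?_, ?_, ?_⟩
  · have h5 : μ / 2 ≤ c i := hi2.trans (hlo i)
    have h6 : μ / 2 * N ≤ c i * N := by gcongr
    nlinarith
  · calc c i ≤ (1 + κ / 6) * B := hup'.trans hi1
      _ ≤ (1 + κ / 6) * ((1 - κ / 3) * M) := by gcongr
      _ ≤ (1 - κ / 6) * M := by nlinarith
  · calc c i * N ≤ (1 + κ / 6) * B * N := by
          have := hup'.trans hi1
          gcongr
      _ = (1 + κ / 6) * (B * N) := by ring
      _ ≤ 2 * (5 * M ^ 2) := by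
          apply mul_le_mul (by linarith) hB2 (by positivity) (by norm_num)
      _ = _ := by ring

/-- one step: a commutator with a random conjugate -/
theorem comm_step {K : Type*} [Fintype K] [Nonempty K] {h : K → Perm (Fin n)} {e κ : ℝ}
    (z : Perm (Fin n)) (hκ : 0 < κ) (hκ2 : κ ≤ 1 / 2) (hn : 4500 ≤ κ * n) (he : 0 ≤ e)
    (he2 : e * (n : ℝ) ^ 2 ≤ 1) (hm2 : Mix 2 e h) (hm4 : Mix 4 e h)
    (hM : (#z.support : ℝ) ≤ (1 / 2 - κ) * n) (hM2 : 400 * n ≤ κ * (#z.support : ℝ) ^ 2) :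
    ∃ i, (#z.support : ℝ) ^ 2 ≤ 6 * n * #(cm z (h i)).support ∧
      (#(cm z (h i)).support : ℝ) ≤ (1 - κ / 6) * #z.support ∧
      (#(cm z (h i)).support : ℝ) * n ≤ 10 * (#z.support : ℝ) ^ 2 := by
  have hN1 : (9000 : ℝ) ≤ n := by nlinarith
  have hn3 : 3 ≤ n := by
    have : (3 : ℝ) ≤ n := by linarith
    exact_mod_cast this
  have hM1 : (1 : ℝ) ≤ #z.support := by
    have h1 : #z.support ≠ 0 := by
      intro h0
      rw [h0] at hM2
      norm_num at hM2
      linarith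
    exact_mod_cast Nat.one_le_iff_ne_zero.2 h1
  refine comm_core (fun i => (A1 z (h i) : ℝ)) (fun i => (A2 z (h i) : ℝ))
    (fun i => (A3 z (h i) : ℝ)) (fun i => (#(cm z (h i)).support : ℝ)) n #z.support e κ
    hκ hκ2 hn he he2 hM1 hM hM2 ?_ (sum_A1 z hm2) (sum_A2 z hm2) (sum_A3 z hm2).1
    (sum_A3_sq z hn3 he hm4) ?_ ?_
  · intro i
    have h5 : (A1 z (h i) : ℝ) ≤ #z.support := by
      exact_mod_cast card_filter_le _ _
    have h6 : (0 : ℝ) ≤ A2 z (h i) := Nat.cast_nonneg _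
    show (0 : ℝ) ≤ #z.support - A1 z (h i) + A2 z (h i)
    linarith
  · intro i
    have h5 := card_cm_upper z (h i)
    have h6 : ((#(cm z (h i)).support + A1 z (h i) : ℕ) : ℝ) ≤
        ((#z.support + A2 z (h i) : ℕ) : ℝ) := by exact_mod_cast h5
    push_cast at h6
    show (#(cm z (h i)).support : ℝ) ≤ #z.support - A1 z (h i) + A2 z (h i)
    linarith
  · intro i
    show (A3 z (h i) : ℝ) ≤ #(cm z (h i)).support
    exact_mod_cast card_cm_lower z (h i)

end

end Run7.h624.DM
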