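import Pool.Agent.Run7.h624.DM.Base

/-!
Products of disjoint three-cycles: every such product with few factors is a short word, and every
even permutation is a product of few of them.
-/

namespace Run7.h624.DM
open RC14 Finset Equiv

noncomputable section

variable {n : ℕ}

/-- `(i, j) ↦ (i, j + 1)` -/
def rot3 (q : ℕ) : Perm (Fin q × Fin 3) := Equiv.prodCongr (Equiv.refl _) (finRotate 3)

/-- `(i, 0) ↔ (i, 1)` -/
def flip3 (q : ℕ) : Perm (Fin q × Fin 3) := Equiv.prodCongr (Equiv.refl _) (Equiv.swap 0 1)

/-- the product of the three-cycles `e (i, 0) → e (i, 1) → e (i, 2) → e (i, 0)` -/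
def T3 {q : ℕ} (e : Fin q × Fin 3 ↪ Fin n) : Perm (Fin n) := (rot3 q).viaEmbedding e

lemma T3_apply {q : ℕ} (e : Fin q × Fin 3 ↪ Fin n) (p : Fin q × Fin 3) :
    T3 e (e p) = e (rot3 q p) := by
  unfold T3
  exact Equiv.Perm.viaEmbedding_apply _ _ _

lemma T3_0 {q : ℕ} (e : Fin q × Fin 3 ↪ Fin n) (i : Fin q) : T3 e (e (i, 0)) = e (i, 1) := by
  rw [T3_apply]; rfl

lemma T3_1 {q : ℕ} (e : Fin q × Fin 3 ↪ Fin n) (i : Fin q) : T3 e (e (i, 1)) = e (i, 2) := by
  rw [T3_apply]; rfl

lemma T3_2 {q : ℕ} (e : Fin q × Fin 3 ↪ Fin n) (i : Fin q) : T3 e (e (i, 2)) = e (i, 0) := by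
  rw [T3_apply]; rfl

lemma T3_not {q : ℕ} (e : Fin q × Fin 3 ↪ Fin n) (p : Fin n) (hp : p ∉ Set.range e) :
    T3 e p = p := by
  unfold T3
  exact Equiv.Perm.viaEmbedding_apply_of_notMem _ _ _ hp

lemma conj_T3 {q : ℕ} (e : Fin q × Fin 3 ↪ Fin n) (u : Perm (Fin n)) :
    u * T3 e * u⁻¹ = T3 (e.trans u.toEmbedding) := by
  ext p
  congr 1
  by_cases hp : p ∈ Set.range (e.trans u.toEmbedding)
  · obtain ⟨s, rfl⟩ := hp
    rw [T3_apply]
    simp [T3_apply]
  · rw [T3_not _ _ hp]
    simp only [Perm.mul_apply]
    have : u⁻¹ p ∉ Set.range e := by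
      rintro ⟨s, hs⟩
      apply hp
      refine ⟨s, ?_⟩
      simp [hs]
    rw [T3_not _ _ this]
    simp

/-- a large set which is disjoint from its image -/
lemma exists_indep (z : Perm (Fin n)) : ∃ A ⊆ z.support, (∀ a ∈ A, z a ∉ A) ∧
    #z.support ≤ 3 * #A := by
  classical
  let P : Finset (Fin n) → Prop := fun A => A ⊆ z.support ∧ ∀ a ∈ A, z a ∉ A
  have hne : (univ.filter P).Nonempty := ⟨∅, by simp [P]⟩
  obtain ⟨A, hA, hmax⟩ := exists_max_image (univ.filter P) card hne
  have hA' : P A := (mem_filter.1 hA).2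
  refine ⟨A, hA'.1, hA'.2, ?_⟩
  have hsub : z.support ⊆ A ∪ (A.image z ∪ A.image ⇑z⁻¹) := by
    intro p hp
    by_contra hcon
    simp only [mem_union, not_or, mem_image, not_exists, not_and] at hcon
    obtain ⟨h1, h2, h3⟩ := hcon
    have hP : P (insert p A) := by
      refine ⟨?_, ?_⟩
      · intro s hs
        rcases mem_insert.1 hs with rfl | hs
        · exact hp
        · exact hA'.1 hs
      · intro a ha hza
        rcases mem_insert.1 ha with rfl | ha
        · rcases mem_insert.1 hza with h | h
          · exact (Perm.mem_support.1 hp) h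
          · exact h3 (z a) h (by simp)
        · rcases mem_insert.1 hza with h | h
          · exact h2 a ha h
          · exact hA'.2 a ha h
    have := hmax _ (mem_filter.2 ⟨mem_univ _, hP⟩)
    rw [card_insert_of_notMem h1] at this
    omega
  calc #z.support ≤ #(A ∪ (A.image z ∪ A.image ⇑z⁻¹)) := card_le_card hsub
    _ ≤ #A + (#(A.image z) + #(A.image ⇑z⁻¹)) := by
        refine (card_union_le _ _).trans ?_
        gcongr
        exact card_union_le _ _
    _ ≤ #A + (#A + #A) := by
        have h1 : #(A.image z) ≤ #A := card_image_le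
        have h2 : #(A.image ⇑z⁻¹) ≤ #A := card_image_le
        omega
    _ = 3 * #A := by ring

/-- an embedding of `Fin q` with values in a given set -/
lemma exists_emb (A : Finset (Fin n)) (q : ℕ) (h : q ≤ #A) : ∃ a : Fin q ↪ Fin n, ∀ i, a i ∈ A := by
  obtain ⟨B, hB, hc⟩ := exists_subset_card_eq h
  refine ⟨(B.orderEmbOfFin hc).toEmbedding, fun i => hB ?_⟩
  exact orderEmbOfFin_mem B hc i

/-- three families of points -/
lemma exists_emb3 {q : ℕ} (a b c : Fin q ↪ Fin n) (hab : ∀ i j, a i ≠ b j) (hac : ∀ i j, a i ≠ c j)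
    (hbc : ∀ i j, b i ≠ c j) :
    ∃ e : Fin q × Fin 3 ↪ Fin n, (∀ i, e (i, 0) = a i) ∧ (∀ i, e (i, 1) = b i) ∧
      ∀ i, e (i, 2) = c i := by
  let f : Fin q × Fin 3 → Fin n := fun p => if p.2 = 0 then a p.1 else if p.2 = 1 then b p.1 else c p.1
  have hf : Function.Injective f := by
    rintro ⟨i, u⟩ ⟨j, v⟩ h
    fin_cases u <;> fin_cases v <;> simp [f] at h
    · rw [h]
    · exact absurd h (hab _ _)
    · exact absurd h (hac _ _)
    · exact absurd h.symm (hab _ _)
    · rw [h]
    · exact absurd h (hbc _ _)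
    · exact absurd h.symm (hac _ _)
    · exact absurd h.symm (hbc _ _)
    · rw [h]
  exact ⟨⟨f, hf⟩, fun i => by simp [f], fun i => by simp [f], fun i => by simp [f]⟩

/-- one reduction step: `T3 e` takes care of `q` points of the support of `h` -/
lemma reduce (h : Perm (Fin n)) (q : ℕ) (hq : 3 * q ≤ #h.support) :
    ∃ e : Fin q × Fin 3 ↪ Fin n, #((T3 e)⁻¹ * h).support + q ≤ #h.support := by
  classical
  obtain ⟨A, hA, hA1, hA2⟩ := exists_indep h
  obtain ⟨a, ha⟩ := exists_emb A q (by omega)
  set B : Finset (Fin n) := h.support \ (univ.map a ∪ univ.map (a.trans h.toEmbedding)) with hB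
  have hBc : q ≤ #B := by
    have h1 : #(univ.map a ∪ univ.map (a.trans h.toEmbedding)) ≤ 2 * q := by
      refine (card_union_le _ _).trans ?_
      rw [card_map, card_map, card_univ, Fintype.card_fin]; omega
    have h2 := le_card_sdiff (univ.map a ∪ univ.map (a.trans h.toEmbedding)) h.support
    rw [← hB] at h2
    omega
  obtain ⟨c, hc⟩ := exists_emb B q hBc
  have hc1 : ∀ i, c i ∈ h.support := fun i => (mem_sdiff.1 (hc i)).1
  have hc2 : ∀ i j, c i ≠ a j := by
    intro i j hij
    apply (mem_sdiff.1 (hc i)).2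
    rw [mem_union]; left
    exact mem_map.2 ⟨j, mem_univ _, hij.symm⟩
  have hc3 : ∀ i j, c i ≠ h (a j) := by
    intro i j hij
    apply (mem_sdiff.1 (hc i)).2
    rw [mem_union]; right
    exact mem_map.2 ⟨j, mem_univ _, hij.symm⟩
  obtain ⟨e, he0, he1, he2⟩ := exists_emb3 a (a.trans h.toEmbedding) c
    (fun i j hij => by
      have hij' : a i = h (a j) := hij
      exact hA1 (a j) (ha j) (by rw [← hij']; exact ha i))
    (fun i j hij => hc2 j i hij.symm) (fun i j hij => hc3 j i hij.symm)
  have he1' : ∀ i, e (i, 1) = h (a i) := he1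
  refine ⟨e, ?_⟩
  have hsub : ((T3 e)⁻¹ * h).support ⊆ h.support \ univ.map a := by
    intro p hp
    rw [mem_sdiff]
    rw [Perm.mem_support] at hp
    constructor
    · rw [Perm.mem_support]
      intro hpp
      apply hp
      rw [Perm.mul_apply, hpp, Perm.inv_eq_iff_eq, T3_not]
      rintro ⟨⟨i, j⟩, hij⟩
      have hmem : p ∈ h.support := by
        fin_cases j
        · rw [← hij]; change e (i, 0) ∈ _; rw [he0]; exact hA (ha i)
        · rw [← hij]; change e (i, 1) ∈ _; rw [he1', Perm.apply_mem_support]; exact hA (ha i)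
        · rw [← hij]; change e (i, 2) ∈ _; rw [he2]; exact hc1 i
      exact (Perm.mem_support.1 hmem) hpp
    · intro hm
      obtain ⟨i, -, rfl⟩ := mem_map.1 hm
      apply hp
      rw [Perm.mul_apply, Perm.inv_eq_iff_eq, ← he1', ← T3_0, he0]
  have h1 : univ.map a ⊆ h.support := by
    intro p hp
    obtain ⟨i, -, rfl⟩ := mem_map.1 hp
    exact hA (ha i)
  have h2 := card_le_card hsub
  rw [card_sdiff_of_subset h1, card_map, card_univ, Fintype.card_fin] at h2
  have h3 := card_le_card h1
  rw [card_map, card_univ, Fintype.card_fin] at h3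
  omega

/-- all products of at most `q` disjoint three-cycles are words of length at most `L` -/
def AllT3 {k : ℕ} (x : Fin k → Alt n) (q L : ℕ) : Prop :=
  ∀ q' ≤ q, ∀ e : Fin q' × Fin 3 ↪ Fin n, ∃ g ∈ Bl x L, (g : Perm (Fin n)) = T3 e

lemma three_le_support (h : Alt n) (hh : h ≠ 1) : 3 ≤ #(h : Perm (Fin n)).support := by
  have h1 : (h : Perm (Fin n)) ≠ 1 := fun e => hh (Subtype.ext e)
  have h2 : 2 ≤ #(h : Perm (Fin n)).support := Perm.two_le_card_support_of_ne_one h1
  have h3 : #(h : Perm (Fin n)).support ≠ 2 := by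
    intro h4
    have h5 := Perm.card_support_eq_two.1 h4
    have h6 := h5.sign_eq
    have h7 : Perm.sign (h : Perm (Fin n)) = 1 := h.2
    rw [h7] at h6
    exact absurd h6 (by decide)
  omega

/-- every even permutation is a product of few products of at most `q` disjoint three-cycles -/
lemma all_words {k : ℕ} (x : Fin k → Alt n) (q L : ℕ) (hq : 1 ≤ q) (hL : AllT3 x q L) :
    ∀ (N : ℕ) (h : Alt n), #(h : Perm (Fin n)).support = N →
      ∃ j : ℕ, (j : ℝ) ≤ N / q + 5 * Real.log N ∧ h ∈ Bl x (j * L) := by
  intro N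
  induction N using Nat.strong_induction_on with
  | _ N ih =>
    intro h hN
    have hqp : (0 : ℝ) < q := by exact_mod_cast hq
    by_cases h1 : h = 1
    · refine ⟨0, ?_, ?_⟩
      · have : 0 ≤ Real.log N := Real.log_natCast_nonneg N
        push_cast
        positivity
      · rw [h1]; exact Bl_one x _
    · have h3 : 3 ≤ N := hN ▸ three_le_support h h1
      set q' := min q (N / 3) with hq'
      have hq1 : 1 ≤ q' := by
        have : 1 ≤ N / 3 := by omega
        exact le_min hq this
      have hq3 : 3 * q' ≤ N := by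
        have : q' ≤ N / 3 := min_le_right _ _
        omega
      obtain ⟨e, he⟩ := reduce (h : Perm (Fin n)) q' (by rw [hN]; exact hq3)
      obtain ⟨g, hg, hge⟩ := hL q' (min_le_left _ _) e
      set h' : Alt n := g⁻¹ * h with hh'
      have hc : ((h' : Alt n) : Perm (Fin n)) = (T3 e)⁻¹ * h := by
        rw [hh', Subgroup.coe_mul, Subgroup.coe_inv, hge]
      set N' := #(h' : Perm (Fin n)).support with hN'
      have hN1 : N' + q' ≤ N := by
        rw [hN', hc, ← hN]; exact he
      obtain ⟨j, hj, hj'⟩ := ih N' (by omega) h' rfl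
      refine ⟨j + 1, ?_, ?_⟩
      · have hNp : (3 : ℝ) ≤ N := by exact_mod_cast h3
        have hN1' : (N' : ℝ) + q' ≤ N := by exact_mod_cast hN1
        have hlog1 : 1 ≤ Real.log N := by
          rw [Real.le_log_iff_exp_le (by linarith)]
          have := Real.exp_one_lt_d9
          linarith
        have hkey : (N' : ℝ) / q + 5 * Real.log N' + 1 ≤ N / q + 5 * Real.log N := by
          rcases le_total q (N / 3) with hle | hle
          · have e1 : q' = q := min_eq_left hle
            rw [e1] at hN1'
            have e2 : (N' : ℝ) / q + 1 ≤ N / q := by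
              rw [div_add_one hqp.ne']
              exact div_le_div_of_nonneg_right (by linarith) hqp.le
            have e3 : Real.log N' ≤ Real.log N := by
              rcases Nat.eq_zero_or_pos N' with h0 | h0
              · rw [h0]; simp; linarith
              · apply Real.log_le_log (by exact_mod_cast h0)
                linarith
            linarith
          · have e1 : q' = N / 3 := min_eq_right hle
            have e2 : N ≤ 5 * q' := by rw [e1]; omega
            have e2' : (N : ℝ) ≤ 5 * q' := by exact_mod_cast e2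
            have e3 : (N' : ℝ) / q ≤ N / q :=
              div_le_div_of_nonneg_right (by linarith [Nat.cast_nonneg (α := ℝ) q']) hqp.le
            rcases Nat.eq_zero_or_pos N' with h0 | h0
            · rw [h0] at e3 ⊢
              simp only [Nat.cast_zero, Real.log_zero, mul_zero, add_zero] at e3 ⊢
              linarith
            · have h0' : (0 : ℝ) < N' := by exact_mod_cast h0
              have e4 : (N' : ℝ) ≤ 4 / 5 * N := by linarith
              have e5 : Real.log N' ≤ Real.log (4 / 5) + Real.log N := by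
                rw [← Real.log_mul (by norm_num) (by linarith)]
                exact Real.log_le_log h0' e4
              have e6 : Real.log (4 / 5) ≤ -(1 / 5) := by
                have := Real.log_le_sub_one_of_pos (show (0 : ℝ) < 4 / 5 by norm_num)
                linarith
              linarith
        push_cast
        linarith
      · have : h = g * h' := by rw [hh']; group
        rw [this]
        have h5 := Bl_mul x hg hj'
        rwa [show (j + 1) * L = L + j * L by ring]

end

end Run7.h624.DM
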