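import Pool.Agent.Run7.h624.DM.Comm

/-!
Iterated commutators: from a short word moving between `κ n` and `(1/2 - κ) n` points to a short
word moving about `H` points.
-/

namespace Run7.h624.DM
open RC14 Finset Equiv

noncomputable section

variable {n k : ℕ}

/-- the size of the support of an element of the alternating group -/
def sp (z : Alt n) : ℝ := (#(z : Perm (Fin n)).support : ℝ)

lemma sp_nonneg (z : Alt n) : 0 ≤ sp z := Nat.cast_nonneg _

/-- there is a word of length at most `L` whose support has at most `H` and at least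
`H ^ 2 / (6 n)` elements -/
def Done (x : Fin k → Alt n) (H : ℝ) (L : ℕ) : Prop :=
  ∃ z ∈ Bl x L, H ^ 2 ≤ 6 * n * sp z ∧ sp z ≤ H

lemma Done.mono {x : Fin k → Alt n} {H : ℝ} {L L' : ℕ} (h : Done x H L) (hL : L ≤ L') :
    Done x H L' := by
  obtain ⟨z, hz, h1⟩ := h
  exact ⟨z, Bl_mono x hL hz, h1⟩

/-- the standing assumptions of the iteration -/
structure Good (x : Fin k → Alt n) (κ H : ℝ) (T : ℕ) : Prop where
  hκ : 0 < κ
  hκ2 : κ ≤ 1 / 2
  hn : 4500 ≤ κ * n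
  hH : 400 * n ≤ κ * H ^ 2
  hH0 : 1 ≤ H
  mix : ∃ e : ℝ, 0 ≤ e ∧ e * (n : ℝ) ^ 2 ≤ 1 ∧
    Mix 2 e (fun ω : Fin T → St k => (gw x T ω : Perm (Fin n))) ∧
    Mix 4 e (fun ω : Fin T → St k => (gw x T ω : Perm (Fin n)))
  hk : 1 ≤ k

lemma Good.step {x : Fin k → Alt n} {κ H : ℝ} {T : ℕ} (hg : Good x κ H T) {L : ℕ} {z : Alt n}
    (hz : z ∈ Bl x L) (h1 : H < sp z) (h2 : sp z ≤ (1 / 2 - κ) * n) :
    Done x H (4 * L + 4 * T) ∨ ∃ z' ∈ Bl x (4 * L + 4 * T), H < sp z' ∧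
      sp z' ≤ (1 - κ / 6) * sp z ∧ sp z' * n ≤ 10 * sp z ^ 2 := by
  obtain ⟨e, he0, he1, hm2, hm4⟩ := hg.mix
  have : NeZero k := ⟨by have := hg.hk; omega⟩
  have hH0 := hg.hH0
  have hκ := hg.hκ
  have h3 : 400 * (n : ℝ) ≤ κ * sp z ^ 2 := by
    refine hg.hH.trans ?_
    gcongr
  obtain ⟨ω, a1, a2, a3⟩ := comm_step (z : Perm (Fin n)) hg.hκ hg.hκ2 hg.hn he0 he1 hm2 hm4 h2 h3
  set h : Alt n := gw x T ω with hh
  have hhB : h ∈ Bl x T := gw_mem x T ω
  set z' : Alt n := z * (h⁻¹ * z * h) * z⁻¹ * (h⁻¹ * z * h)⁻¹ with hz'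
  have hzB : z' ∈ Bl x (4 * L + 4 * T) := by
    have b1 : h⁻¹ * z * h ∈ Bl x (2 * T + L) := by
      have := Bl_conj x (Bl_inv x hhB) hz
      rwa [inv_inv] at this
    have b2 := Bl_mul x (Bl_mul x (Bl_mul x hz b1) (Bl_inv x hz)) (Bl_inv x b1)
    refine Bl_mono x ?_ b2
    omega
  have hzc : (z' : Perm (Fin n)) = cm (z : Perm (Fin n)) (h : Perm (Fin n)) := by
    rw [hz']
    unfold cm cjg
    simp only [Subgroup.coe_mul, Subgroup.coe_inv]
  rw [← hzc] at a1 a2 a3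
  by_cases h5 : sp z' ≤ H
  · left
    refine ⟨z', hzB, ?_, h5⟩
    refine le_trans ?_ a1
    have : H ≤ (#(z : Perm (Fin n)).support : ℝ) := h1.le
    gcongr
  · right
    push Not at h5
    exact ⟨z', hzB, h5, a2, a3⟩

lemma Good.phase1 {x : Fin k → Alt n} {κ H : ℝ} {T : ℕ} (hg : Good x κ H T) {L : ℕ} {z : Alt n}
    (hz : z ∈ Bl x L) (h1 : H < sp z) (h2 : sp z ≤ (1 / 2 - κ) * n) (j : ℕ) :
    Done x H (4 ^ j * (L + 2 * T)) ∨ ∃ z', ∃ L', z' ∈ Bl x L' ∧ L' + 2 * T ≤ 4 ^ j * (L + 2 * T) ∧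
      H < sp z' ∧ sp z' ≤ (1 / 2 - κ) * n ∧ sp z' ≤ (1 - κ / 6) ^ j * n := by
  have hκ := hg.hκ
  have hκ2 := hg.hκ2
  induction j with
  | zero =>
    right
    refine ⟨z, L, hz, by simp, h1, h2, ?_⟩
    have : (0 : ℝ) ≤ n := Nat.cast_nonneg _
    simp only [pow_zero, one_mul]
    nlinarith
  | succ j ih =>
    rcases ih with ih | ⟨z', L', b1, b2, b3, b4, b5⟩
    · left
      refine ih.mono ?_
      rw [pow_succ]
      nlinarith [Nat.zero_le (4 ^ j * (L + 2 * T))]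
    · have hL : 4 * L' + 4 * T + 2 * T ≤ 4 ^ (j + 1) * (L + 2 * T) := by
        rw [pow_succ]
        nlinarith
      rcases hg.step b1 b3 b4 with c | ⟨z'', c1, c2, c3, c4⟩
      · left
        exact c.mono (by omega)
      · right
        refine ⟨z'', _, c1, hL, c2, ?_, ?_⟩
        · have := sp_nonneg z'
          nlinarith
        · calc sp z'' ≤ (1 - κ / 6) * sp z' := c3
            _ ≤ (1 - κ / 6) * ((1 - κ / 6) ^ j * n) := by
              apply mul_le_mul_of_nonneg_left b5 (by linarith)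
            _ = _ := by ring

lemma Good.phase2 {x : Fin k → Alt n} {κ H : ℝ} {T : ℕ} (hg : Good x κ H T) {L : ℕ} {z : Alt n}
    (hz : z ∈ Bl x L) (h1 : H < sp z) (h2 : sp z ≤ (1 / 2 - κ) * n) (h3 : sp z ≤ 1 / 20 * n)
    (j : ℕ) :
    Done x H (4 ^ j * (L + 2 * T)) ∨ ∃ z', ∃ L', z' ∈ Bl x L' ∧ L' + 2 * T ≤ 4 ^ j * (L + 2 * T) ∧
      H < sp z' ∧ sp z' ≤ (1 / 2 - κ) * n ∧ 10 * sp z' ≤ (1 / 2) ^ (2 ^ j) * n := by
  have hκ := hg.hκ
  have hκ2 := hg.hκ2
  have hn0 : (0 : ℝ) < n := by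
    have := hg.hn
    by_contra hcon
    push Not at hcon
    nlinarith
  induction j with
  | zero =>
    right
    refine ⟨z, L, hz, by simp, h1, h2, ?_⟩
    simp only [pow_zero, pow_one]
    linarith
  | succ j ih =>
    rcases ih with ih | ⟨z', L', b1, b2, b3, b4, b5⟩
    · left
      refine ih.mono ?_
      rw [pow_succ]
      nlinarith [Nat.zero_le (4 ^ j * (L + 2 * T))]
    · have hL : 4 * L' + 4 * T + 2 * T ≤ 4 ^ (j + 1) * (L + 2 * T) := by
        rw [pow_succ]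
        nlinarith
      rcases hg.step b1 b3 b4 with c | ⟨z'', c1, c2, c3, c4⟩
      · left
        exact c.mono (by omega)
      · right
        refine ⟨z'', _, c1, hL, c2, ?_, ?_⟩
        · have := sp_nonneg z'
          nlinarith
        · have h5 : 10 * sp z'' * n ≤ ((1 / 2) ^ (2 ^ (j + 1)) * n) * n := by
            calc 10 * sp z'' * n = 10 * (sp z'' * n) := by ring
              _ ≤ 10 * (10 * sp z' ^ 2) := by linarith
              _ = (10 * sp z') ^ 2 := by ring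
              _ ≤ ((1 / 2) ^ (2 ^ j) * n) ^ 2 := by
                have := sp_nonneg z'
                gcongr
              _ = _ := by
                have h6 : (1 / 2 : ℝ) ^ (2 ^ (j + 1)) = ((1 / 2) ^ (2 ^ j)) ^ 2 := by
                  rw [pow_succ 2 j, pow_mul]
                rw [h6]; ring
          exact le_of_mul_le_mul_right h5 hn0

lemma loglog (n : ℕ) (hn : 3 ≤ n) : ∃ i : ℕ, (n : ℝ) ≤ 2 ^ (2 ^ i) ∧
    (4 : ℝ) ^ i ≤ 36 * Real.log n ^ 2 := by
  have hlog : 1 ≤ Real.log n := by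
    rw [Real.le_log_iff_exp_le (by positivity)]
    have h1 : Real.exp 1 < 2.7182818286 := Real.exp_one_lt_d9
    have h2 : (3 : ℝ) ≤ n := by exact_mod_cast hn
    linarith
  set c : ℕ := Nat.clog 2 n with hc
  have hc1 : (c : ℝ) ≤ 3 * Real.log n := by
    have h1 : 2 ^ (c - 1) < n := by
      have := Nat.pow_pred_clog_lt_self (b := 2) (by norm_num) (show 1 < n by omega)
      simpa [hc] using this
    have h2 : ((c - 1 : ℕ) : ℝ) * Real.log 2 ≤ Real.log n := by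
      rw [← Real.log_pow]
      apply Real.log_le_log (by positivity)
      exact_mod_cast h1.le
    have h3 : 0.6931471803 < Real.log 2 := Real.log_two_gt_d9
    have h4 : (c : ℝ) ≤ ((c - 1 : ℕ) : ℝ) + 1 := by
      have : c ≤ (c - 1) + 1 := by omega
      exact_mod_cast this
    have h5 : (0 : ℝ) ≤ ((c - 1 : ℕ) : ℝ) := Nat.cast_nonneg _
    nlinarith
  have hcn : n ≤ 2 ^ c := Nat.le_pow_clog (by norm_num) n
  have hc0 : 1 < c := by
    by_contra hcon
    have : c ≤ 1 := by omega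
    have h6 : 2 ^ c ≤ 2 ^ 1 := Nat.pow_le_pow_right (by norm_num) this
    omega
  refine ⟨Nat.clog 2 c, ?_, ?_⟩
  · have h1 : c ≤ 2 ^ (Nat.clog 2 c) := Nat.le_pow_clog (by norm_num) c
    have h2 : n ≤ 2 ^ (2 ^ (Nat.clog 2 c)) := hcn.trans (Nat.pow_le_pow_right (by norm_num) h1)
    exact_mod_cast h2
  · have h1 : 2 ^ (Nat.clog 2 c - 1) < c := by
      have := Nat.pow_pred_clog_lt_self (b := 2) (by norm_num) hc0
      simpa using this
    have hpos : 0 < Nat.clog 2 c := Nat.clog_pos (by norm_num) (by omega)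
    have h2 : (2 : ℝ) ^ (Nat.clog 2 c) ≤ 2 * c := by
      have h3 : 2 ^ (Nat.clog 2 c) = 2 * 2 ^ (Nat.clog 2 c - 1) := by
        rw [← pow_succ']
        congr 1
        omega
      have h4 : 2 ^ (Nat.clog 2 c) ≤ 2 * c := by omega
      exact_mod_cast h4
    calc (4 : ℝ) ^ (Nat.clog 2 c) = ((2 : ℝ) ^ (Nat.clog 2 c)) ^ 2 := by
          rw [← pow_mul, mul_comm, pow_mul]; norm_num
      _ ≤ (2 * (3 * Real.log n)) ^ 2 := by
          gcongr
          exact h2.trans (by linarith)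
      _ = _ := by ring

/-- the whole iteration -/
theorem shrink {κ : ℝ} (hκ : 0 < κ) (hκ2 : κ ≤ 1 / 2) : ∃ C : ℝ, 0 < C ∧ ∀ (n k : ℕ)
    (x : Fin k → Alt n) (H : ℝ) (T L : ℕ), Good x κ H T → ∀ z ∈ Bl x L, H < sp z →
    sp z ≤ (1 / 2 - κ) * n →
    ∃ L' : ℕ, (L' : ℝ) ≤ C * Real.log n ^ 2 * (L + 2 * T) ∧ Done x H L' := by
  obtain ⟨j, hj⟩ := exists_pow_lt_of_lt_one (show (0 : ℝ) < 1 / 20 by norm_num)
    (show 1 - κ / 6 < 1 by linarith)
  refine ⟨36 * 4 ^ j, by positivity, ?_⟩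
  intro n k x H T L hg z hz h1 h2
  have hn0 : (0 : ℝ) ≤ n := Nat.cast_nonneg _
  have hn3 : 3 ≤ n := by
    have := hg.hn
    have h3 : (3 : ℝ) ≤ n := by nlinarith
    exact_mod_cast h3
  obtain ⟨i, hi1, hi2⟩ := loglog n hn3
  refine ⟨4 ^ i * (4 ^ j * (L + 2 * T)), ?_, ?_⟩
  · push_cast
    have : (0 : ℝ) ≤ (L + 2 * T : ℝ) := by positivity
    calc (4 : ℝ) ^ i * (4 ^ j * (L + 2 * T)) ≤ (36 * Real.log n ^ 2) * (4 ^ j * (L + 2 * T)) := by
          gcongr
      _ = _ := by ring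
  · rcases hg.phase1 hz h1 h2 j with c | ⟨z', L', b1, b2, b3, b4, b5⟩
    · refine c.mono ?_
      exact Nat.le_mul_of_pos_left _ (by positivity)
    · have b6 : sp z' ≤ 1 / 20 * n := b5.trans (by gcongr)
      rcases hg.phase2 b1 b3 b4 b6 i with c | ⟨z'', L'', c1, c2, c3, c4, c5⟩
      · exact c.mono (Nat.mul_le_mul_left _ b2)
      · exfalso
        have h5 : (1 / 2 : ℝ) ^ (2 ^ i) * n ≤ 1 := by
          rw [one_div, inv_pow, inv_mul_le_iff₀ (by positivity), mul_one]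
          exact hi1
        have := hg.hH0
        linarith

end

end Run7.h624.DM
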