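import Pool.Agent.Run7.h624.DM.Second

/-!
For most permutations `w` there is a member `g` of a mixing family such that a power of `g w` moves
between `κ n / 2` and `(1/2 - κ) n` points.
-/

namespace Run7.h624.DM
open RC14 Finset Equiv

noncomputable section

variable {n : ℕ}

/-- some power `u ^ l`, `l ≤ n`, moves between `κ n / 2` and `(1/2 - κ) n` points -/
def Gd (κ : ℝ) (u : Perm (Fin n)) : Prop :=
  ∃ l ≤ n, κ / 2 * n ≤ (#(u ^ l).support : ℝ) ∧ (#(u ^ l).support : ℝ) ≤ (1 / 2 - κ) * n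

/-- a cycle of length about `n / 2` -/
def Mid (lam κ : ℝ) (u : Perm (Fin n)) : Prop :=
  ∃ b, (1 / 2 - lam) * n < cyl u b ∧ (cyl u b : ℝ) ≤ (1 / 2 + κ) * n

/-- a cycle of length almost `n` -/
def Lng (κ : ℝ) (u : Perm (Fin n)) : Prop := ∃ b, (1 - κ) * n < cyl u b

/-- the points in other cycles whose length divides the length of the cycle of `b` -/
def dvc (u : Perm (Fin n)) (b : Fin n) : ℕ := #{p | cyl u p ∣ cyl u b ∧ ¬ u.SameCycle b p}

/-- many points in cycles whose length divides the length of a long cycle -/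
def Dvd (κ : ℝ) (u : Perm (Fin n)) : Prop :=
  ∃ b, 1 / 2 * n < (cyl u b : ℝ) ∧ κ / 2 * n < dvc u b

lemma card_supp_pow (u : Perm (Fin n)) (b : Fin n) :
    #(u ^ cyl u b).support + cyl u b + dvc u b = n := by
  have h1 : (u ^ cyl u b).support = ({p | ¬ cyl u p ∣ cyl u b} : Finset (Fin n)) := by
    ext p
    rw [Perm.mem_support, mem_filter, ne_eq, pow_fix]
    simp
  have h2 : ({p | cyl u p ∣ cyl u b} : Finset (Fin n)) =
      ({p | u.SameCycle b p} : Finset (Fin n)) ∪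
      ({p | cyl u p ∣ cyl u b ∧ ¬ u.SameCycle b p} : Finset (Fin n)) := by
    ext p
    simp only [mem_filter, mem_univ, true_and, mem_union]
    constructor
    · intro h
      by_cases h' : u.SameCycle b p
      · exact Or.inl h'
      · exact Or.inr ⟨h, h'⟩
    · rintro (h | h)
      · rw [cyl_congr h]
      · exact h.1
  have h3 : Disjoint ({p | u.SameCycle b p} : Finset (Fin n))
      ({p | cyl u p ∣ cyl u b ∧ ¬ u.SameCycle b p} : Finset (Fin n)) := by
    rw [disjoint_left]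
    intro p hp hp'
    exact (mem_filter.1 hp').2.2 (mem_filter.1 hp).2
  have h4 := card_filter_add_card_filter_not (s := (univ : Finset (Fin n)))
    (fun p => cyl u p ∣ cyl u b)
  rw [h2, card_union_of_disjoint h3, card_univ, Fintype.card_fin] at h4
  rw [h1]
  unfold dvc
  have h5 : cyl u b = #{p | u.SameCycle b p} := rfl
  omega

/-- a cycle of the right length gives a good power -/
lemma Gd_of {κ : ℝ} {u : Perm (Fin n)} (h1 : ¬ Lng κ u) (h2 : ¬ Dvd κ u) (hκ : 0 < κ) {b : Fin n}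
    (hb : (1 / 2 + κ) * n < cyl u b) : Gd κ u := by
  have hn : (0 : ℝ) < n := by exact_mod_cast b.pos
  refine ⟨cyl u b, cyl_le u b, ?_⟩
  have h3 := card_supp_pow u b
  have h4 : (#(u ^ cyl u b).support : ℝ) + cyl u b + dvc u b = n := by exact_mod_cast h3
  have h5 : (cyl u b : ℝ) ≤ (1 - κ) * n := by
    by_contra hc
    push Not at hc
    exact h1 ⟨b, hc⟩
  have h6 : (dvc u b : ℝ) ≤ κ / 2 * n := by
    by_contra hc
    push Not at hc
    refine h2 ⟨b, ?_, hc⟩
    have : 0 < κ * n := by positivity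
    linarith
  have h7 : (0 : ℝ) ≤ dvc u b := Nat.cast_nonneg _
  constructor <;> linarith

lemma cnt_eq (u : Perm (Fin n)) : cnt u = ∑ b, cyl u b := by
  unfold cnt cyl
  simp only [card_filter, Fintype.sum_prod_type]

lemma cnt_le_of {c : ℝ} {u : Perm (Fin n)} (h : ∀ b, (cyl u b : ℝ) ≤ c * n) :
    (cnt u : ℝ) ≤ c * n ^ 2 := by
  rw [cnt_eq]
  push_cast
  calc ∑ b, (cyl u b : ℝ) ≤ ∑ _b : Fin n, c * n := sum_le_sum fun b _ => h b
    _ = _ := by rw [sum_const, card_univ, Fintype.card_fin, nsmul_eq_mul]; ring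

open Classical in
/-- pointwise bound of the number of pairs in the same cycle -/
lemma cnt_le {lam κ : ℝ} (hlam : 0 ≤ lam) (hlam2 : lam ≤ 1 / 4) (hκ : 0 < κ) (u : Perm (Fin n))
    (h : ¬ Gd κ u) :
    (cnt u : ℝ) ≤ ((1 / 2 - lam) + (lam + κ) * (if Mid lam κ u then 1 else 0) +
      ((if Lng κ u then 1 else 0) + if Dvd κ u then 1 else 0)) * n ^ 2 := by
  have h0 : ∀ b, (cyl u b : ℝ) ≤ 1 * n := fun b => by
    rw [one_mul]; exact_mod_cast cyl_le u b
  have hm : (0 : ℝ) ≤ (lam + κ) * (if Mid lam κ u then 1 else 0) := by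
    apply mul_nonneg (by linarith)
    split_ifs <;> norm_num
  by_cases h1 : Lng κ u
  · refine (cnt_le_of h0).trans ?_
    rw [if_pos h1]
    have : (0 : ℝ) ≤ if Dvd κ u then 1 else 0 := by split_ifs <;> norm_num
    gcongr
    linarith
  by_cases h2 : Dvd κ u
  · refine (cnt_le_of h0).trans ?_
    rw [if_neg h1, if_pos h2]
    gcongr
    linarith
  rw [if_neg h1, if_neg h2, add_zero, add_zero]
  have key : ∀ b, (cyl u b : ℝ) ≤ (1 / 2 + κ) * n := by
    intro b
    by_contra hc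
    push Not at hc
    exact h (Gd_of h1 h2 hκ hc)
  by_cases h3 : Mid lam κ u
  · rw [if_pos h3]
    refine (cnt_le_of key).trans (le_of_eq ?_)
    ring
  · rw [if_neg h3]
    refine (cnt_le_of (c := 1 / 2 - lam) fun b => ?_).trans (le_of_eq (by ring))
    by_contra hc
    push Not at hc
    exact h3 ⟨b, hc, key b⟩

/-! ### the exceptional events -/

/-- cycles with lengths in a window -/
lemma card_window {a c : ℝ} (ha : 0 ≤ a) (hac : a ≤ c) :
    (#{x : Perm (Fin n) × Fin n | a < cyl x.1 x.2 ∧ (cyl x.1 x.2 : ℝ) ≤ c} : ℝ) ≤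
      (c - a + 1) * n.factorial := by
  set Λ : Finset ℕ := Ioc ⌊a⌋₊ ⌊c⌋₊ with hΛ
  have h0 : 0 ∉ Λ := by rw [hΛ, mem_Ioc]; omega
  have h1 := card_cyl_set (n := n) Λ h0
  have h2 : #{x : Perm (Fin n) × Fin n | a < cyl x.1 x.2 ∧ (cyl x.1 x.2 : ℝ) ≤ c} ≤
      #{x : Perm (Fin n) × Fin n | cyl x.1 x.2 ∈ Λ} := by
    apply card_le_card
    intro x hx
    obtain ⟨-, h3, h4⟩ := mem_filter.1 hx
    rw [mem_filter, hΛ, mem_Ioc]
    exact ⟨mem_univ _, (Nat.floor_lt ha).2 h3, Nat.le_floor h4⟩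
  have h3 : (#Λ : ℝ) ≤ c - a + 1 := by
    rw [hΛ, Nat.card_Ioc, Nat.cast_sub (Nat.floor_le_floor hac)]
    have h4 := Nat.floor_le (ha.trans hac)
    have h5 := Nat.lt_floor_add_one a
    linarith
  calc (#{x : Perm (Fin n) × Fin n | a < cyl x.1 x.2 ∧ (cyl x.1 x.2 : ℝ) ≤ c} : ℝ)
      ≤ ((#Λ * n.factorial : ℕ) : ℝ) := by exact_mod_cast h2.trans h1
    _ = #Λ * n.factorial := by push_cast; ring
    _ ≤ _ := by gcongr

open Classical in
/-- permutations with a cycle with length in a window -/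
lemma card_window' {a c : ℝ} (ha : 0 < a) (hac : a ≤ c) :
    a * (#{u : Perm (Fin n) | ∃ b, a < cyl u b ∧ (cyl u b : ℝ) ≤ c} : ℝ) ≤
      (c - a + 1) * n.factorial := by
  refine le_trans ?_ (card_window ha.le hac)
  have h1 : (#{x : Perm (Fin n) × Fin n | a < cyl x.1 x.2 ∧ (cyl x.1 x.2 : ℝ) ≤ c} : ℝ) =
      ∑ u : Perm (Fin n), (#{b | a < cyl u b ∧ (cyl u b : ℝ) ≤ c} : ℝ) := by
    simp only [card_filter, Fintype.sum_prod_type]
    push_cast
    rfl
  rw [h1]
  calc a * (#{u : Perm (Fin n) | ∃ b, a < cyl u b ∧ (cyl u b : ℝ) ≤ c} : ℝ)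
      = ∑ u ∈ {u : Perm (Fin n) | ∃ b, a < cyl u b ∧ (cyl u b : ℝ) ≤ c}, a := by
        rw [sum_const, nsmul_eq_mul, mul_comm]
    _ ≤ ∑ u ∈ {u : Perm (Fin n) | ∃ b, a < cyl u b ∧ (cyl u b : ℝ) ≤ c},
        (#{b | a < cyl u b ∧ (cyl u b : ℝ) ≤ c} : ℝ) := by
        refine sum_le_sum fun u hu => ?_
        obtain ⟨-, b, hb1, hb2⟩ := mem_filter.1 hu
        have h2 : cyl u b ≤ #{b | a < cyl u b ∧ (cyl u b : ℝ) ≤ c} := by
          unfold cyl
          apply card_le_card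
          intro p hp
          have hp' := (mem_filter.1 hp).2
          rw [mem_filter]
          have h3 : (#{q | u.SameCycle p q} : ℝ) = cyl u b := by
            rw [cyl_congr hp']; rfl
          rw [h3]
          exact ⟨mem_univ _, hb1, hb2⟩
        have h3 : (cyl u b : ℝ) ≤ #{b | a < cyl u b ∧ (cyl u b : ℝ) ≤ c} := by exact_mod_cast h2
        linarith
    _ ≤ _ := sum_le_sum_of_subset_of_nonneg (filter_subset _ _) (fun _ _ _ => Nat.cast_nonneg _)

/-- the number of pairs with divisibility -/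
lemma card_div (n : ℕ) : (#{x ∈ range n ×ˢ range n | x.2 + 1 ∣ x.1 + 1} : ℝ) ≤
    n * (1 + Real.log n) := by
  have h1 : #{x ∈ range n ×ˢ range n | x.2 + 1 ∣ x.1 + 1} = ∑ j ∈ range n, n / (j + 1) := by
    rw [card_filter, sum_product_right]
    refine sum_congr rfl fun j _ => ?_
    rw [← card_filter]
    exact Nat.card_multiples n (j + 1)
  rw [h1]
  push_cast
  calc ∑ j ∈ range n, ((n / (j + 1) : ℕ) : ℝ) ≤ ∑ j ∈ range n, (n : ℝ) * ((j : ℝ) + 1)⁻¹ := by
        refine sum_le_sum fun j _ => ?_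
        refine Nat.cast_div_le.trans (le_of_eq ?_)
        push_cast
        rw [div_eq_mul_inv]
    _ = n * ((harmonic n : ℚ) : ℝ) := by
        rw [← mul_sum]
        congr 1
        unfold harmonic
        push_cast
        rfl
    _ ≤ _ := by
        gcongr
        exact harmonic_le_one_add_log n

lemma sum_dvc : (∑ u : Perm (Fin n), ∑ b, (dvc u b : ℝ)) ≤
    n * (1 + Real.log n) * n.factorial := by
  classical
  have h1 : ∑ u : Perm (Fin n), ∑ b, dvc u b =
      #{x : Perm (Fin n) × Fin n × Fin n | cyl x.1 x.2.2 ∣ cyl x.1 x.2.1 ∧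
        ¬ x.1.SameCycle x.2.1 x.2.2} := by
    unfold dvc
    simp only [card_filter, Fintype.sum_prod_type]
  have h2 : ({x : Perm (Fin n) × Fin n × Fin n | cyl x.1 x.2.2 ∣ cyl x.1 x.2.1 ∧
        ¬ x.1.SameCycle x.2.1 x.2.2} : Finset _) ⊆
      ({x ∈ range n ×ˢ range n | x.2 + 1 ∣ x.1 + 1} : Finset (ℕ × ℕ)).biUnion
        (fun s => {x : Perm (Fin n) × Fin n × Fin n | cyl x.1 x.2.1 = s.1 + 1 ∧
          cyl x.1 x.2.2 = s.2 + 1 ∧ ¬ x.1.SameCycle x.2.1 x.2.2}) := by
    intro x hx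
    obtain ⟨-, h3, h4⟩ := mem_filter.1 hx
    rw [mem_biUnion]
    have a1 := cyl_pos x.1 x.2.1
    have a2 := cyl_le x.1 x.2.1
    have a3 := cyl_pos x.1 x.2.2
    have a4 := cyl_le x.1 x.2.2
    refine ⟨(cyl x.1 x.2.1 - 1, cyl x.1 x.2.2 - 1), ?_, ?_⟩
    · rw [mem_filter, mem_product, mem_range, mem_range]
      refine ⟨⟨by omega, by omega⟩, ?_⟩
      show cyl x.1 x.2.2 - 1 + 1 ∣ cyl x.1 x.2.1 - 1 + 1
      rw [Nat.sub_add_cancel a1, Nat.sub_add_cancel a3]
      exact h3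
    · rw [mem_filter]
      refine ⟨mem_univ _, ?_, ?_, h4⟩
      · show cyl x.1 x.2.1 = cyl x.1 x.2.1 - 1 + 1
        omega
      · show cyl x.1 x.2.2 = cyl x.1 x.2.2 - 1 + 1
        omega
  have h3 := (card_le_card h2).trans card_biUnion_le
  have h4 : ∑ s ∈ ({x ∈ range n ×ˢ range n | x.2 + 1 ∣ x.1 + 1} : Finset (ℕ × ℕ)),
      #{x : Perm (Fin n) × Fin n × Fin n | cyl x.1 x.2.1 = s.1 + 1 ∧
          cyl x.1 x.2.2 = s.2 + 1 ∧ ¬ x.1.SameCycle x.2.1 x.2.2} ≤
      #{x ∈ range n ×ˢ range n | x.2 + 1 ∣ x.1 + 1} * n.factorial := by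
    rw [← smul_eq_mul, ← sum_const]
    exact sum_le_sum fun s _ => card_cyl2 s.1 s.2
  calc (∑ u : Perm (Fin n), ∑ b, (dvc u b : ℝ))
      = ((∑ u : Perm (Fin n), ∑ b, dvc u b : ℕ) : ℝ) := by push_cast; rfl
    _ ≤ ((#{x ∈ range n ×ˢ range n | x.2 + 1 ∣ x.1 + 1} * n.factorial : ℕ) : ℝ) := by
        rw [h1]
        exact_mod_cast h3.trans h4
    _ = (#{x ∈ range n ×ˢ range n | x.2 + 1 ∣ x.1 + 1} : ℝ) * n.factorial := by push_cast; ring
    _ ≤ _ := by
        gcongr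
        exact card_div n

lemma dvc_congr {u : Perm (Fin n)} {b c : Fin n} (h : u.SameCycle b c) : dvc u b = dvc u c := by
  unfold dvc
  congr 1
  ext p
  simp only [mem_filter, mem_univ, true_and, cyl_congr h]
  constructor
  · exact fun h' => ⟨h'.1, fun h'' => h'.2 (h.trans h'')⟩
  · exact fun h' => ⟨h'.1, fun h'' => h'.2 (h.symm.trans h'')⟩

open Classical in
lemma card_Dvd {κ : ℝ} (hκ : 0 < κ) :
    (1 / 2 * n) * (κ / 2 * n) * (#{u : Perm (Fin n) | Dvd κ u} : ℝ) ≤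
      n * (1 + Real.log n) * n.factorial := by
  refine le_trans ?_ sum_dvc
  have hn : (0 : ℝ) ≤ n := Nat.cast_nonneg n
  calc (1 / 2 * n) * (κ / 2 * n) * (#{u : Perm (Fin n) | Dvd κ u} : ℝ)
      = ∑ u ∈ {u : Perm (Fin n) | Dvd κ u}, (1 / 2 * n) * (κ / 2 * n) := by
        rw [sum_const, nsmul_eq_mul, mul_comm]
    _ ≤ ∑ u ∈ {u : Perm (Fin n) | Dvd κ u}, ∑ b, (dvc u b : ℝ) := by
        refine sum_le_sum fun u hu => ?_
        obtain ⟨-, b, hb1, hb2⟩ := mem_filter.1 hu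
        calc (1 / 2 * n) * (κ / 2 * n) ≤ (cyl u b : ℝ) * dvc u b := by
              apply mul_le_mul hb1.le hb2.le (by positivity) (Nat.cast_nonneg _)
          _ = ∑ p ∈ {p | u.SameCycle b p}, (dvc u b : ℝ) := by
              rw [sum_const, nsmul_eq_mul]; rfl
          _ = ∑ p ∈ {p | u.SameCycle b p}, (dvc u p : ℝ) := by
              refine sum_congr rfl fun p hp => ?_
              rw [dvc_congr (mem_filter.1 hp).2]
          _ ≤ _ := sum_le_sum_of_subset_of_nonneg (filter_subset _ _)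
              (fun _ _ _ => Nat.cast_nonneg _)
    _ ≤ _ := sum_le_sum_of_subset_of_nonneg (filter_subset _ _)
        (fun _ _ _ => sum_nonneg fun _ _ => Nat.cast_nonneg _)

/-! ### Markov -/

section Markov

variable {K : Type} [Fintype K]

open Classical in
/-- Markov's inequality for an event and the translates `g w` -/
lemma markov (g : K → Perm (Fin n)) (E : Perm (Fin n) → Prop) (c : ℝ) :
    c * Fintype.card K * (#{w : Perm (Fin n) | c * Fintype.card K < #{κ | E (g κ * w)}} : ℝ) ≤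
      Fintype.card K * #{u : Perm (Fin n) | E u} := by
  have h1 : ∀ κ, #{w : Perm (Fin n) | E (g κ * w)} = #{u : Perm (Fin n) | E u} := by
    intro κ
    refine card_bij (fun w _ => g κ * w) ?_ (fun w _ w' _ h => mul_left_cancel h) ?_
    · intro w hw
      rw [mem_filter] at hw ⊢
      exact ⟨mem_univ _, hw.2⟩
    · intro u hu
      rw [mem_filter] at hu
      refine ⟨(g κ)⁻¹ * u, ?_, by simp⟩
      rw [mem_filter]
      refine ⟨mem_univ _, ?_⟩
      simpa using hu.2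
  have h2 : ∑ w : Perm (Fin n), (#{κ | E (g κ * w)} : ℝ) =
      Fintype.card K * #{u : Perm (Fin n) | E u} := by
    have h3 : ∑ w : Perm (Fin n), #{κ | E (g κ * w)} = ∑ κ, #{w : Perm (Fin n) | E (g κ * w)} := by
      simp only [card_filter]
      rw [sum_comm]
    simp_rw [h1] at h3
    rw [sum_const, card_univ, smul_eq_mul] at h3
    exact_mod_cast h3
  rw [← h2]
  calc c * Fintype.card K * (#{w : Perm (Fin n) | c * Fintype.card K < #{κ | E (g κ * w)}} : ℝ)
      = ∑ w ∈ {w : Perm (Fin n) | c * Fintype.card K < #{κ | E (g κ * w)}},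
          c * Fintype.card K := by rw [sum_const, nsmul_eq_mul, mul_comm]
    _ ≤ ∑ w ∈ {w : Perm (Fin n) | c * Fintype.card K < #{κ | E (g κ * w)}},
        (#{κ | E (g κ * w)} : ℝ) := sum_le_sum fun w hw => (mem_filter.1 hw).2.le
    _ ≤ _ := sum_le_sum_of_subset_of_nonneg (filter_subset _ _) (fun _ _ _ => Nat.cast_nonneg _)

/-- the sum of the numbers of pairs -/
def FF (g : K → Perm (Fin n)) (w : Perm (Fin n)) : ℝ := ∑ κ, (cnt (g κ * w) : ℝ)

lemma sum_FF (g : K → Perm (Fin n)) :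
    ∑ w, FF g w = Fintype.card K * (n.factorial * (n ^ 2 + n) / 2) := by
  unfold FF
  rw [sum_comm]
  have h1 : ∀ κ, ∑ w : Perm (Fin n), (cnt (g κ * w) : ℝ) = ∑ u : Perm (Fin n), (cnt u : ℝ) :=
    fun κ => Equiv.sum_comp (Equiv.mulLeft (g κ)) (fun u => (cnt u : ℝ))
  have h2 : 2 * ∑ u : Perm (Fin n), (cnt u : ℝ) = n.factorial * (n ^ 2 + n) := by
    exact_mod_cast sum_cnt (n := n)
  simp_rw [h1]
  rw [sum_const, card_univ, nsmul_eq_mul]
  congr 1
  linarith

lemma sum_FF_sq (g : K → Perm (Fin n)) (B : ℝ)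
    (h : ∀ κ0, ∑ κ, ∑ u : Perm (Fin n), (cnt u * cnt (g κ * (g κ0)⁻¹ * u) : ℝ) ≤ B) :
    ∑ w, FF g w ^ 2 ≤ Fintype.card K * B := by
  have h1 : ∑ w, FF g w ^ 2 = ∑ κ0, ∑ κ, ∑ w : Perm (Fin n),
      (cnt (g κ0 * w) * cnt (g κ * w) : ℝ) := by
    unfold FF
    simp_rw [sq, sum_mul_sum]
    rw [sum_comm]
    refine sum_congr rfl fun κ0 _ => ?_
    rw [sum_comm]
  have h2 : ∀ κ0 κ, ∑ w : Perm (Fin n), (cnt (g κ0 * w) * cnt (g κ * w) : ℝ) =
      ∑ u : Perm (Fin n), (cnt u * cnt (g κ * (g κ0)⁻¹ * u) : ℝ) := by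
    intro κ0 κ
    have h3 := Equiv.sum_comp (Equiv.mulLeft (g κ0))
      (fun u : Perm (Fin n) => (cnt u * cnt (g κ * (g κ0)⁻¹ * u) : ℝ))
    rw [← h3]
    refine sum_congr rfl fun w _ => ?_
    simp [mul_assoc]
  rw [h1]
  simp_rw [h2]
  calc _ ≤ ∑ _κ0 : K, B := sum_le_sum fun κ0 _ => h κ0
    _ = _ := by rw [sum_const, card_univ, nsmul_eq_mul]

open Classical in
/-- Chebyshev's inequality -/
lemma cheb (g : K → Perm (Fin n)) (η lam : ℝ)
    (h : ∀ κ0, ∑ κ, ∑ u : Perm (Fin n), (cnt u * cnt (g κ * (g κ0)⁻¹ * u) : ℝ) ≤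
      Fintype.card K * n.factorial * n ^ 4 * (1 / 4 + η)) (hlam : 0 < lam) :
    (lam * n ^ 2 * Fintype.card K) ^ 2 * (#{w : Perm (Fin n) | FF g w <
        (1 / 2 - lam) * n ^ 2 * Fintype.card K} : ℝ) ≤
      (Fintype.card K : ℝ) ^ 2 * n.factorial * n ^ 4 * η := by
  set m : ℝ := n ^ 2 * Fintype.card K / 2 with hm
  have h1 : ∑ w : Perm (Fin n), (FF g w - m) ^ 2 ≤
      (Fintype.card K : ℝ) ^ 2 * n.factorial * n ^ 4 * η := by
    have h2 : ∀ w : Perm (Fin n), (FF g w - m) ^ 2 = FF g w ^ 2 - 2 * m * FF g w + m ^ 2 :=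
      fun w => by ring
    simp_rw [h2]
    rw [sum_add_distrib, sum_sub_distrib, ← mul_sum, sum_FF, sum_const, card_univ,
      Fintype.card_perm, Fintype.card_fin, nsmul_eq_mul]
    have h3 := sum_FF_sq g _ h
    have h4 : 2 * m * (Fintype.card K * (n.factorial * (n ^ 2 + n) / 2)) ≥
        (Fintype.card K : ℝ) ^ 2 * n.factorial * n ^ 4 / 2 := by
      rw [hm]
      have : (0 : ℝ) ≤ (Fintype.card K : ℝ) ^ 2 * n.factorial * n ^ 3 := by positivity
      nlinarith
    have h5 : (n.factorial : ℝ) * m ^ 2 = (Fintype.card K : ℝ) ^ 2 * n.factorial * n ^ 4 / 4 := by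
      rw [hm]; ring
    rw [h5]
    nlinarith
  refine le_trans ?_ h1
  calc _ = ∑ w ∈ {w : Perm (Fin n) | FF g w < (1 / 2 - lam) * n ^ 2 * Fintype.card K},
        (lam * n ^ 2 * Fintype.card K) ^ 2 := by rw [sum_const, nsmul_eq_mul, mul_comm]
    _ ≤ ∑ w ∈ {w : Perm (Fin n) | FF g w < (1 / 2 - lam) * n ^ 2 * Fintype.card K},
        (FF g w - m) ^ 2 := by
        refine sum_le_sum fun w hw => ?_
        have h2 := (mem_filter.1 hw).2
        have h3 : lam * n ^ 2 * Fintype.card K ≤ m - FF g w := by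
          rw [hm]; linarith
        have h4 : 0 ≤ lam * n ^ 2 * Fintype.card K := by positivity
        calc (lam * n ^ 2 * Fintype.card K) ^ 2 ≤ (m - FF g w) ^ 2 := by gcongr
          _ = _ := by ring
    _ ≤ _ := sum_le_sum_of_subset_of_nonneg (filter_subset _ _) (fun _ _ _ => sq_nonneg _)

open Classical in
/-- outside of the exceptional sets there is a good member of the family -/
lemma exists_Gd (g : K → Perm (Fin n)) [Nonempty K] (w : Perm (Fin n)) {lam κ c : ℝ}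
    (hn : 1 ≤ n) (hlam : 0 < lam) (hlam2 : lam ≤ 1 / 4) (hκ : 0 < κ) (hκ2 : κ ≤ lam / 8)
    (hc : c ≤ lam / 16)
    (h1 : (#{i | Mid lam κ (g i * w)} : ℝ) ≤ 1 / 2 * Fintype.card K)
    (h2 : (#{i | Lng κ (g i * w)} : ℝ) ≤ c * Fintype.card K)
    (h3 : (#{i | Dvd κ (g i * w)} : ℝ) ≤ c * Fintype.card K)
    (h4 : (1 / 2 - lam / 4) * n ^ 2 * Fintype.card K ≤ FF g w) :
    ∃ i, Gd κ (g i * w) := by
  by_contra hcon
  push Not at hcon
  have hK : (0 : ℝ) < Fintype.card K := by exact_mod_cast Fintype.card_pos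
  have hn0 : (0 : ℝ) < n := by exact_mod_cast hn
  have h5 : FF g w ≤ ∑ i, ((1 / 2 - lam) + (lam + κ) * (if Mid lam κ (g i * w) then 1 else 0) +
      ((if Lng κ (g i * w) then 1 else 0) + if Dvd κ (g i * w) then 1 else 0)) * (n : ℝ) ^ 2 :=
    sum_le_sum fun i _ => cnt_le hlam.le hlam2 hκ (g i * w) (hcon i)
  rw [← sum_mul, sum_add_distrib, sum_add_distrib, sum_add_distrib, ← mul_sum, sum_const,
    card_univ, nsmul_eq_mul] at h5
  have e : ∀ E : K → Prop, ∑ i, (if E i then (1 : ℝ) else 0) = #{i | E i} := by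
    intro E
    rw [card_filter]
    push_cast
    rfl
  rw [e, e, e] at h5
  have h6 : (Fintype.card K * (1 / 2 - lam) + (lam + κ) * (#{i | Mid lam κ (g i * w)} : ℝ) +
      ((#{i | Lng κ (g i * w)} : ℝ) + (#{i | Dvd κ (g i * w)} : ℝ))) * (n : ℝ) ^ 2 ≤
      (Fintype.card K * (1 / 2 - lam) + (lam + κ) * (1 / 2 * Fintype.card K) +
      (c * Fintype.card K + c * Fintype.card K)) * (n : ℝ) ^ 2 := by
    gcongr
  have h7 := (h4.trans h5).trans h6
  have h8 : 0 < (n : ℝ) ^ 2 := by positivity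
  have h9 : (1 / 2 - lam / 4) * Fintype.card K ≤ Fintype.card K * (1 / 2 - lam) +
      (lam + κ) * (1 / 2 * Fintype.card K) + (c * Fintype.card K + c * Fintype.card K) := by
    have : ((1 / 2 - lam / 4) * Fintype.card K) * (n : ℝ) ^ 2 ≤ (Fintype.card K * (1 / 2 - lam) +
      (lam + κ) * (1 / 2 * Fintype.card K) + (c * Fintype.card K + c * Fintype.card K)) *
      (n : ℝ) ^ 2 := by
      calc _ = _ := by ring
        _ ≤ _ := h7
    exact le_of_mul_le_mul_right this h8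
  nlinarith

end Markov

lemma log_small {δ : ℝ} (hδ : 0 < δ) {n : ℕ} (hn1 : 1 ≤ n) (hn : 9 / δ ^ 2 ≤ n) :
    1 + Real.log n ≤ δ * n := by
  have hn0 : (0 : ℝ) < n := by exact_mod_cast hn1
  have hs : 0 < Real.sqrt n := Real.sqrt_pos.2 hn0
  have hss : Real.sqrt n * Real.sqrt n = n := Real.mul_self_sqrt hn0.le
  have h1 : Real.log n ≤ 2 * (Real.sqrt n - 1) := by
    have h2 := Real.log_le_sub_one_of_pos hs
    rw [Real.log_sqrt hn0.le] at h2
    linarith
  have h3 : 3 / δ ≤ Real.sqrt n := by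
    apply Real.le_sqrt_of_sq_le
    rw [div_pow]
    norm_num
    exact hn
  rw [div_le_iff₀ hδ] at h3
  nlinarith

/-- most permutations have a good translate -/
theorem long_word (ϑ : ℝ) (h0 : 0 < ϑ) (h1 : ϑ ≤ 1) : ∃ κ : ℝ, 0 < κ ∧ κ ≤ 1 / 4 ∧ ∃ t n0 : ℕ,
    ∀ n ≥ n0, ∀ (K : Type) [Fintype K] [DecidableEq K] [Nonempty K] (g : K → Perm (Fin n)),
    (∀ r ≤ t, Mx r g) →
    ∃ W : Finset (Perm (Fin n)), (#W : ℝ) ≤ ϑ * n.factorial ∧
      ∀ w ∉ W, ∃ i, Gd κ (g i * w) := by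
  classical
  set lam : ℝ := ϑ / 64 with hlam
  set c : ℝ := lam / 16 with hc
  set κ : ℝ := ϑ ^ 2 / 16384 with hκ
  have hlam0 : 0 < lam := by positivity
  have hc0 : 0 < c := by positivity
  have hκ0 : 0 < κ := by positivity
  have hκ1 : κ ≤ lam / 8 := by rw [hκ, hlam]; nlinarith
  set η : ℝ := ϑ * lam ^ 2 / 64 with hη
  have hη0 : 0 < η := by positivity
  have hlam1 : lam ≤ 1 / 64 := by rw [hlam]; linarith
  have hη1 : η ≤ 1 := by
    rw [hη]
    have : lam ^ 2 ≤ 1 := by nlinarith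
    nlinarith
  obtain ⟨t, n1, hn1⟩ := second_moment η hη0 hη1
  set δ : ℝ := ϑ * κ * c / 16 with hδ
  have hδ0 : 0 < δ := by positivity
  obtain ⟨n2, hn2⟩ := exists_nat_ge (9 / δ ^ 2)
  obtain ⟨n3, hn3⟩ := exists_nat_ge (1 / κ)
  refine ⟨κ, hκ0, by linarith, t, max n1 (max n2 (max n3 1)), ?_⟩
  intro n hn K _ _ _ g hg
  have hn1' : n1 ≤ n := le_trans (le_max_left _ _) hn
  have hn2' : n2 ≤ n := le_trans ((le_max_left _ _).trans (le_max_right _ _)) hn
  have hn3' : n3 ≤ n := le_trans ((le_max_left _ _).trans ((le_max_right _ _).trans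
    (le_max_right _ _))) hn
  have hn4 : 1 ≤ n := le_trans ((le_max_right _ _).trans ((le_max_right _ _).trans
    (le_max_right _ _))) hn
  have hnR : (0 : ℝ) < n := by exact_mod_cast hn4
  have hfac : (0 : ℝ) < n.factorial := by exact_mod_cast Nat.factorial_pos n
  have hK : (0 : ℝ) < Fintype.card K := by exact_mod_cast Fintype.card_pos
  have hκn : 1 ≤ κ * n := by
    have h2 : (n3 : ℝ) ≤ n := by exact_mod_cast hn3'
    have h3 := hn3.trans h2
    rw [div_le_iff₀ hκ0] at h3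
    linarith
  have hlog : 1 + Real.log n ≤ δ * n := by
    apply log_small hδ0 hn4
    have h2 : (n2 : ℝ) ≤ n := by exact_mod_cast hn2'
    exact hn2.trans h2
  -- the four exceptional sets
  set W1 : Finset (Perm (Fin n)) :=
    {w | 1 / 2 * (Fintype.card K : ℝ) < #{i | Mid lam κ (g i * w)}} with hW1
  set W2 : Finset (Perm (Fin n)) :=
    {w | c * (Fintype.card K : ℝ) < #{i | Lng κ (g i * w)}} with hW2
  set W3 : Finset (Perm (Fin n)) :=
    {w | c * (Fintype.card K : ℝ) < #{i | Dvd κ (g i * w)}} with hW3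
  set W4 : Finset (Perm (Fin n)) :=
    {w | FF g w < (1 / 2 - lam / 4) * n ^ 2 * Fintype.card K} with hW4
  have b1 : (#W1 : ℝ) ≤ ϑ / 4 * n.factorial := by
    have m1 := markov g (Mid lam κ) (1 / 2)
    have m2 := card_window' (n := n) (a := (1 / 2 - lam) * n) (c := (1 / 2 + κ) * n)
      (by apply mul_pos (by linarith) hnR) (by gcongr; linarith)
    rw [← hW1] at m1
    have m3 : (#W1 : ℝ) ≤ 2 * #{u : Perm (Fin n) | Mid lam κ u} := by
      have : (Fintype.card K : ℝ) * #W1 ≤ Fintype.card K * (2 * #{u : Perm (Fin n) | Mid lam κ u}) := by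
        linarith
      exact le_of_mul_le_mul_left this hK
    have m4 : 1 / 4 * n * (#{u : Perm (Fin n) | Mid lam κ u} : ℝ) ≤
        (ϑ / 32 * n) * n.factorial := by
      refine le_trans ?_ (m2.trans ?_)
      · have : (1 / 4 : ℝ) ≤ 1 / 2 - lam := by linarith
        unfold Mid
        gcongr
      · have : (1 / 2 + κ) * n - (1 / 2 - lam) * n + 1 ≤ ϑ / 32 * (n : ℝ) := by
          have h2 : (1 / 2 + κ) * n - (1 / 2 - lam) * n + 1 ≤ (lam + 2 * κ) * (n : ℝ) := by
            linarith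
          refine h2.trans ?_
          have : lam + 2 * κ ≤ ϑ / 32 := by rw [hlam] at *; linarith
          gcongr
        gcongr
    have m5 : (#{u : Perm (Fin n) | Mid lam κ u} : ℝ) ≤ ϑ / 8 * n.factorial := by
      have : (n : ℝ) * (#{u : Perm (Fin n) | Mid lam κ u} : ℝ) ≤ n * (ϑ / 8 * n.factorial) := by
        linarith
      exact le_of_mul_le_mul_left this hnR
    linarith
  have b2 : (#W2 : ℝ) ≤ ϑ / 4 * n.factorial := by
    have m1 := markov g (Lng κ) c
    have m2 := card_window' (n := n) (a := (1 - κ) * n) (c := n)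
      (by apply mul_pos (by linarith) hnR) (by nlinarith)
    rw [← hW2] at m1
    have m3 : c * (#W2 : ℝ) ≤ #{u : Perm (Fin n) | Lng κ u} := by
      have : (Fintype.card K : ℝ) * (c * #W2) ≤ Fintype.card K * #{u : Perm (Fin n) | Lng κ u} := by
        linarith
      exact le_of_mul_le_mul_left this hK
    have m4 : 1 / 2 * n * (#{u : Perm (Fin n) | Lng κ u} : ℝ) ≤ (2 * κ * n) * n.factorial := by
      refine le_trans ?_ (m2.trans ?_)
      · have h2 : (1 / 2 : ℝ) ≤ 1 - κ := by linarith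
        have h3 : (#{u : Perm (Fin n) | Lng κ u} : ℝ) =
            #{u : Perm (Fin n) | ∃ b, (1 - κ) * n < cyl u b ∧ (cyl u b : ℝ) ≤ n} := by
          congr 2
          ext u
          simp only [mem_filter, mem_univ, true_and]
          constructor
          · rintro ⟨b, hb⟩
            exact ⟨b, hb, by exact_mod_cast cyl_le u b⟩
          · rintro ⟨b, hb, -⟩
            exact ⟨b, hb⟩
        rw [h3]
        gcongr
      · have : (n : ℝ) - (1 - κ) * n + 1 ≤ 2 * κ * n := by linarith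
        gcongr
    have m5 : (#{u : Perm (Fin n) | Lng κ u} : ℝ) ≤ 4 * κ * n.factorial := by
      have : (n : ℝ) * (#{u : Perm (Fin n) | Lng κ u} : ℝ) ≤ n * (4 * κ * n.factorial) := by
        linarith
      exact le_of_mul_le_mul_left this hnR
    have m6 : c * (#W2 : ℝ) ≤ c * (ϑ / 4 * n.factorial) := by
      refine m3.trans (m5.trans (le_of_eq ?_))
      rw [hc, hlam, hκ]
      ring
    exact le_of_mul_le_mul_left m6 hc0
  have b3 : (#W3 : ℝ) ≤ ϑ / 4 * n.factorial := by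
    have m1 := markov g (Dvd κ) c
    have m2 := card_Dvd (n := n) hκ0
    rw [← hW3] at m1
    have m3 : c * (#W3 : ℝ) ≤ #{u : Perm (Fin n) | Dvd κ u} := by
      have : (Fintype.card K : ℝ) * (c * #W3) ≤ Fintype.card K * #{u : Perm (Fin n) | Dvd κ u} := by
        linarith
      exact le_of_mul_le_mul_left this hK
    have m4 : (#{u : Perm (Fin n) | Dvd κ u} : ℝ) ≤ ϑ * c / 4 * n.factorial := by
      have h2 : κ / 4 * n ^ 2 * (#{u : Perm (Fin n) | Dvd κ u} : ℝ) ≤
          κ / 4 * n ^ 2 * (ϑ * c / 4 * n.factorial) := by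
        calc κ / 4 * n ^ 2 * (#{u : Perm (Fin n) | Dvd κ u} : ℝ) =
            (1 / 2 * n) * (κ / 2 * n) * (#{u : Perm (Fin n) | Dvd κ u} : ℝ) := by ring
          _ ≤ n * (1 + Real.log n) * n.factorial := m2
          _ ≤ n * (δ * n) * n.factorial := by gcongr
          _ = _ := by rw [hδ]; ring
      exact le_of_mul_le_mul_left h2 (by positivity)
    have m5 : c * (#W3 : ℝ) ≤ c * (ϑ / 4 * n.factorial) := by
      refine m3.trans (m4.trans (le_of_eq ?_))
      ring
    exact le_of_mul_le_mul_left m5 hc0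
  have b4 : (#W4 : ℝ) ≤ ϑ / 4 * n.factorial := by
    have m1 := cheb g η (lam / 4) (by
      intro κ0
      refine hn1 n hn1' K (fun κ' => g κ' * (g κ0)⁻¹) ?_
      intro r hr a b
      have := hg r hr (mv (g κ0)⁻¹ a) b
      simp only [mv_mul]
      exact this) (by positivity)
    rw [← hW4] at m1
    have h2 : (lam / 4 * n ^ 2 * Fintype.card K) ^ 2 * (#W4 : ℝ) ≤
        (lam / 4 * n ^ 2 * Fintype.card K) ^ 2 * (ϑ / 4 * n.factorial) := by
      refine m1.trans (le_of_eq ?_)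
      rw [hη]
      ring
    exact le_of_mul_le_mul_left h2 (by positivity)
  refine ⟨W1 ∪ W2 ∪ W3 ∪ W4, ?_, ?_⟩
  · have h2 : #(W1 ∪ W2 ∪ W3 ∪ W4) ≤ #W1 + #W2 + #W3 + #W4 := by
      refine (card_union_le _ _).trans ?_
      gcongr
      refine (card_union_le _ _).trans ?_
      gcongr
      exact card_union_le _ _
    have h3 : (#(W1 ∪ W2 ∪ W3 ∪ W4) : ℝ) ≤ #W1 + #W2 + #W3 + #W4 := by exact_mod_cast h2
    linarith
  · intro w hw
    rw [mem_union, mem_union, mem_union] at hw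
    push Not at hw
    obtain ⟨⟨⟨w1, w2⟩, w3⟩, w4⟩ := hw
    rw [hW1, mem_filter] at w1
    rw [hW2, mem_filter] at w2
    rw [hW3, mem_filter] at w3
    rw [hW4, mem_filter] at w4
    push Not at w1 w2 w3 w4
    exact exists_Gd g w hn4 hlam0 (by linarith) hκ0 hκ1 le_rfl (w1 (mem_univ _))
      (w2 (mem_univ _)) (w3 (mem_univ _)) (w4 (mem_univ _))

end

end Run7.h624.DM
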