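import Pool.Agent.Run7.h624.DM.Cyc3

/-!
From one short word with a support of moderate size to all products of disjoint three-cycles.
-/

namespace Run7.h624.DM
open RC14 Finset Equiv

noncomputable section

variable {n : ℕ}

/-- every `r`-tuple, `r ≤ R`, is moved to every `r`-tuple by a word of length at most `T` -/
def Route {k : ℕ} (x : Fin k → Alt n) (R T : ℕ) : Prop :=
  ∀ r ≤ R, ∀ a b : Tup r n, ∃ g ∈ Bl x T, mv (g : Perm (Fin n)) a = b

/-- a word acting as a given permutation on a small set -/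
lemma Route.on_set {k : ℕ} {x : Fin k → Alt n} {R T : ℕ} (h : Route x R T) (U : Finset (Fin n))
    (hU : #U ≤ R) (u : Perm (Fin n)) :
    ∃ g ∈ Bl x T, ∀ p ∈ U, (g : Perm (Fin n)) p = u p := by
  obtain ⟨g, hg, hg'⟩ := h #U hU (U.orderEmbOfFin rfl).toEmbedding
    (mv u (U.orderEmbOfFin rfl).toEmbedding)
  refine ⟨g, hg, fun p hp => ?_⟩
  have h1 : p ∈ Set.range (U.orderEmbOfFin rfl) := by
    rw [range_orderEmbOfFin]; exact hp
  obtain ⟨i, rfl⟩ := h1
  exact congrArg (fun a => a i) hg'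

/-- conjugates depend only on the values on the support -/
lemma conj_eq_of_support (g u z : Perm (Fin n)) (h : ∀ p ∈ z.support, g p = u p) :
    g * z * g⁻¹ = u * z * u⁻¹ := by
  have h1 : Perm.Disjoint (u⁻¹ * g) z := by
    intro p
    by_cases hp : p ∈ z.support
    · left
      rw [Perm.mul_apply, h p hp]; simp
    · right
      exact Perm.notMem_support.1 hp
  have h2 := h1.commute.eq
  have h3 : g * z = u * z * u⁻¹ * g := by
    calc g * z = u * ((u⁻¹ * g) * z) := by group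
      _ = u * (z * (u⁻¹ * g)) := by rw [h2]
      _ = _ := by group
  rw [h3]; group

/-- the commutator of `z` with the product of the transpositions `a_i ↔ b_i` is a product of
three-cycles -/
lemma comm_T3 (z : Perm (Fin n)) {q : ℕ} (e : Fin q × Fin 3 ↪ Fin n)
    (h0 : ∀ i, e (i, 0) ∈ z.support) (h1 : ∀ i, e (i, 1) ∉ z.support)
    (h2 : ∀ i, e (i, 2) = z (e (i, 0))) :
    (flip3 q).viaEmbedding e * z * ((flip3 q).viaEmbedding e)⁻¹ * z⁻¹ = T3 e := by
  set g := (flip3 q).viaEmbedding e with hg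
  have g0 : ∀ i, g (e (i, 0)) = e (i, 1) := fun i => by
    rw [hg, Perm.viaEmbedding_apply]; rfl
  have g1 : ∀ i, g (e (i, 1)) = e (i, 0) := fun i => by
    rw [hg, Perm.viaEmbedding_apply]; rfl
  have g2 : ∀ i, g (e (i, 2)) = e (i, 2) := fun i => by
    rw [hg, Perm.viaEmbedding_apply]; rfl
  have gn : ∀ p, p ∉ Set.range e → g p = p := fun p hp => by
    rw [hg, Perm.viaEmbedding_apply_of_notMem _ _ _ hp]
  have gi0 : ∀ i, g⁻¹ (e (i, 0)) = e (i, 1) := fun i => by rw [Perm.inv_eq_iff_eq, g1]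
  have gi1 : ∀ i, g⁻¹ (e (i, 1)) = e (i, 0) := fun i => by rw [Perm.inv_eq_iff_eq, g0]
  have gi2 : ∀ i, g⁻¹ (e (i, 2)) = e (i, 2) := fun i => by rw [Perm.inv_eq_iff_eq, g2]
  have gin : ∀ p, p ∉ Set.range e → g⁻¹ p = p := fun p hp => by rw [Perm.inv_eq_iff_eq, gn p hp]
  have z1 : ∀ i, z (e (i, 1)) = e (i, 1) := fun i => Perm.notMem_support.1 (h1 i)
  -- the image of `p` under `z g⁻¹ z⁻¹` and so on
  ext p
  congr 1
  simp only [Perm.mul_apply]
  have hz2 : ∀ i, z⁻¹ (e (i, 2)) = e (i, 0) := fun i => by rw [Perm.inv_eq_iff_eq, h2]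
  have hz1 : ∀ i, z⁻¹ (e (i, 1)) = e (i, 1) := fun i => by rw [Perm.inv_eq_iff_eq, z1]
  by_cases hp : p ∈ Set.range e
  · obtain ⟨⟨i, j⟩, rfl⟩ := hp
    fin_cases j
    · change g (z (g⁻¹ (z⁻¹ (e (i, 0))))) = T3 e (e (i, 0))
      rw [T3_0]
      have h3 : g⁻¹ (z⁻¹ (e (i, 0))) = z⁻¹ (e (i, 0)) := by
        by_cases hc : z⁻¹ (e (i, 0)) ∈ Set.range e
        · obtain ⟨⟨i', j'⟩, hij⟩ := hc
          fin_cases j'
          · exfalso
            have h4 : z⁻¹ (e (i, 0)) = e (i', 0) := hij.symm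
            rw [Perm.inv_eq_iff_eq, ← h2] at h4
            have := e.injective h4
            simp at this
          · exfalso
            have h4 : z⁻¹ (e (i, 0)) = e (i', 1) := hij.symm
            rw [Perm.inv_eq_iff_eq, z1] at h4
            have := e.injective h4
            simp at this
          · have h4 : z⁻¹ (e (i, 0)) = e (i', 2) := hij.symm
            rw [h4, gi2]
        · exact gin _ hc
      rw [h3]
      have h5 : z (z⁻¹ (e (i, 0))) = e (i, 0) := by simp
      rw [h5]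
      exact g0 i
    · change g (z (g⁻¹ (z⁻¹ (e (i, 1))))) = T3 e (e (i, 1))
      rw [T3_1, hz1, gi1, ← h2, g2]
    · change g (z (g⁻¹ (z⁻¹ (e (i, 2))))) = T3 e (e (i, 2))
      rw [T3_2, hz2, gi0, z1, g1]
  · rw [T3_not _ _ hp]
    have h3 : g⁻¹ (z⁻¹ p) = z⁻¹ p := by
      by_cases hc : z⁻¹ p ∈ Set.range e
      · obtain ⟨⟨i', j'⟩, hij⟩ := hc
        fin_cases j'
        · exfalso
          have h4 : z⁻¹ p = e (i', 0) := hij.symm
          rw [Perm.inv_eq_iff_eq, ← h2] at h4
          exact hp ⟨_, h4.symm⟩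
        · exfalso
          have h4 : z⁻¹ p = e (i', 1) := hij.symm
          rw [Perm.inv_eq_iff_eq, z1] at h4
          exact hp ⟨_, h4.symm⟩
        · have h4 : z⁻¹ p = e (i', 2) := hij.symm
          rw [h4, gi2]
      · exact gin _ hc
    rw [h3]
    have h5 : z (z⁻¹ p) = p := by simp
    rw [h5]
    exact gn p hp

/-- one short word with support of size `M` gives all products of at most `M / 3` disjoint
three-cycles -/
lemma allT3_of {k : ℕ} {x : Fin k → Alt n} {R T L : ℕ} (hR : Route x R T) (z : Alt n)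
    (hz : z ∈ Bl x L) (hM : #(z : Perm (Fin n)).support ≤ R) (q : ℕ)
    (hq : 3 * q ≤ #(z : Perm (Fin n)).support) (hn : #(z : Perm (Fin n)).support + q ≤ n) :
    AllT3 x q (2 * L + 4 * T) := by
  classical
  intro q' hq' e
  set Z : Perm (Fin n) := (z : Perm (Fin n)) with hZ
  obtain ⟨A, hA, hA1, hA2⟩ := exists_indep Z
  obtain ⟨a, ha⟩ := exists_emb A q' (by omega)
  obtain ⟨b, hb⟩ := exists_emb (Z.support)ᶜ q' (by
    rw [card_compl, Fintype.card_fin]; omega)
  have hb' : ∀ i, b i ∉ Z.support := fun i => mem_compl.1 (hb i)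
  obtain ⟨e0, h0, h1, h2⟩ := exists_emb3 a b (a.trans Z.toEmbedding)
    (fun i j hij => hb' j (by rw [← hij]; exact hA (ha i)))
    (fun i j hij => by
      have hij' : a i = Z (a j) := hij
      exact hA1 (a j) (ha j) (by rw [← hij']; exact ha i))
    (fun i j hij => by
      have hij' : b i = Z (a j) := hij
      exact hb' i (by rw [hij', Perm.apply_mem_support]; exact hA (ha j)))
  have h2' : ∀ i, e0 (i, 2) = Z (e0 (i, 0)) := fun i => by rw [h2, h0]; rfl
  have hcomm := comm_T3 Z e0 (fun i => by rw [h0]; exact hA (ha i)) (fun i => by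
    rw [h1]; exact hb' i) h2'
  obtain ⟨g, hg, hg'⟩ := hR.on_set Z.support hM ((flip3 q').viaEmbedding e0)
  have hconj := conj_eq_of_support (g : Perm (Fin n)) ((flip3 q').viaEmbedding e0) Z hg'
  rw [← hconj] at hcomm
  -- the word for `e0`
  have hw0 : g * z * g⁻¹ * z⁻¹ ∈ Bl x (2 * T + L + L) := Bl_mul x (Bl_conj x hg hz) (Bl_inv x hz)
  -- move to `e`
  let φ : Fin (q' * 3) ≃ Fin q' × Fin 3 := finProdFinEquiv.symm
  obtain ⟨u, hu, hu'⟩ := hR (q' * 3) (by omega) (φ.toEmbedding.trans e0) (φ.toEmbedding.trans e)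
  have hu2 : e0.trans (u : Perm (Fin n)).toEmbedding = e := by
    ext p
    have := congrArg (fun c => c (φ.symm p)) hu'
    simp only [mv_apply, Function.Embedding.trans_apply, Equiv.coe_toEmbedding,
      Equiv.apply_symm_apply] at this
    simp only [Function.Embedding.trans_apply, Equiv.coe_toEmbedding]
    exact congrArg Fin.val this
  refine ⟨u * (g * z * g⁻¹ * z⁻¹) * u⁻¹, ?_, ?_⟩
  · refine Bl_mono x ?_ (Bl_conj x hu hw0)
    omega
  · rw [← hu2, ← conj_T3, ← hcomm]
    simp [hZ]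

end

end Run7.h624.DM
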