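import Pool.Agent.Run7.h624.DM.Gap
import Pool.Agent.Run7.h624.DM.Iter
import Pool.Agent.Run7.h624.DM.Small
import Pool.Agent.Run7.h624.DM.Long

/-!
The deterministic part: a gap on tuples and a good translate give a small diameter.
-/

namespace Run7.h624.DM
open RC14 Finset Equiv Filter Topology

noncomputable section

/-! ### asymptotics -/

lemma ev_log2 {s : ℝ} (hs : 0 < s) (C : ℝ) : ∀ᶠ n : ℕ in atTop,
    C * Real.log n ^ 2 ≤ (n : ℝ) ^ s := by
  have h1 := (isLittleO_log_rpow_rpow_atTop (2 : ℝ) hs).bound (c := 1 / (|C| + 1)) (by positivity)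
  have h2 := tendsto_natCast_atTop_atTop (R := ℝ) |>.eventually h1
  filter_upwards [h2] with n hn
  have h3 : (0 : ℝ) ≤ (n : ℝ) ^ s := by positivity
  rw [Real.norm_of_nonneg h3, Real.rpow_two, Real.norm_of_nonneg (sq_nonneg _), div_mul_eq_mul_div,
    one_mul, le_div_iff₀ (by positivity)] at hn
  have h4 : C ≤ |C| + 1 := (le_abs_self C).trans (by linarith)
  have h5 : 0 ≤ Real.log n ^ 2 := sq_nonneg _
  nlinarith

lemma ev_pow {s : ℝ} (hs : 0 < s) (C : ℝ) : ∀ᶠ n : ℕ in atTop, C ≤ (n : ℝ) ^ s := by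
  have h1 := (tendsto_rpow_atTop hs).comp (tendsto_natCast_atTop_atTop (R := ℝ))
  exact h1.eventually_ge_atTop C

lemma ev_log1 {s : ℝ} (hs : 0 < s) (C : ℝ) : ∀ᶠ n : ℕ in atTop,
    C * Real.log n ≤ (n : ℝ) ^ s := by
  filter_upwards [ev_log2 hs |C|, eventually_ge_atTop 3] with n hn h3
  have hlog : 1 ≤ Real.log n := by
    rw [Real.le_log_iff_exp_le (by positivity)]
    have h1 : Real.exp 1 < 2.7182818286 := Real.exp_one_lt_d9
    have h2 : (3 : ℝ) ≤ n := by exact_mod_cast h3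
    linarith
  have h4 : C * Real.log n ≤ |C| * Real.log n := by
    have := le_abs_self C
    gcongr
  have h5 : |C| * Real.log n ≤ |C| * Real.log n ^ 2 := by
    have := abs_nonneg C
    gcongr
    nlinarith
  linarith

/-- the number of steps used for the mixing of bounded tuples -/
def TT (t : ℕ) (ε : ℝ) (n : ℕ) : ℕ := ⌈8 * ((max t 4 : ℕ) + 2) * Real.log n / ε⌉₊

/-- the numerical conditions on `n` -/
structure Big (s κ ε C : ℝ) (t n : ℕ) : Prop where
  n3 : 3 ≤ n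
  lg : 1 ≤ Real.log n
  b : 4500 ≤ κ * n
  c : 400 ≤ κ * (n : ℝ) ^ (1 - 4 * s)
  e : 2 < κ * (n : ℝ) ^ (2 * s)
  f : ((max t 4 : ℕ) : ℝ) ≤ (n : ℝ) ^ (1 - s)
  g : (TT t ε n : ℝ) ≤ (n : ℝ) ^ s
  h : C * Real.log n ^ 2 ≤ (n : ℝ) ^ s
  i : 16 / ε * Real.log n ≤ (n : ℝ) ^ (2 * s)
  j : 180 ≤ (n : ℝ) ^ (1 - 4 * s)
  k : 25 ≤ (n : ℝ) ^ s

lemma ev_Big {s κ ε : ℝ} (hs : 0 < s) (hs1 : s ≤ 1 / 10) (hκ : 0 < κ) (hε : 0 < ε) (C : ℝ)
    (t : ℕ) : ∀ᶠ n : ℕ in atTop, Big s κ ε C t n := by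
  set C1 : ℝ := 8 * ((max t 4 : ℕ) + 2) / ε with hC1
  have hC10 : 0 < C1 := by positivity
  filter_upwards [eventually_ge_atTop 3, ev_pow (show (0 : ℝ) < 1 by norm_num) (4500 / κ),
    ev_pow (show (0 : ℝ) < 1 - 4 * s by linarith) (400 / κ),
    ev_pow (show (0 : ℝ) < 2 * s by linarith) (3 / κ),
    ev_pow (show (0 : ℝ) < 1 - s by linarith) ((max t 4 : ℕ) : ℝ),
    ev_log1 hs (C1 + 1), ev_log2 hs C, ev_log1 (show (0 : ℝ) < 2 * s by linarith) (16 / ε),
    ev_pow (show (0 : ℝ) < 1 - 4 * s by linarith) 180, ev_pow hs 25]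
    with n h1 h2 h3 h4 h5 h6 h7 h8 h9 h10
  have hlog : 1 ≤ Real.log n := by
    rw [Real.le_log_iff_exp_le (by positivity)]
    have h1' : Real.exp 1 < 2.7182818286 := Real.exp_one_lt_d9
    have h2' : (3 : ℝ) ≤ n := by exact_mod_cast h1
    linarith
  rw [Real.rpow_one, div_le_iff₀ hκ] at h2
  rw [div_le_iff₀ hκ] at h3 h4
  refine ⟨h1, hlog, by linarith, by linarith, by linarith, h5, ?_, h7, h8, h9, h10⟩
  have h11 : (TT t ε n : ℝ) ≤ 8 * ((max t 4 : ℕ) + 2) * Real.log n / ε + 1 := by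
    unfold TT
    exact (Nat.ceil_lt_add_one (by positivity)).le
  have h12 : 8 * ((max t 4 : ℕ) + 2) * Real.log n / ε = C1 * Real.log n := by
    rw [hC1]; ring
  rw [h12] at h11
  linarith

/-- the deterministic theorem -/
theorem det {s κ ε : ℝ} (hs : 0 < s) (hs1 : s ≤ 1 / 10) (hκ : 0 < κ) (hκ4 : κ ≤ 1 / 4)
    (hε : 0 < ε) (hε2 : ε ≤ 2) (t : ℕ) : ∀ᶠ n : ℕ in atTop, ∀ (k : ℕ), 1 ≤ k →
    ∀ (y : Fin k → Alt n) (w : Alt n), (∀ r ≤ ⌊(n : ℝ) ^ (1 - s)⌋₊, TGap r ε y) →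
    (∃ ω : Fin (TT t ε n) → St k,
      Gd κ ((gw y (TT t ε n) ω : Perm (Fin n)) * (w : Perm (Fin n)))) →
    ∀ g : Alt n, g ∈ Bl (Fin.snoc y w : Fin (k + 1) → Alt n) ⌊(n : ℝ) ^ (1 + 10 * s)⌋₊ := by
  obtain ⟨C, hC, hshrink⟩ := shrink hκ (show κ ≤ 1 / 2 by linarith)
  filter_upwards [ev_Big hs hs1 hκ hε C t] with n hB
  intro k hk y w hgap hGd g
  set T := TT t ε n with hT
  set x : Fin (k + 1) → Alt n := Fin.snoc y w with hx
  have hnR : (0 : ℝ) < n := by exact_mod_cast (show 0 < n by have := hB.n3; omega)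
  have hn1 : (1 : ℝ) ≤ n := by exact_mod_cast (show 1 ≤ n by have := hB.n3; omega)
  -- the gap for `x`
  have hgx : ∀ r ≤ ⌊(n : ℝ) ^ (1 - s)⌋₊, TGap r (ε / 2) x := fun r hr =>
    TGap_snoc hk hε.le y w (hgap r hr)
  have hfl : max t 4 ≤ ⌊(n : ℝ) ^ (1 - s)⌋₊ := Nat.le_floor hB.f
  have h4 : 4 ≤ ⌊(n : ℝ) ^ (1 - s)⌋₊ := (le_max_right t 4).trans hfl
  -- mixing of pairs and quadruples
  have hmix : ∀ r ≤ 4, Mix r ((1 / (n : ℝ)) ^ 2)
      (fun ω : Fin T → St (k + 1) => (gw x T ω : Perm (Fin n))) := by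
    intro r hr
    refine mix_time (by omega) (hgx r (by omega)) (by positivity) (by linarith)
      (by have := hB.n3; omega) T 2 ?_
    rw [hT]
    unfold TT
    refine le_trans ?_ (Nat.le_ceil _)
    have hr' : (r : ℝ) ≤ ((max t 4 : ℕ) : ℝ) := by
      exact_mod_cast hr.trans (le_max_right t 4)
    have hlog := hB.lg
    have e1 : 4 * ((r : ℝ) + (2 : ℕ)) * Real.log n / (ε / 2) = 8 * (r + 2) * Real.log n / ε := by
      push_cast
      field_simp
      ring
    rw [e1]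
    gcongr
  -- exponents
  set H : ℝ := (n : ℝ) ^ (1 - 2 * s) with hH
  have hH2 : H ^ 2 = n * (n : ℝ) ^ (1 - 4 * s) := by
    rw [hH, ← Real.rpow_natCast, ← Real.rpow_mul hnR.le]
    nth_rewrite 2 [← Real.rpow_one (n : ℝ)]
    rw [← Real.rpow_add hnR]
    congr 1
    push_cast
    ring
  have hHn : H * (n : ℝ) ^ (2 * s) = n := by
    rw [hH, ← Real.rpow_add hnR]
    nth_rewrite 2 [← Real.rpow_one (n : ℝ)]
    congr 1
    ring
  have hH0 : 0 < H := by rw [hH]; positivity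
  have hgood : Good x κ H T := by
    refine ⟨hκ, by linarith, hB.b, ?_, ?_, ?_, by omega⟩
    · rw [hH2]
      have := hB.c
      nlinarith
    · rw [hH]
      exact Real.one_le_rpow hn1 (by linarith)
    · refine ⟨(1 / (n : ℝ)) ^ 2, by positivity, ?_, hmix 2 (by norm_num), hmix 4 le_rfl⟩
      rw [← mul_pow, one_div, inv_mul_cancel₀ hnR.ne', one_pow]
  -- the first word
  obtain ⟨ω, l, hl, hl1, hl2⟩ := hGd
  have hyx : ∀ i, ∃ j, y i = x j := fun i => ⟨i.castSucc, by rw [hx, Fin.snoc_castSucc]⟩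
  have hu : (gw y T ω * w) ∈ Bl x (T + 1) := by
    refine Bl_mul x (Bl_sub x y hyx (gw_mem y T ω)) ?_
    have := Bl_gen x (Fin.last k)
    rwa [hx, Fin.snoc_last] at this
  have hz0 : (gw y T ω * w) ^ l ∈ Bl x (n * (T + 1)) :=
    Bl_mono x (Nat.mul_le_mul_right _ hl) (Bl_pow x hu l)
  have hsp : sp ((gw y T ω * w) ^ l) =
      (#(((gw y T ω : Perm (Fin n)) * (w : Perm (Fin n))) ^ l).support : ℝ) := by
    unfold sp
    rw [Subgroup.coe_pow, Subgroup.coe_mul]
  obtain ⟨L', hL', z, hz, hz1, hz2⟩ := hshrink n (k + 1) x H T (n * (T + 1)) hgood _ hz0 (by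
    rw [hsp]
    refine lt_of_lt_of_le ?_ hl1
    have := hB.e
    nlinarith) (by rw [hsp]; exact hl2)
  -- the size of `q`
  set M := #(z : Perm (Fin n)).support with hM
  have hspM : sp z = (M : ℝ) := rfl
  rw [hspM] at hz1 hz2
  have hM1 : (n : ℝ) ^ (1 - 4 * s) ≤ 6 * M := by
    rw [hH2] at hz1
    have : (n : ℝ) * (n : ℝ) ^ (1 - 4 * s) ≤ n * (6 * M) := by linarith
    exact le_of_mul_le_mul_left this hnR
  set q := M / 3 with hq
  have hq3 : 3 * q ≤ M := by omega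
  have hqM : (M : ℝ) ≤ 3 * q + 3 := by
    have : M ≤ 3 * q + 3 := by omega
    exact_mod_cast this
  have hq1 : (n : ℝ) ^ (1 - 4 * s) ≤ 20 * q := by
    have := hB.j
    linarith
  have hq0 : 1 ≤ q := by
    have h5 : (0 : ℝ) < q := by
      have := hB.j
      linarith
    exact_mod_cast h5
  -- routing
  set R := ⌊H⌋₊ with hR
  have hMR : M ≤ R := Nat.le_floor hz2
  have hRn : (R : ℝ) ≤ H := Nat.floor_le hH0.le
  have hR2 : R ≤ ⌊(n : ℝ) ^ (1 - s)⌋₊ := by
    apply Nat.floor_le_floor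
    rw [hH]
    exact Real.rpow_le_rpow_of_exponent_le hn1 (by linarith)
  have hH1 : 1 ≤ H := hgood.hH0
  have hroute : Route x R n := by
    intro r hr a b
    refine route (by omega) (hgx r (hr.trans hR2)) (by positivity) (by linarith)
      (by have := hB.n3; omega) n ?_ a b
    have hr' : (r : ℝ) ≤ H := le_trans (by exact_mod_cast hr) hRn
    have e1 : 4 * ((r : ℝ) + 1) * Real.log n / (ε / 2) = (r + 1) / 2 * (16 / ε * Real.log n) := by
      field_simp
      ring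
    rw [e1]
    have hlog := hB.lg
    calc ((r : ℝ) + 1) / 2 * (16 / ε * Real.log n) ≤ H * (n : ℝ) ^ (2 * s) := by
          apply mul_le_mul (by linarith) hB.i (by positivity) hH0.le
      _ = n := hHn
  have hMn : M + q ≤ n := by
    have h5 : (M : ℝ) + q ≤ n := by
      have h6 : 2 * H ≤ n := by
        have h7 : (2 : ℝ) ≤ (n : ℝ) ^ (2 * s) := by
          have := hB.e
          have h8 : (0 : ℝ) < (n : ℝ) ^ (2 * s) := by positivity
          nlinarith
        nlinarith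
      have h7 : (q : ℝ) ≤ M := by exact_mod_cast (show q ≤ M by omega)
      linarith
    exact_mod_cast h5
  have hall := allT3_of hroute z hz hMR q hq3 hMn
  obtain ⟨j, hj, hgB⟩ := all_words x q (2 * L' + 4 * n) hq0 hall _ g rfl
  refine Bl_mono x (Nat.le_floor ?_) hgB
  push_cast
  -- the final estimate
  have hN : (#(g : Perm (Fin n)).support : ℝ) ≤ n := by
    have := card_le_univ (g : Perm (Fin n)).support
    rw [Fintype.card_fin] at this
    exact_mod_cast this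
  have hqp : (0 : ℝ) < q := by exact_mod_cast hq0
  have hs1' : (1 : ℝ) ≤ (n : ℝ) ^ s := Real.one_le_rpow hn1 hs.le
  set a : ℝ := (n : ℝ) ^ s with ha
  have ha0 : 0 < a := by positivity
  have ha2 : (n : ℝ) ^ (2 * s) = a ^ 2 := by
    rw [ha, ← Real.rpow_natCast, ← Real.rpow_mul hnR.le]
    congr 1
    push_cast
    ring
  have ha4 : (n : ℝ) ^ (1 - 4 * s) * a ^ 4 = n := by
    rw [ha, ← Real.rpow_natCast, ← Real.rpow_mul hnR.le, ← Real.rpow_add hnR]
    nth_rewrite 2 [← Real.rpow_one (n : ℝ)]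
    congr 1
    push_cast
    ring
  have ha10 : (n : ℝ) ^ (1 + 10 * s) = n * a ^ 10 := by
    rw [Real.rpow_add hnR, Real.rpow_one, ha, ← Real.rpow_natCast, ← Real.rpow_mul hnR.le]
    congr 2
    push_cast
    ring
  have hjb : (j : ℝ) ≤ a ^ 5 := by
    have h5 : (#(g : Perm (Fin n)).support : ℝ) / q ≤ 20 * a ^ 4 := by
      rw [div_le_iff₀ hqp]
      calc (#(g : Perm (Fin n)).support : ℝ) ≤ n := hN
        _ = (n : ℝ) ^ (1 - 4 * s) * a ^ 4 := ha4.symm
        _ ≤ (20 * q) * a ^ 4 := by gcongr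
        _ = _ := by ring
    have h6 : 5 * Real.log (#(g : Perm (Fin n)).support : ℝ) ≤ 5 * a ^ 4 := by
      have h7 : Real.log (#(g : Perm (Fin n)).support : ℝ) ≤ Real.log n := by
        rcases Nat.eq_zero_or_pos #(g : Perm (Fin n)).support with h0 | h0
        · rw [h0]
          have := hB.lg
          simp only [Nat.cast_zero, Real.log_zero]
          linarith
        · exact Real.log_le_log (by exact_mod_cast h0) hN
      have h8 : Real.log n ≤ a ^ 4 := by
        have h9 := hB.i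
        rw [ha2] at h9
        have h10 : 1 ≤ 16 / ε := by
          rw [le_div_iff₀ hε]; linarith
        have h11 := hB.lg
        have h12 : a ^ 2 ≤ a ^ 4 := pow_le_pow_right₀ hs1' (by norm_num)
        nlinarith
      linarith
    have h7 := hB.k
    calc (j : ℝ) ≤ 20 * a ^ 4 + 5 * a ^ 4 := hj.trans (add_le_add h5 h6)
      _ = 25 * a ^ 4 := by ring
      _ ≤ a * a ^ 4 := by
        have : (0 : ℝ) ≤ a ^ 4 := by positivity
        exact mul_le_mul_of_nonneg_right h7 this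
      _ = a ^ 5 := by ring
  have hLb : (2 * L' + 4 * n : ℝ) ≤ n * a ^ 3 := by
    have hTb : (T : ℝ) ≤ a := hB.g
    have h5 : (L' : ℝ) ≤ 4 * n * a ^ 2 := by
      refine hL'.trans ?_
      push_cast
      have hT0 : (0 : ℝ) ≤ T := Nat.cast_nonneg T
      calc C * Real.log n ^ 2 * ((n : ℝ) * (T + 1) + 2 * T) ≤ a * (4 * n * a) := by
            apply mul_le_mul hB.h _ (by positivity) ha0.le
            nlinarith
        _ = _ := by ring
    have h6 := hB.k
    calc (2 * L' + 4 * n : ℝ) ≤ 2 * (4 * n * a ^ 2) + 4 * (n * a ^ 2) := by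
          have : (1 : ℝ) ≤ a ^ 2 := one_le_pow₀ hs1'
          nlinarith
      _ = 12 * (n * a ^ 2) := by ring
      _ ≤ a * (n * a ^ 2) := by
          have : (0 : ℝ) ≤ n * a ^ 2 := by positivity
          exact mul_le_mul_of_nonneg_right (by linarith) this
      _ = _ := by ring
  rw [ha10]
  calc (j : ℝ) * (2 * L' + 4 * n) ≤ a ^ 5 * (n * a ^ 3) := by
        apply mul_le_mul hjb hLb (by positivity) (by positivity)
    _ = n * a ^ 8 := by ring
    _ ≤ n * a ^ 10 := by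
        have := pow_le_pow_right₀ hs1' (show 8 ≤ 10 by norm_num)
        gcongr

end

end Run7.h624.DM
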