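import Pool.Agent.Run7.h624.DM.Det

/-!
The probabilistic part: the last generator is independent of the others.
-/

namespace Run7.h624.DM
open RC14 Finset Equiv Filter Topology

noncomputable section

variable {n k : ℕ}

lemma TGap.mono {r : ℕ} {ε ε' : ℝ} {y : Fin k → Alt n} (h : TGap r ε y) (he : ε' ≤ ε) :
    TGap r ε' y := by
  intro f hf
  have h1 := h f hf
  have h2 : 0 ≤ ∑ a, f a ^ 2 := sum_nonneg fun _ _ => sq_nonneg _
  nlinarith

/-- every element is a product of at most `n ^ (1 + δ)` generators and inverses -/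
def Dm (δ : ℝ) (n : ℕ) (x : Fin k → Alt n) : Prop :=
  ∀ g : Alt n, g ∈ Bl x ⌊(n : ℝ) ^ (1 + δ)⌋₊

open Classical in
/-- counting with the last coordinate -/
lemma card_snoc (P : (Fin (k + 1) → Alt n) → Prop) :
    #{x : Fin (k + 1) → Alt n | P x} = ∑ y : Fin k → Alt n, #{w : Alt n | P (Fin.snoc y w)} := by
  have h1 := (Fin.snocEquiv (fun _ : Fin (k + 1) => Alt n)).sum_comp
    (fun x => if P x then 1 else 0)
  rw [card_filter, ← h1, Fintype.sum_prod_type, sum_comm]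
  refine sum_congr rfl fun y _ => ?_
  rw [card_filter]
  rfl

open Classical in
lemma card_Alt_le (W : Finset (Perm (Fin n))) (ϑ : ℝ) (hn : 2 ≤ n)
    (hW : (#W : ℝ) ≤ ϑ * n.factorial) :
    (#{w : Alt n | (w : Perm (Fin n)) ∈ W} : ℝ) ≤ 2 * ϑ * Fintype.card (Alt n) := by
  have h1 : #{w : Alt n | (w : Perm (Fin n)) ∈ W} ≤ #W := by
    refine card_le_card_of_injOn (fun w => (w : Perm (Fin n))) ?_ ?_
    · intro w hw
      exact (mem_filter.1 hw).2
    · intro a _ b _ h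
      exact Subtype.ext h
  have h2 : 2 * Fintype.card (Alt n) = n.factorial := by
    have : Nontrivial (Fin n) := Fin.nontrivial_iff_two_le.2 hn
    rw [two_mul_card_alternatingGroup, Fintype.card_perm, Fintype.card_fin]
  have h3 : (2 * Fintype.card (Alt n) : ℝ) = n.factorial := by exact_mod_cast h2
  have h4 : (#{w : Alt n | (w : Perm (Fin n)) ∈ W} : ℝ) ≤ #W := by exact_mod_cast h1
  rw [← h3] at hW
  linarith

open Classical in
/-- if most lists `y` have a gap on tuples then most lists `x` have a small diameter -/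
theorem prob {s ε : ℝ} (hs : 0 < s) (hs1 : s ≤ 1 / 10) (hε : 0 < ε) (hε2 : ε ≤ 2) {k : ℕ}
    (hk : 1 ≤ k) (hgap : ∀ ϑ : ℝ, 0 < ϑ → ∀ᶠ n : ℕ in atTop,
      (#{y : Fin k → Alt n | ¬ ∀ r ≤ ⌊(n : ℝ) ^ (1 - s)⌋₊, TGap r ε y} : ℝ) ≤
        ϑ * (Fintype.card (Alt n) : ℝ) ^ k) (ϑ : ℝ) (hϑ : 0 < ϑ) (hϑ1 : ϑ ≤ 1) :
    ∀ᶠ n : ℕ in atTop, (#{x : Fin (k + 1) → Alt n | ¬ Dm (10 * s) n x} : ℝ) ≤
      3 * ϑ * (Fintype.card (Alt n) : ℝ) ^ (k + 1) := by
  obtain ⟨κ, hκ, hκ4, t, n0, hlw⟩ := long_word ϑ hϑ hϑ1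
  filter_upwards [hgap ϑ hϑ, det hs hs1 hκ hκ4 hε hε2 t, eventually_ge_atTop n0,
    eventually_ge_atTop 2, ev_pow (show (0 : ℝ) < 1 - s by linarith) (t : ℝ)] with n h1 h2 h3 h4 h5
  have : NeZero k := ⟨by omega⟩
  have hA : (0 : ℝ) < Fintype.card (Alt n) := by exact_mod_cast Fintype.card_pos
  have htf : t ≤ ⌊(n : ℝ) ^ (1 - s)⌋₊ := Nat.le_floor h5
  have key : ∀ y : Fin k → Alt n, (∀ r ≤ ⌊(n : ℝ) ^ (1 - s)⌋₊, TGap r ε y) →
      (#{w : Alt n | ¬ Dm (10 * s) n (Fin.snoc y w : Fin (k + 1) → Alt n)} : ℝ) ≤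
        2 * ϑ * Fintype.card (Alt n) := by
    intro y hy
    have hmx : ∀ r ≤ t, Mx r (fun ω : Fin (TT t ε n) → St k =>
        (gw y (TT t ε n) ω : Perm (Fin n))) := by
      intro r hr a b
      have hm := mix_time hk (hy r (hr.trans htf)) hε hε2 (by omega) (TT t ε n) 1 (by
        unfold TT
        refine le_trans ?_ (Nat.le_ceil _)
        have hr' : (r : ℝ) ≤ ((max t 4 : ℕ) : ℝ) := by exact_mod_cast hr.trans (le_max_left t 4)
        have hlog : 0 ≤ Real.log n := Real.log_natCast_nonneg n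
        push_cast at hr' ⊢
        have h6 : 4 * ((r : ℝ) + 1) ≤ 8 * (max (t : ℝ) 4 + 2) := by
          have : (0 : ℝ) ≤ r := Nat.cast_nonneg r
          linarith
        gcongr)
      have h6 := hm.upper a b
      refine h6.trans ?_
      have h7 : (1 / (n : ℝ)) ^ 1 ≤ 1 := by
        rw [pow_one, div_le_one (by exact_mod_cast (show 0 < n by omega))]
        exact_mod_cast (show 1 ≤ n by omega)
      gcongr
      linarith
    obtain ⟨W, hW1, hW2⟩ := hlw n h3 (Fin (TT t ε n) → St k) _ hmx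
    refine le_trans ?_ (card_Alt_le W ϑ h4 hW1)
    have h6 : #{w : Alt n | ¬ Dm (10 * s) n (Fin.snoc y w : Fin (k + 1) → Alt n)} ≤
        #{w : Alt n | (w : Perm (Fin n)) ∈ W} := by
      apply card_le_card
      intro w hw
      rw [mem_filter] at hw ⊢
      refine ⟨mem_univ _, ?_⟩
      by_contra hcon
      exact hw.2 (h2 k hk y w hy (hW2 _ hcon))
    exact_mod_cast h6
  have h6 := card_snoc (n := n) (k := k) (fun x => ¬ Dm (10 * s) n x)
  have h7 : (#{x : Fin (k + 1) → Alt n | ¬ Dm (10 * s) n x} : ℝ) =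
      ∑ y : Fin k → Alt n, (#{w : Alt n | ¬ Dm (10 * s) n (Fin.snoc y w : Fin (k + 1) → Alt n)} : ℝ) := by
    exact_mod_cast h6
  rw [h7]
  have h8 : ∀ y : Fin k → Alt n,
      (#{w : Alt n | ¬ Dm (10 * s) n (Fin.snoc y w : Fin (k + 1) → Alt n)} : ℝ) ≤
      2 * ϑ * Fintype.card (Alt n) +
      (if ¬ ∀ r ≤ ⌊(n : ℝ) ^ (1 - s)⌋₊, TGap r ε y then (Fintype.card (Alt n) : ℝ) else 0) := by
    intro y
    by_cases hy : ∀ r ≤ ⌊(n : ℝ) ^ (1 - s)⌋₊, TGap r ε y
    · rw [if_neg (not_not.2 hy), add_zero]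
      exact key y hy
    · rw [if_pos hy]
      have h9 : (#{w : Alt n | ¬ Dm (10 * s) n (Fin.snoc y w : Fin (k + 1) → Alt n)} : ℝ) ≤
          Fintype.card (Alt n) := by exact_mod_cast card_le_univ _
      have : 0 ≤ 2 * ϑ * (Fintype.card (Alt n) : ℝ) := by positivity
      linarith
  refine (sum_le_sum fun y _ => h8 y).trans ?_
  rw [sum_add_distrib, sum_const, card_univ, nsmul_eq_mul, ← sum_filter, sum_const, nsmul_eq_mul,
    Fintype.card_fun, Fintype.card_fin]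
  push_cast
  have h9 : (#{y : Fin k → Alt n | ¬ ∀ r ≤ ⌊(n : ℝ) ^ (1 - s)⌋₊, TGap r ε y} : ℝ) *
      Fintype.card (Alt n) ≤ ϑ * (Fintype.card (Alt n) : ℝ) ^ k * Fintype.card (Alt n) := by
    gcongr
  rw [pow_succ]
  linarith

lemma Dm.mono {δ δ' : ℝ} {x : Fin k → Alt n} (hn : 1 ≤ n) (h : Dm δ n x) (hd : δ ≤ δ') :
    Dm δ' n x := by
  intro g
  refine Bl_mono x (Nat.floor_le_floor ?_) (h g)
  exact Real.rpow_le_rpow_of_exponent_le (by exact_mod_cast hn) (by linarith)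

lemma Expanding.mono {ε ε' : ℝ} {x : Fin k → Alt n} (h : Expanding ε x) (he : ε' ≤ ε) :
    Expanding ε' x := by
  refine ⟨h.1, fun f hf => (h.2 f hf).trans ?_⟩
  have h2 : 0 ≤ ∑ a, f a ^ 2 := sum_nonneg fun _ _ => sq_nonneg _
  nlinarith

/-- the gap from the diameter -/
lemma expanding_of_Dm {δ : ℝ} (hδ : 0 < δ) {k : ℕ} (hk : 1 ≤ k) : ∀ᶠ n : ℕ in atTop,
    ∀ x : Fin k → Alt n, Dm (δ / 3) n x → Expanding ((n : ℝ) ^ (-(2 + δ))) x := by
  filter_upwards [eventually_ge_atTop 1, ev_pow (show 0 < δ / 3 by positivity) (k : ℝ)]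
    with n h1 h2
  intro x hx
  have hnR : (0 : ℝ) < n := by exact_mod_cast h1
  have hn1 : (1 : ℝ) ≤ n := by exact_mod_cast h1
  have hkp : (0 : ℝ) < k := by exact_mod_cast hk
  set D := ⌊(n : ℝ) ^ (1 + δ / 3)⌋₊ with hD
  have hD1 : 1 ≤ D := by
    apply Nat.le_floor
    push_cast
    exact Real.one_le_rpow hn1 (by linarith)
  have hD1' : (1 : ℝ) ≤ D := by exact_mod_cast hD1
  have hDn : (D : ℝ) ≤ (n : ℝ) ^ (1 + δ / 3) := Nat.floor_le (by positivity)
  refine Expanding.mono (gap_of_diam hk x D hD1 hx) ?_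
  rw [Real.rpow_neg hnR.le, ← one_div]
  apply one_div_le_one_div_of_le (by positivity)
  calc (k : ℝ) * (D : ℝ) ^ 2 ≤ (n : ℝ) ^ (δ / 3) * ((n : ℝ) ^ (1 + δ / 3)) ^ 2 := by gcongr
    _ = (n : ℝ) ^ (2 + δ) := by
        rw [← Real.rpow_natCast, ← Real.rpow_mul hnR.le, ← Real.rpow_add hnR]
        congr 1
        push_cast
        ring

end

end Run7.h624.DM
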