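import Pool.Agent.Results.MP_75608d_al.GapAllTuples
import Pool.Agent.Run7.h624.DM.Prob

/-!
The main theorem: small diameter and a lower bound of the spectral gap.
-/

namespace Run7.h624.DM
open RC14 Finset Filter Topology
open Pool.Agent.Results.MP_75608d_al

noncomputable section

/-- diameter and gap -/
theorem diam_gap (δ : ℝ) (hδ : 0 < δ) : ∃ k₀ : ℕ, ∀ k ≥ k₀, Tendsto (fun n : ℕ =>
    (Nat.card {x : Fin k → Alt n //
      (∀ g : Alt n, ∃ w : List (Alt n), (w.length : ℝ) ≤ (n : ℝ) ^ (1 + δ) ∧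
        (∀ y ∈ w, ∃ i, y = x i ∨ y = (x i)⁻¹) ∧ w.prod = g) ∧
      Expanding ((n : ℝ) ^ (-(2 + δ))) x} : ℝ) /
        (Fintype.card (Alt n) : ℝ) ^ k) atTop (𝓝 1) := by
  classical
  set s : ℝ := min δ 1 / 30 with hs
  have hm : 0 < min δ 1 := lt_min hδ one_pos
  have hs0 : 0 < s := by positivity
  have hs1 : s ≤ 1 / 10 := by
    have : min δ 1 ≤ 1 := min_le_right _ _
    rw [hs]; linarith
  have hs3 : 10 * s ≤ δ / 3 := by
    have : min δ 1 ≤ δ := min_le_left _ _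
    rw [hs]; linarith
  obtain ⟨k1, hk1⟩ := GapAllTuples.result s hs0
  refine ⟨max k1 1 + 1, fun k hk => ?_⟩
  obtain ⟨k', rfl⟩ : ∃ k', k = k' + 1 := ⟨k - 1, by omega⟩
  have hk' : k1 ≤ k' := by
    have := le_max_left k1 1
    omega
  have hk'1 : 1 ≤ k' := by
    have := le_max_right k1 1
    omega
  obtain ⟨ε, hε, hlim⟩ := hk1 k' hk'
  have hpos : ∀ n : ℕ, (0 : ℝ) < (Fintype.card (Alt n) : ℝ) := fun n => by
    exact_mod_cast Fintype.card_pos
  -- the gap on tuples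
  have hgap : ∀ ϑ : ℝ, 0 < ϑ → ∀ᶠ n : ℕ in atTop,
      (#{y : Fin k' → Alt n | ¬ ∀ r ≤ ⌊(n : ℝ) ^ (1 - s)⌋₊, TGap r (min ε 2) y} : ℝ) ≤
        ϑ * (Fintype.card (Alt n) : ℝ) ^ k' := by
    intro ϑ hϑ
    have h1 := hlim.eventually (lt_mem_nhds (show 1 - ϑ < 1 by linarith))
    filter_upwards [h1] with n hn
    have hA := hpos n
    rw [lt_div_iff₀ (by positivity), RC14.card_compl, Fintype.card_fun, Fintype.card_fin] at hn
    push_cast at hn
    have h2 : (#{y : Fin k' → Alt n | ¬ ∀ r ≤ ⌊(n : ℝ) ^ (1 - s)⌋₊, TGap r (min ε 2) y} : ℝ) ≤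
        Nat.card {y : Fin k' → Alt n // ¬ GapAllTuples.GapUpTo n ⌊(n : ℝ) ^ (1 - s)⌋₊ ε y} := by
      rw [← Fintype.card_subtype, ← Nat.card_eq_fintype_card]
      exact_mod_cast RC14.card_mono (fun y : Fin k' → Alt n =>
        ¬ ∀ r ≤ ⌊(n : ℝ) ^ (1 - s)⌋₊, TGap r (min ε 2) y)
        (fun y => ¬ GapAllTuples.GapUpTo n ⌊(n : ℝ) ^ (1 - s)⌋₊ ε y)
        (fun y hy h => hy fun r hr => TGap.mono (h.2 r hr) (min_le_left _ _))
    linarith
  have hD := prob hs0 hs1 (lt_min hε two_pos) (min_le_right _ _) hk'1 hgap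
  -- the conclusion
  have key : ∀ ϑ : ℝ, 0 < ϑ → ϑ ≤ 1 → ∀ᶠ n : ℕ in atTop, (Nat.card {x : Fin (k' + 1) → Alt n //
      ¬ ((∀ g : Alt n, ∃ w : List (Alt n), (w.length : ℝ) ≤ (n : ℝ) ^ (1 + δ) ∧
        (∀ y ∈ w, ∃ i, y = x i ∨ y = (x i)⁻¹) ∧ w.prod = g) ∧
      Expanding ((n : ℝ) ^ (-(2 + δ))) x)} : ℝ) ≤
        3 * ϑ * (Fintype.card (Alt n) : ℝ) ^ (k' + 1) := by
    intro ϑ hϑ hϑ1
    filter_upwards [hD ϑ hϑ hϑ1, expanding_of_Dm hδ (show 1 ≤ k' + 1 by omega),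
      eventually_ge_atTop 1] with n h1 h2 h3
    refine le_trans ?_ h1
    rw [← Fintype.card_subtype, ← Nat.card_eq_fintype_card]
    have h4 := RC14.card_mono (fun x : Fin (k' + 1) → Alt n =>
      ¬ ((∀ g : Alt n, ∃ w : List (Alt n), (w.length : ℝ) ≤ (n : ℝ) ^ (1 + δ) ∧
        (∀ y ∈ w, ∃ i, y = x i ∨ y = (x i)⁻¹) ∧ w.prod = g) ∧
      Expanding ((n : ℝ) ^ (-(2 + δ))) x)) (fun x => ¬ Dm (10 * s) n x) (by
        intro x hx h
        apply hx
        refine ⟨fun g => ?_, h2 x (h.mono h3 hs3)⟩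
        obtain ⟨w, hw1, hw2, hw3⟩ := h g
        refine ⟨w, ?_, hw2, hw3⟩
        have hn1 : (1 : ℝ) ≤ n := by exact_mod_cast h3
        calc (w.length : ℝ) ≤ (⌊(n : ℝ) ^ (1 + 10 * s)⌋₊ : ℝ) := by exact_mod_cast hw1
          _ ≤ (n : ℝ) ^ (1 + 10 * s) := Nat.floor_le (by positivity)
          _ ≤ (n : ℝ) ^ (1 + δ) := Real.rpow_le_rpow_of_exponent_le hn1 (by linarith))
    exact_mod_cast h4
  refine tendsto_order.mpr ⟨fun b hb => ?_, fun b hb => ?_⟩
  · filter_upwards [key (min ((1 - b) / 4) 1) (lt_min (by linarith) one_pos) (min_le_right _ _)]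
      with n hn
    have hA := hpos n
    rw [lt_div_iff₀ (by positivity), RC14.card_compl, Fintype.card_fun, Fintype.card_fin]
    push_cast
    have hp : (0 : ℝ) < (Fintype.card (Alt n) : ℝ) ^ (k' + 1) := by positivity
    have h1 : min ((1 - b) / 4) 1 ≤ (1 - b) / 4 := min_le_left _ _
    have h2 : 3 * min ((1 - b) / 4) 1 * (Fintype.card (Alt n) : ℝ) ^ (k' + 1) ≤
        3 * ((1 - b) / 4) * (Fintype.card (Alt n) : ℝ) ^ (k' + 1) := by gcongr
    nlinarith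
  · refine Eventually.of_forall fun n => lt_of_le_of_lt ?_ hb
    have hA := hpos n
    rw [div_le_one (by positivity), RC14.card_compl, Fintype.card_fun, Fintype.card_fin]
    push_cast
    have h1 := Nat.cast_nonneg (α := ℝ) (Nat.card {x : Fin (k' + 1) → Alt n //
      ¬ ((∀ g : Alt n, ∃ w : List (Alt n), (w.length : ℝ) ≤ (n : ℝ) ^ (1 + δ) ∧
        (∀ y ∈ w, ∃ i, y = x i ∨ y = (x i)⁻¹) ∧ w.prod = g) ∧
      Expanding ((n : ℝ) ^ (-(2 + δ))) x)})
    linarith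

/-- a property implied by one of asymptotic density one has asymptotic density one -/
lemma tendsto_mono {k : ℕ} (P Q : (n : ℕ) → (Fin k → Alt n) → Prop)
    (h : ∀ᶠ n : ℕ in atTop, ∀ x, P n x → Q n x)
    (hP : Tendsto (fun n : ℕ => (Nat.card {x : Fin k → Alt n // P n x} : ℝ) /
      (Fintype.card (Alt n) : ℝ) ^ k) atTop (𝓝 1)) :
    Tendsto (fun n : ℕ => (Nat.card {x : Fin k → Alt n // Q n x} : ℝ) /
      (Fintype.card (Alt n) : ℝ) ^ k) atTop (𝓝 1) := by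
  have hpos : ∀ n : ℕ, (0 : ℝ) < (Fintype.card (Alt n) : ℝ) := fun n => by
    exact_mod_cast Fintype.card_pos
  refine tendsto_of_tendsto_of_tendsto_of_le_of_le' hP tendsto_const_nhds ?_ ?_
  · filter_upwards [h] with n hn
    refine div_le_div_of_nonneg_right ?_ (pow_pos (hpos n) k).le
    exact_mod_cast RC14.card_mono (P n) (Q n) hn
  · refine Eventually.of_forall fun n => ?_
    have hA := hpos n
    rw [div_le_one (by positivity), RC14.card_compl, Fintype.card_fun, Fintype.card_fin]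
    push_cast
    have h1 := Nat.cast_nonneg (α := ℝ) (Nat.card {x : Fin k → Alt n // ¬ Q n x})
    linarith

end

end Run7.h624.DM
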