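import Pool.Agent.H14R2.RC.Defs

/-!
Splitting and merging cycles with a transposition: two points are in the same cycle of a random
permutation with probability one half, also given a part of the permutation.
-/

namespace Run7.h624.DM
open RC14 Finset Equiv

noncomputable section

/-! ### toggling -/
section toggle

variable {X : Type*} [Finite X] [DecidableEq X]

omit [Finite X] in
theorem pow_agree (p : Perm X) (u v : X) (r : ℕ)
    (h : ∀ j, 0 < j → j < r → (p ^ j) u ≠ u ∧ (p ^ j) u ≠ v) :
    ∀ j, j < r → ((swap u v * p) ^ j) u = (p ^ j) u := by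
  intro j
  induction j with
  | zero => intro _; rfl
  | succ j ih =>
    intro hj
    rw [pow_succ', Perm.mul_apply, ih (by omega), Perm.mul_apply]
    have h1 := h (j + 1) (by omega) hj
    rw [pow_succ', Perm.mul_apply] at h1
    rw [swap_apply_of_ne_of_ne h1.1 h1.2, pow_succ', Perm.mul_apply]

theorem same_of_not (p : Perm X) (u v : X) (h : ¬ p.SameCycle u v) :
    (swap u v * p).SameCycle u v := by
  classical
  have hex : ∃ n, 0 < n ∧ (p ^ n) u = u := by
    refine ⟨orderOf p, orderOf_pos p, ?_⟩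
    rw [pow_orderOf_eq_one]; rfl
  set r := Nat.find hex with hr
  have hr1 := (Nat.find_spec hex).1
  have hr2 := (Nat.find_spec hex).2
  have hmin : ∀ j, 0 < j → j < r → (p ^ j) u ≠ u ∧ (p ^ j) u ≠ v := by
    intro j h0 hj
    refine ⟨fun hh => Nat.find_min hex hj ⟨h0, hh⟩, fun hh => h ⟨j, by simpa using hh⟩⟩
  have := pow_agree p u v r hmin (r - 1) (by omega)
  refine ⟨(r : ℤ), ?_⟩
  have h2 : ((swap u v * p) ^ r) u = v := by
    conv_lhs => rw [show r = (r - 1) + 1 by omega]
    rw [pow_succ', Perm.mul_apply, this, Perm.mul_apply]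
    have : p ((p ^ (r - 1)) u) = u := by
      have h3 := hr2
      rw [← hr] at h3
      conv_lhs at h3 => rw [show r = (r - 1) + 1 by omega]
      rw [pow_succ', Perm.mul_apply] at h3
      exact h3
    rw [this, swap_apply_left]
  simpa using h2

theorem not_of_same (p : Perm X) (u v : X) (huv : u ≠ v) (h : p.SameCycle u v) :
    ¬ (swap u v * p).SameCycle u v := by
  classical
  have hex : ∃ n, 0 < n ∧ (p ^ n) u = v := by
    obtain ⟨n, hn⟩ := h.exists_nat_pow_eq
    refine ⟨n, ?_, hn⟩
    rcases Nat.eq_zero_or_pos n with h0 | h0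
    · subst h0; exact absurd hn (by simpa using huv)
    · exact h0
  set r := Nat.find hex with hr
  have hr1 := (Nat.find_spec hex).1
  have hr2 := (Nat.find_spec hex).2
  rw [← hr] at hr1 hr2
  have hmin : ∀ j, 0 < j → j < r → (p ^ j) u ≠ u ∧ (p ^ j) u ≠ v := by
    intro j h0 hj
    refine ⟨fun hh => ?_, fun hh => Nat.find_min hex hj ⟨h0, hh⟩⟩
    apply Nat.find_min hex (m := r - j) (by omega)
    refine ⟨by omega, ?_⟩
    rw [show r = (r - j) + j by omega, pow_add, Perm.mul_apply, hh] at hr2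
    exact hr2
  have hag := pow_agree p u v r hmin
  have hret : ((swap u v * p) ^ r) u = u := by
    have := hag (r - 1) (by omega)
    conv_lhs => rw [show r = (r - 1) + 1 by omega]
    rw [pow_succ', Perm.mul_apply, this, Perm.mul_apply]
    have : p ((p ^ (r - 1)) u) = v := by
      have h3 := hr2
      conv_lhs at h3 => rw [show r = (r - 1) + 1 by omega]
      rw [pow_succ', Perm.mul_apply] at h3
      exact h3
    rw [this, swap_apply_right]
  intro hs
  obtain ⟨n, hn⟩ := hs.exists_nat_pow_eq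
  have hmul : ∀ m : ℕ, ((swap u v * p) ^ (r * m)) u = u := by
    intro m
    induction m with
    | zero => simp
    | succ m ih => rw [Nat.mul_succ, pow_add, Perm.mul_apply, hret, ih]
  rw [← Nat.mod_add_div n r, pow_add, Perm.mul_apply, hmul] at hn
  rw [hag _ (Nat.mod_lt _ hr1)] at hn
  rcases Nat.eq_zero_or_pos (n % r) with h0 | h0
  · rw [h0] at hn; exact huv (by simpa using hn)
  · exact (hmin _ h0 (Nat.mod_lt _ hr1)).2 hn

theorem toggle (p : Perm X) (u v : X) (huv : u ≠ v) :
    (swap u v * p).SameCycle u v ↔ ¬ p.SameCycle u v :=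
  ⟨fun h h' => not_of_same p u v huv h' h, same_of_not p u v⟩

theorem toggle_right (p : Perm X) (u v : X) (huv : u ≠ v) :
    (p * swap u v).SameCycle u v ↔ ¬ p.SameCycle u v := by
  rw [← Perm.sameCycle_inv, mul_inv_rev, swap_inv, toggle _ _ _ huv, Perm.sameCycle_inv]

end toggle

variable {n : ℕ}

/-- two different points are in the same cycle for half of the permutations -/
theorem half_same (b c : Fin n) (h : b ≠ c) :
    2 * #{w : Perm (Fin n) | w.SameCycle b c} = n.factorial := by
  have h1 : #{w : Perm (Fin n) | w.SameCycle b c} = #{w : Perm (Fin n) | ¬ w.SameCycle b c} := by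
    refine card_bij (fun w _ => w * swap b c) ?_ ?_ ?_
    · intro w hw
      simp only [mem_filter, mem_univ, true_and] at hw ⊢
      rw [toggle_right _ _ _ h]
      exact not_not.2 hw
    · intro w _ w' _ hww
      exact mul_right_cancel hww
    · intro w hw
      refine ⟨w * swap b c, ?_, by simp [mul_assoc]⟩
      simp only [mem_filter, mem_univ, true_and] at hw ⊢
      rw [toggle_right _ _ _ h]
      exact hw
  have h2 := card_filter_add_card_filter_not (s := (univ : Finset (Perm (Fin n))))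
    (fun w => w.SameCycle b c)
  rw [card_univ, Fintype.card_perm, Fintype.card_fin] at h2
  omega

/-! ### first exits -/

/-- the orbit of `p` under `y * w` leaves the `w`-cycle of `b` exactly at time `i` -/
def FE (w y : Perm (Fin n)) (b p : Fin n) (i : ℕ) : Prop :=
  (∀ m < i, w.SameCycle b (((y * w) ^ m) p)) ∧ ¬ w.SameCycle b (((y * w) ^ i) p)

lemma FE.unique {w y : Perm (Fin n)} {b p : Fin n} {i j : ℕ} (hi : FE w y b p i)
    (hj : FE w y b p j) : i = j := by
  rcases lt_trichotomy i j with h | h | h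
  · exact absurd (hj.1 i h) hi.2
  · exact h
  · exact absurd (hi.1 j h) hj.2

lemma same_congr {w : Perm (Fin n)} {b s s' : Fin n} (hs : ¬ w.SameCycle b s)
    (hs' : ¬ w.SameCycle b s') (q : Fin n) : (w * swap s s').SameCycle b q ↔ w.SameCycle b q := by
  have h1 : ∀ m : ℕ, ((w * swap s s') ^ m) b = (w ^ m) b := by
    intro m
    induction m with
    | zero => rfl
    | succ m ih =>
      rw [pow_succ', Perm.mul_apply, ih, Perm.mul_apply, pow_succ', Perm.mul_apply]
      have h2 : w.SameCycle b ((w ^ m) b) := ⟨m, by simp⟩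
      rw [swap_apply_of_ne_of_ne]
      · intro h; rw [h] at h2; exact hs h2
      · intro h; rw [h] at h2; exact hs' h2
  constructor
  · intro h
    obtain ⟨m, hm⟩ := h.exists_nat_pow_eq
    rw [h1] at hm
    exact ⟨m, by simpa using hm⟩
  · intro h
    obtain ⟨m, hm⟩ := h.exists_nat_pow_eq
    rw [← h1] at hm
    exact ⟨m, by simpa using hm⟩

lemma FE.pow_eq {w y : Perm (Fin n)} {b p s s' : Fin n} {i : ℕ} (h : FE w y b p i)
    (hs : ¬ w.SameCycle b s) (hs' : ¬ w.SameCycle b s') :
    ∀ m ≤ i, ((y * (w * swap s s')) ^ m) p = ((y * w) ^ m) p := by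
  intro m
  induction m with
  | zero => intro _; rfl
  | succ m ih =>
    intro hm
    rw [pow_succ', Perm.mul_apply, ih (by omega), Perm.mul_apply, Perm.mul_apply, pow_succ',
      Perm.mul_apply, Perm.mul_apply]
    have h2 := h.1 m (by omega)
    rw [swap_apply_of_ne_of_ne]
    · intro h; rw [h] at h2; exact hs h2
    · intro h; rw [h] at h2; exact hs' h2

lemma FE.congr {w y : Perm (Fin n)} {b p s s' : Fin n} {i : ℕ} (h : FE w y b p i)
    (hs : ¬ w.SameCycle b s) (hs' : ¬ w.SameCycle b s') :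
    FE (w * swap s s') y b p i := by
  constructor
  · intro m hm
    rw [same_congr hs hs', h.pow_eq hs hs' m hm.le]
    exact h.1 m hm
  · rw [same_congr hs hs', h.pow_eq hs hs' i le_rfl]
    exact h.2

/-- both orbits leave the cycle of `b` in at most `t` steps and at different points -/
def Dst (w y : Perm (Fin n)) (b : Fin n) (t : ℕ) (b' c' : Fin n) : Prop :=
  ∃ i j, i ≤ t ∧ j ≤ t ∧ FE w y b b' i ∧ FE w y b c' j ∧ ((y * w) ^ i) b' ≠ ((y * w) ^ j) c'

/-- the exit time -/
def xt (w y : Perm (Fin n)) (b p : Fin n) : ℕ := sInf {i | FE w y b p i}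

lemma FE.xt {w y : Perm (Fin n)} {b p : Fin n} {i : ℕ} (h : FE w y b p i) : xt w y b p = i := by
  have h1 : FE w y b p (DM.xt w y b p) := Nat.sInf_mem (s := {i | FE w y b p i}) ⟨i, h⟩
  exact h1.unique h

/-- exchange the images of the exit points -/
def fl (y : Perm (Fin n)) (b b' c' : Fin n) (w : Perm (Fin n)) : Perm (Fin n) :=
  w * swap (((y * w) ^ (xt w y b b')) b') (((y * w) ^ (xt w y b c')) c')

lemma fl_spec {y : Perm (Fin n)} {b b' c' : Fin n} {w : Perm (Fin n)} {t : ℕ}
    (h : Dst w y b t b' c') : Dst (fl y b b' c' w) y b t b' c' ∧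
      fl y b b' c' (fl y b b' c' w) = w ∧
      (∀ q, (fl y b b' c' w).SameCycle b q ↔ w.SameCycle b q) ∧
      ((y * fl y b b' c' w).SameCycle b' c' ↔ ¬ (y * w).SameCycle b' c') := by
  obtain ⟨i, j, hi, hj, hbi, hcj, hne⟩ := h
  have e1 := hbi.xt
  have e2 := hcj.xt
  set s := ((y * w) ^ i) b' with hs
  set s' := ((y * w) ^ j) c' with hs'
  have hfl : fl y b b' c' w = w * swap s s' := by
    unfold fl
    rw [e1, e2]
  have f1 : FE (w * swap s s') y b b' i := hbi.congr hbi.2 hcj.2
  have f2 : FE (w * swap s s') y b c' j := hcj.congr hbi.2 hcj.2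
  have g1 := hbi.pow_eq hbi.2 hcj.2 i le_rfl
  have g2 := hcj.pow_eq hbi.2 hcj.2 j le_rfl
  rw [← hs, ← hs'] at g1 g2
  rw [hfl]
  refine ⟨⟨i, j, hi, hj, f1, f2, ?_⟩, ?_, fun q => same_congr hbi.2 hcj.2 q, ?_⟩
  · rw [g1, g2]; exact hne
  · unfold fl
    rw [f1.xt, f2.xt, g1, g2, mul_assoc, swap_mul_self, mul_one]
  · have a1 : (y * w).SameCycle b' s := ⟨i, by simp [hs]⟩
    have a2 : (y * w).SameCycle c' s' := ⟨j, by simp [hs']⟩
    have a3 : (y * (w * swap s s')).SameCycle b' s := ⟨i, by rw [zpow_natCast]; exact g1⟩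
    have a4 : (y * (w * swap s s')).SameCycle c' s' := ⟨j, by rw [zpow_natCast]; exact g2⟩
    have a5 := toggle_right (y * w) s s' hne
    rw [mul_assoc] at a5
    constructor
    · intro h1 h2
      exact a5.1 ((a3.symm.trans h1).trans a4) ((a1.symm.trans h2).trans a2)
    · intro h1
      refine (a3.trans (a5.2 fun h2 => h1 ?_)).trans a4.symm
      exact (a1.trans h2).trans a2.symm

open Classical in
/-- the conditional probability of being in the same cycle of `y w` is one half, up to the
probability that the exits do not exist or coincide -/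
theorem pair_bound (y : Perm (Fin n)) (b c b' c' : Fin n) (t : ℕ) :
    2 * #{w : Perm (Fin n) | w.SameCycle b c ∧ (y * w).SameCycle b' c'} ≤
      #{w : Perm (Fin n) | w.SameCycle b c} + 2 * #{w : Perm (Fin n) | ¬ Dst w y b t b' c'} := by
  set X : Finset (Perm (Fin n)) := {w | w.SameCycle b c ∧ Dst w y b t b' c'} with hX
  have h1 : #{w ∈ X | (y * w).SameCycle b' c'} ≤ #{w ∈ X | ¬ (y * w).SameCycle b' c'} := by
    refine card_le_card_of_injOn (fl y b b' c') ?_ ?_
    · intro w hw
      obtain ⟨hw1, hw2⟩ := mem_filter.1 hw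
      rw [hX, mem_filter] at hw1
      obtain ⟨s1, s2, s3, s4⟩ := fl_spec hw1.2.2
      rw [mem_coe, mem_filter, hX, mem_filter]
      refine ⟨⟨mem_univ _, (s3 c).2 hw1.2.1, s1⟩, ?_⟩
      rw [s4]
      exact not_not.2 hw2
    · intro w hw w' hw' hww
      have hw1 := (mem_filter.1 (mem_filter.1 hw).1).2.2
      have hw1' := (mem_filter.1 (mem_filter.1 hw').1).2.2
      rw [← (fl_spec hw1).2.1, ← (fl_spec hw1').2.1, hww]
  have h2 := card_filter_add_card_filter_not (s := X) (fun w => (y * w).SameCycle b' c')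
  have h3 : #X ≤ #{w : Perm (Fin n) | w.SameCycle b c} := by
    apply card_le_card
    intro w hw
    rw [hX, mem_filter] at hw
    exact mem_filter.2 ⟨mem_univ _, hw.2.1⟩
  have h4 : #{w : Perm (Fin n) | w.SameCycle b c ∧ (y * w).SameCycle b' c'} ≤
      #{w ∈ X | (y * w).SameCycle b' c'} + #{w : Perm (Fin n) | ¬ Dst w y b t b' c'} := by
    refine (card_le_card ?_).trans (card_union_le _ _)
    intro w hw
    obtain ⟨-, hw1, hw2⟩ := mem_filter.1 hw
    rw [mem_union]
    by_cases hd : Dst w y b t b' c'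
    · left
      rw [mem_filter, hX, mem_filter]
      exact ⟨⟨mem_univ _, hw1, hd⟩, hw2⟩
    · right
      exact mem_filter.2 ⟨mem_univ _, hd⟩
  omega

/-- if the exits are bad then one of the orbits stays for a long time or the two points are close
in the orbit -/
lemma not_Dst {w y : Perm (Fin n)} {b b' c' : Fin n} {t : ℕ} (h : ¬ Dst w y b t b' c') :
    (∀ m ≤ t, w.SameCycle b (((y * w) ^ m) b')) ∨ (∀ m ≤ t, w.SameCycle b (((y * w) ^ m) c')) ∨
    ∃ i ≤ t, ∃ j ≤ t, ((y * w) ^ i) b' = ((y * w) ^ j) c' := by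
  classical
  by_contra hcon
  push Not at hcon
  obtain ⟨h1, h2, h3⟩ := hcon
  have key : ∀ p : Fin n, (∃ m ≤ t, ¬ w.SameCycle b (((y * w) ^ m) p)) → ∃ i ≤ t, FE w y b p i := by
    intro p hp
    have hp' : ∃ m, ¬ w.SameCycle b (((y * w) ^ m) p) := by
      obtain ⟨m, -, hm⟩ := hp
      exact ⟨m, hm⟩
    obtain ⟨m, hmt, hm⟩ := hp
    refine ⟨Nat.find hp', (Nat.find_min' hp' hm).trans hmt, ?_, Nat.find_spec hp'⟩
    intro m' hm'
    by_contra hc
    exact Nat.find_min hp' hm' hc
  obtain ⟨i, hi, hi'⟩ := key b' h1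
  obtain ⟨j, hj, hj'⟩ := key c' h2
  exact h ⟨i, j, hi, hj, hi', hj', h3 i hi j hj⟩

end

end Run7.h624.DM
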