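import Pool.Agent.Run7.h624.DM.Base

/-!
A lower bound of the spectral gap by the diameter, and the gap on tuples for a longer list of
generators.
-/

namespace Run7.h624.DM
open RC14 Finset Equiv

noncomputable section

section Diam

variable {G : Type*} [Group G] [Fintype G] {k : ℕ}

/-- the energy in the direction `s` -/
def eg (f : G → ℝ) (s : G) : ℝ := ∑ g, (f (g * s) - f g) ^ 2

lemma eg_nonneg (f : G → ℝ) (s : G) : 0 ≤ eg f s := sum_nonneg fun _ _ => sq_nonneg _

lemma eg_inv (f : G → ℝ) (s : G) : eg f s⁻¹ = eg f s := by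
  unfold eg
  rw [← Equiv.sum_comp (Equiv.mulRight s)]
  refine sum_congr rfl fun g _ => ?_
  simp only [Equiv.coe_mulRight, mul_inv_cancel_right]
  ring

lemma eg_list (f : G → ℝ) (w : List G) (E : ℝ) (hE : ∀ y ∈ w, eg f y ≤ E) :
    eg f w.prod ≤ w.length ^ 2 * E := by
  -- by the triangle inequality in `ℓ²`
  have key : ∀ w : List G, (∀ y ∈ w, eg f y ≤ E) → Real.sqrt (eg f w.prod) ≤
      w.length * Real.sqrt E := by
    intro w
    induction w with
    | nil =>
      intro _
      simp [eg]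
    | cons y w ih =>
      intro h
      have h1 := ih fun z hz => h z (List.mem_cons_of_mem _ hz)
      have h2 := h y List.mem_cons_self
      have h3 : Real.sqrt (eg f (y * w.prod)) ≤ Real.sqrt (eg f w.prod) + Real.sqrt (eg f y) := by
        have e1 : eg f w.prod = ∑ g, (f (g * y * w.prod) - f (g * y)) ^ 2 := by
          unfold eg
          rw [← Equiv.sum_comp (Equiv.mulRight y)]
          simp only [Equiv.coe_mulRight]
        have hx : Real.sqrt (eg f w.prod) ≥ 0 := Real.sqrt_nonneg _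
        have hy : Real.sqrt (eg f y) ≥ 0 := Real.sqrt_nonneg _
        have hx2 : Real.sqrt (eg f w.prod) ^ 2 = eg f w.prod := Real.sq_sqrt (eg_nonneg _ _)
        have hy2 : Real.sqrt (eg f y) ^ 2 = eg f y := Real.sq_sqrt (eg_nonneg _ _)
        apply Real.sqrt_le_iff.2
        refine ⟨by positivity, ?_⟩
        have e2 : eg f (y * w.prod) = eg f w.prod + eg f y +
            2 * ∑ g, (f (g * y * w.prod) - f (g * y)) * (f (g * y) - f g) := by
          rw [e1]
          unfold eg
          rw [mul_sum, ← sum_add_distrib, ← sum_add_distrib]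
          refine sum_congr rfl fun g _ => ?_
          rw [mul_assoc]
          ring
        have e3 : (∑ g, (f (g * y * w.prod) - f (g * y)) * (f (g * y) - f g)) ^ 2 ≤
            eg f w.prod * eg f y := by
          rw [e1]
          unfold eg
          exact sum_mul_sq_le_sq_mul_sq _ _ _
        have e4 : ∑ g, (f (g * y * w.prod) - f (g * y)) * (f (g * y) - f g) ≤
            Real.sqrt (eg f w.prod) * Real.sqrt (eg f y) := by
          apply le_of_sq_le_sq _ (by positivity)
          rw [mul_pow, hx2, hy2]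
          exact e3
        rw [e2, add_sq, hx2, hy2]
        linarith
      have h4 : Real.sqrt (eg f y) ≤ Real.sqrt E := Real.sqrt_le_sqrt h2
      rw [List.prod_cons, List.length_cons]
      push_cast
      linarith
  have hE0 : 0 ≤ E ∨ w = [] := by
    rcases w with _ | ⟨y, w⟩
    · exact Or.inr rfl
    · exact Or.inl ((eg_nonneg f y).trans (hE y List.mem_cons_self))
  rcases hE0 with hE0 | rfl
  · have h1 := key w hE
    have h2 := Real.sqrt_nonneg (eg f w.prod)
    calc eg f w.prod = Real.sqrt (eg f w.prod) ^ 2 := (Real.sq_sqrt (eg_nonneg _ _)).symm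
      _ ≤ (w.length * Real.sqrt E) ^ 2 := by gcongr
      _ = _ := by rw [mul_pow, Real.sq_sqrt hE0]
  · simp [eg]

/-- the Dirichlet form -/
lemma dirichlet (hk : 1 ≤ k) (x : Fin k → G) (f : G → ℝ) :
    ∑ g, f g ^ 2 - ∑ g, f g * walk x f g = (∑ i, eg f (x i)) / (2 * k) := by
  have hkp : (0 : ℝ) < k := by exact_mod_cast hk
  have h1 : ∀ s : G, eg f s = 2 * ∑ g, f g ^ 2 - 2 * ∑ g, f g * f (g * s) := by
    intro s
    have h2 : ∑ g, f (g * s) ^ 2 = ∑ g, f g ^ 2 :=
      Equiv.sum_comp (Equiv.mulRight s) (fun g => f g ^ 2)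
    unfold eg
    have h3 : ∀ g, (f (g * s) - f g) ^ 2 = f (g * s) ^ 2 + f g ^ 2 - 2 * (f g * f (g * s)) :=
      fun g => by ring
    simp_rw [h3]
    rw [sum_sub_distrib, sum_add_distrib, h2, ← mul_sum]
    ring
  have h2 : ∀ s : G, ∑ g, f g * f (g * s⁻¹) = ∑ g, f g * f (g * s) := by
    intro s
    rw [← Equiv.sum_comp (Equiv.mulRight s)]
    refine sum_congr rfl fun g _ => ?_
    simp only [Equiv.coe_mulRight, mul_inv_cancel_right]
    ring
  have h3 : ∑ g, f g * walk x f g = (∑ i, 2 * ∑ g, f g * f (g * x i)) / (2 * k) := by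
    unfold walk
    have h4 : ∀ g, f g * ((∑ i, (f (g * x i) + f (g * (x i)⁻¹))) / (2 * k)) =
        (∑ i, (f g * f (g * x i) + f g * f (g * (x i)⁻¹))) / (2 * k) := by
      intro g
      rw [← mul_div_assoc, mul_sum]
      congr 1
      exact sum_congr rfl fun i _ => by ring
    simp_rw [h4]
    rw [← sum_div, sum_comm]
    congr 1
    refine sum_congr rfl fun i _ => ?_
    rw [sum_add_distrib, h2]
    ring
  rw [h3]
  simp_rw [h1]
  rw [sum_sub_distrib, sum_const, card_univ, Fintype.card_fin, nsmul_eq_mul]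
  field_simp

/-- the spectral gap is at least `1 / (k D²)` where `D` is the diameter -/
theorem gap_of_diam (hk : 1 ≤ k) (x : Fin k → G) (D : ℕ) (hD : 1 ≤ D)
    (h : ∀ g : G, g ∈ Bl x D) : Expanding (1 / (k * (D : ℝ) ^ 2)) x := by
  have hkp : (0 : ℝ) < k := by exact_mod_cast hk
  have hDp : (0 : ℝ) < D := by exact_mod_cast hD
  constructor
  · rw [eq_top_iff]
    rintro g -
    obtain ⟨w, -, hw, rfl⟩ := h g
    refine Subgroup.list_prod_mem _ fun y hy => ?_
    obtain ⟨i, rfl | rfl⟩ := hw y hy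
    · exact Subgroup.subset_closure ⟨i, rfl⟩
    · exact inv_mem (Subgroup.subset_closure ⟨i, rfl⟩)
  · intro f hf
    have hG : (0 : ℝ) < Fintype.card G := by exact_mod_cast Fintype.card_pos
    set E : ℝ := ∑ i, eg f (x i) with hE
    have h1 : ∀ i, eg f (x i) ≤ E := fun i =>
      single_le_sum (f := fun i => eg f (x i)) (fun i _ => eg_nonneg f _) (mem_univ i)
    have hE0 : 0 ≤ E := sum_nonneg fun i _ => eg_nonneg f _
    have h2 : ∀ g, eg f g ≤ (D : ℝ) ^ 2 * E := by
      intro g
      obtain ⟨w, hw1, hw2, rfl⟩ := h g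
      refine (eg_list f w E ?_).trans ?_
      · intro y hy
        obtain ⟨i, rfl | rfl⟩ := hw2 y hy
        · exact h1 i
        · rw [eg_inv]; exact h1 i
      · have : (w.length : ℝ) ≤ D := by exact_mod_cast hw1
        gcongr
    have h3 : ∑ s, eg f s = 2 * Fintype.card G * ∑ g, f g ^ 2 := by
      unfold eg
      have h4 : ∀ s : G, ∑ g, (f (g * s) - f g) ^ 2 =
          2 * ∑ g, f g ^ 2 - 2 * ∑ g, f g * f (g * s) := by
        intro s
        have h2 : ∑ g, f (g * s) ^ 2 = ∑ g, f g ^ 2 :=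
          Equiv.sum_comp (Equiv.mulRight s) (fun g => f g ^ 2)
        have h3 : ∀ g, (f (g * s) - f g) ^ 2 = f (g * s) ^ 2 + f g ^ 2 - 2 * (f g * f (g * s)) :=
          fun g => by ring
        simp_rw [h3]
        rw [sum_sub_distrib, sum_add_distrib, h2, ← mul_sum]
        ring
      simp_rw [h4]
      rw [sum_sub_distrib, sum_const, card_univ, nsmul_eq_mul, ← mul_sum, sum_comm]
      have h5 : ∀ g : G, ∑ s, f g * f (g * s) = 0 := by
        intro g
        have h6 : ∑ s, f (g * s) = ∑ s, f s := Equiv.sum_comp (Equiv.mulLeft g) f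
        rw [← mul_sum, h6, hf, mul_zero]
      simp_rw [h5]
      rw [sum_const_zero]
      ring
    have h4 : 2 * Fintype.card G * ∑ g, f g ^ 2 ≤ Fintype.card G * ((D : ℝ) ^ 2 * E) := by
      rw [← h3]
      calc ∑ s, eg f s ≤ ∑ _s : G, (D : ℝ) ^ 2 * E := sum_le_sum fun s _ => h2 s
        _ = _ := by rw [sum_const, card_univ, nsmul_eq_mul]
    have h5 : 2 * ∑ g, f g ^ 2 ≤ (D : ℝ) ^ 2 * E := by
      have : (Fintype.card G : ℝ) * (2 * ∑ g, f g ^ 2) ≤ Fintype.card G * ((D : ℝ) ^ 2 * E) := by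
        linarith
      exact le_of_mul_le_mul_left this hG
    have h6 := dirichlet hk x f
    have h7 : 1 / (k * (D : ℝ) ^ 2) * ∑ g, f g ^ 2 ≤ E / (2 * k) := by
      rw [div_mul_eq_mul_div, one_mul, div_le_div_iff₀ (by positivity) (by positivity)]
      nlinarith
    rw [← hE] at h6
    linarith

end Diam

/-! ### adding one generator -/

variable {n k : ℕ}

/-- the gap on tuples is inherited when a generator is added -/
lemma TGap_snoc {r : ℕ} {ε : ℝ} (hk : 1 ≤ k) (hε : 0 ≤ ε) (y : Fin k → Alt n) (w : Alt n)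
    (h : TGap r ε y) : TGap r (ε / 2) (Fin.snoc y w : Fin (k + 1) → Alt n) := by
  intro f hf
  have hkp : (0 : ℝ) < k := by exact_mod_cast hk
  have hk1 : (1 : ℝ) ≤ k := by exact_mod_cast hk
  have h1 := h f hf
  have hF : 0 ≤ ∑ a, f a ^ 2 := sum_nonneg fun _ _ => sq_nonneg _
  have e1 : ∀ a, sw (Fin.snoc y w : Fin (k + 1) → Alt n) f a =
      (2 * k * sw y f a + (f (mv (w : Perm (Fin n)) a) + f (mv (w : Perm (Fin n))⁻¹ a))) /
        (2 * (k + 1)) := by
    intro a
    unfold sw
    rw [Fin.sum_univ_castSucc]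
    simp only [Fin.snoc_castSucc, Fin.snoc_last]
    push_cast
    congr 1
    field_simp
  have h2 : ∀ u : Perm (Fin n), ∑ a, f a * f (mv u a) ≤ ∑ a, f a ^ 2 := by
    intro u
    have h3 : ∑ a, f (mv u a) ^ 2 = ∑ a, f a ^ 2 := Equiv.sum_comp (mvE u) (fun a => f a ^ 2)
    have h4 : ∑ a, f a * f (mv u a) ≤ ∑ a, (f a ^ 2 + f (mv u a) ^ 2) / 2 :=
      sum_le_sum fun a _ => by nlinarith [sq_nonneg (f a - f (mv u a))]
    rw [← sum_div, sum_add_distrib, h3] at h4
    linarith
  have h3 : ∑ a, f a * sw (Fin.snoc y w : Fin (k + 1) → Alt n) f a =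
      (2 * k * ∑ a, f a * sw y f a + (∑ a, f a * f (mv (w : Perm (Fin n)) a) +
        ∑ a, f a * f (mv (w : Perm (Fin n))⁻¹ a))) / (2 * (k + 1)) := by
    simp_rw [e1]
    rw [mul_sum, ← sum_add_distrib, ← sum_add_distrib, sum_div]
    refine sum_congr rfl fun a _ => ?_
    ring
  rw [h3, div_le_iff₀ (by positivity)]
  have h4 := h2 (w : Perm (Fin n))
  have h5 := h2 (w : Perm (Fin n))⁻¹
  nlinarith [mul_le_mul_of_nonneg_left h1 hkp.le, mul_nonneg hε hF,
    mul_nonneg (mul_nonneg hε hF) (sub_nonneg.2 hk1)]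

end

end Run7.h624.DM
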