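import Pool.Agent.Run7.h624.DM.Cnt

/-!
The second moment of the number of pairs of points in the same cycle.
-/

namespace Run7.h624.DM
open RC14 Finset Equiv

noncomputable section

variable {n : ℕ}

/-- the number of pairs of points in the same cycle -/
def cnt (u : Perm (Fin n)) : ℕ := #{x : Fin n × Fin n | u.SameCycle x.1 x.2}

lemma sum_cnt : 2 * ∑ u : Perm (Fin n), cnt u = n.factorial * (n ^ 2 + n) := by
  have h1 : ∑ u : Perm (Fin n), cnt u = ∑ b : Fin n, ∑ c : Fin n,
      #{u : Perm (Fin n) | u.SameCycle b c} := by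
    unfold cnt
    simp only [card_filter, Fintype.sum_prod_type]
    rw [sum_comm]
    refine sum_congr rfl fun b _ => ?_
    rw [sum_comm]
  have h2 : ∀ b c : Fin n, 2 * #{u : Perm (Fin n) | u.SameCycle b c} =
      n.factorial + if b = c then n.factorial else 0 := by
    intro b c
    by_cases h : b = c
    · subst h
      have : ({u : Perm (Fin n) | u.SameCycle b b} : Finset (Perm (Fin n))) = univ :=
        filter_true_of_mem fun u _ => Perm.SameCycle.refl u b
      rw [this, card_univ, Fintype.card_perm, Fintype.card_fin, if_pos rfl]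
      ring
    · rw [half_same b c h, if_neg h, add_zero]
  rw [h1, mul_sum]
  simp_rw [mul_sum, h2, sum_add_distrib, sum_ite_eq, mem_univ, if_true, sum_const, card_univ,
    Fintype.card_fin, smul_eq_mul]
  ring

/-- points in cycles with lengths in a given set -/
lemma card_cyl_set (Λ : Finset ℕ) (h0 : 0 ∉ Λ) :
    #{x : Perm (Fin n) × Fin n | cyl x.1 x.2 ∈ Λ} ≤ #Λ * n.factorial := by
  have h1 : ({x : Perm (Fin n) × Fin n | cyl x.1 x.2 ∈ Λ} : Finset _) ⊆
      Λ.biUnion (fun l => {x : Perm (Fin n) × Fin n | cyl x.1 x.2 = l}) := by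
    intro x hx
    rw [mem_biUnion]
    exact ⟨_, (mem_filter.1 hx).2, mem_filter.2 ⟨mem_univ _, rfl⟩⟩
  refine (card_le_card h1).trans (card_biUnion_le.trans ?_)
  rw [← smul_eq_mul, ← sum_const]
  refine sum_le_sum fun l hl => ?_
  rcases l with _ | l
  · exact absurd hl h0
  · exact card_cyl l

open Classical in
/-- the number of pairs of points with bad exits -/
def nb (u y : Perm (Fin n)) (b : Fin n) (t : ℕ) : ℕ :=
  #{x : Fin n × Fin n | ¬ Dst u y b t x.1 x.2}

lemma sum_pair (y : Perm (Fin n)) (t : ℕ) :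
    2 * ∑ u : Perm (Fin n), cnt u * cnt (y * u) ≤
      n ^ 2 * ∑ u : Perm (Fin n), cnt u + 2 * (n * ∑ u : Perm (Fin n), ∑ b, nb u y b t) := by
  classical
  have h1 : ∑ u : Perm (Fin n), cnt u * cnt (y * u) = ∑ x : Fin n × Fin n, ∑ x' : Fin n × Fin n,
      #{u : Perm (Fin n) | u.SameCycle x.1 x.2 ∧ (y * u).SameCycle x'.1 x'.2} := by
    unfold cnt
    simp only [card_filter, sum_mul_sum]
    rw [sum_comm]
    refine sum_congr rfl fun x _ => ?_
    rw [sum_comm]
    refine sum_congr rfl fun x' _ => sum_congr rfl fun u _ => ?_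
    by_cases h1 : u.SameCycle x.1 x.2 <;> by_cases h2 : (y * u).SameCycle x'.1 x'.2 <;>
      simp [h1, h2]
  have h2 : ∑ x : Fin n × Fin n, ∑ x' : Fin n × Fin n,
      #{u : Perm (Fin n) | u.SameCycle x.1 x.2} = n ^ 2 * ∑ u : Perm (Fin n), cnt u := by
    unfold cnt
    simp only [sum_const, card_univ, Fintype.card_prod, Fintype.card_fin, smul_eq_mul, ← mul_sum]
    simp only [card_filter]
    rw [sum_comm]
    ring
  have h3 : ∑ x : Fin n × Fin n, ∑ x' : Fin n × Fin n,
      #{u : Perm (Fin n) | ¬ Dst u y x.1 t x'.1 x'.2} =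
      n * ∑ u : Perm (Fin n), ∑ b, nb u y b t := by
    unfold nb
    rw [Fintype.sum_prod_type]
    simp only [sum_const, card_univ, Fintype.card_fin, smul_eq_mul, ← mul_sum]
    congr 1
    simp only [card_filter]
    rw [sum_comm (s := (univ : Finset (Perm (Fin n))))]
    refine sum_congr rfl fun b _ => ?_
    rw [sum_comm]
  rw [h1, ← h2, ← h3, mul_sum, mul_sum, ← sum_add_distrib]
  refine sum_le_sum fun x _ => ?_
  rw [mul_sum, mul_sum, ← sum_add_distrib]
  exact sum_le_sum fun x' _ => pair_bound y x.1 x.2 x'.1 x'.2 t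

/-- pairs of points of the same orbit which are close -/
lemma card_close (v : Perm (Fin n)) (t : ℕ) :
    #{x : Fin n × Fin n | ∃ i ≤ t, ∃ j ≤ t, (v ^ i) x.1 = (v ^ j) x.2} ≤ (t + 1) ^ 2 * n := by
  classical
  have h1 : ({x : Fin n × Fin n | ∃ i ≤ t, ∃ j ≤ t, (v ^ i) x.1 = (v ^ j) x.2} : Finset _) ⊆
      (range (t + 1) ×ˢ range (t + 1)).biUnion
        (fun s => {x : Fin n × Fin n | (v ^ s.1) x.1 = (v ^ s.2) x.2}) := by
    intro x hx
    obtain ⟨-, i, hi, j, hj, hij⟩ := mem_filter.1 hx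
    rw [mem_biUnion]
    refine ⟨(i, j), ?_, mem_filter.2 ⟨mem_univ _, hij⟩⟩
    rw [mem_product, mem_range, mem_range]
    omega
  refine (card_le_card h1).trans (card_biUnion_le.trans ?_)
  have h2 : ∀ s ∈ range (t + 1) ×ˢ range (t + 1),
      #{x : Fin n × Fin n | (v ^ s.1) x.1 = (v ^ s.2) x.2} ≤ n := by
    intro s _
    have : #{x : Fin n × Fin n | (v ^ s.1) x.1 = (v ^ s.2) x.2} ≤ #(univ : Finset (Fin n)) := by
      refine card_le_card_of_injOn (fun x => x.1) (fun _ _ => mem_coe.2 (mem_univ _)) ?_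
      intro x hx x' hx' hxx
      have h3 := (mem_filter.1 hx).2
      have h4 := (mem_filter.1 hx').2
      have hxx' : x.1 = x'.1 := hxx
      rw [hxx', h4] at h3
      exact Prod.ext hxx' ((v ^ s.2).injective h3).symm
    simpa using this
  refine (sum_le_sum h2).trans ?_
  rw [sum_const, card_product, card_range, smul_eq_mul]
  apply le_of_eq
  ring

section Fam

variable {K : Type*} [Fintype K] [DecidableEq K]

/-- the average number of pairs with bad exits -/
lemma sum_nb {t : ℕ} {y : K → Perm (Fin n)} (hy : ∀ r ≤ t, Mx r y) (htn : t ≤ n)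
    (u : Perm (Fin n)) (b : Fin n) :
    (∑ κ, (nb u (y κ) b t : ℝ)) ≤
      (2 * (n : ℝ) ^ 2 * (2 * (cyl u b : ℝ) ^ t / Fintype.card (Tup t n) + 2 * t / n) +
        (t + 1) ^ 2 * n) * Fintype.card K := by
  classical
  set β : ℝ := 2 * (cyl u b : ℝ) ^ t / Fintype.card (Tup t n) + 2 * t / n with hβ
  set P : K → Fin n → Prop := fun κ p => ∀ m ≤ t, u.SameCycle b (((y κ * u) ^ m) p) with hP
  have h1 : ∀ p, (#{κ | P κ p} : ℝ) ≤ β * Fintype.card K := by
    intro p
    have := stay_bound hy u p {q | u.SameCycle b q} htn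
    simpa [hP, hβ, cyl] using this
  have h2 : ∀ κ, (nb u (y κ) b t : ℝ) ≤ n * #{p | P κ p} + n * #{p | P κ p} + (t + 1) ^ 2 * n := by
    intro κ
    have h3 : ({x : Fin n × Fin n | ¬ Dst u (y κ) b t x.1 x.2} : Finset _) ⊆
        (({x : Fin n × Fin n | P κ x.1} : Finset _) ∪ ({x : Fin n × Fin n | P κ x.2} : Finset _)) ∪
        ({x : Fin n × Fin n | ∃ i ≤ t, ∃ j ≤ t, ((y κ * u) ^ i) x.1 = ((y κ * u) ^ j) x.2} :
          Finset _) := by
      intro x hx
      have hx' := (mem_filter.1 hx).2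
      rw [mem_union, mem_union]
      rcases not_Dst hx' with h | h | h
      · exact Or.inl (Or.inl (mem_filter.2 ⟨mem_univ _, h⟩))
      · exact Or.inl (Or.inr (mem_filter.2 ⟨mem_univ _, h⟩))
      · exact Or.inr (mem_filter.2 ⟨mem_univ _, h⟩)
    have h4 : #{x : Fin n × Fin n | P κ x.1} = n * #{p | P κ p} := by
      have e : ({x : Fin n × Fin n | P κ x.1} : Finset _) =
          ({p | P κ p} : Finset (Fin n)) ×ˢ (univ : Finset (Fin n)) := by
        ext x; simp
      rw [e, card_product, card_univ, Fintype.card_fin, mul_comm]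
    have h5 : #{x : Fin n × Fin n | P κ x.2} = n * #{p | P κ p} := by
      have e : ({x : Fin n × Fin n | P κ x.2} : Finset _) =
          (univ : Finset (Fin n)) ×ˢ ({p | P κ p} : Finset (Fin n)) := by
        ext x; simp
      rw [e, card_product, card_univ, Fintype.card_fin]
    have h6 := (card_le_card h3).trans ((card_union_le _ _).trans
      (Nat.add_le_add (card_union_le _ _) (card_close (y κ * u) t)))
    rw [h4, h5] at h6
    unfold nb
    exact_mod_cast h6
  have h3 : ∑ κ, (#{p | P κ p} : ℝ) ≤ n * (β * Fintype.card K) := by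
    have h4 : ∑ κ, (#{p | P κ p} : ℝ) = ∑ p, (#{κ | P κ p} : ℝ) := by
      simp only [card_filter]
      push_cast
      rw [sum_comm]
    rw [h4]
    calc ∑ p, (#{κ | P κ p} : ℝ) ≤ ∑ _p : Fin n, β * Fintype.card K := sum_le_sum fun p _ => h1 p
      _ = _ := by rw [sum_const, card_univ, Fintype.card_fin, nsmul_eq_mul]
  calc ∑ κ, (nb u (y κ) b t : ℝ)
      ≤ ∑ κ, (n * #{p | P κ p} + n * #{p | P κ p} + (t + 1) ^ 2 * n : ℝ) :=
        sum_le_sum fun κ _ => h2 κ
    _ = 2 * n * ∑ κ, (#{p | P κ p} : ℝ) + Fintype.card K * ((t + 1) ^ 2 * n) := by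
        rw [sum_add_distrib, sum_add_distrib, sum_const, card_univ, nsmul_eq_mul, ← mul_sum]
        ring
    _ ≤ 2 * n * (n * (β * Fintype.card K)) + Fintype.card K * ((t + 1) ^ 2 * n) := by gcongr
    _ = _ := by ring

lemma nb_le (u y : Perm (Fin n)) (b : Fin n) (t : ℕ) : nb u y b t ≤ n ^ 2 := by
  unfold nb
  refine (card_le_univ _).trans ?_
  rw [Fintype.card_prod, Fintype.card_fin, sq]

lemma pow_div_le {t : ℕ} {η : ℝ} (hη : 0 < η) (hη1 : η ≤ 1) (hn : 2 * t ≤ η * n) (htn : t ≤ n)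
    (s : ℝ) (hs0 : 0 ≤ s) (hs : s ≤ (1 - η) * n) :
    s ^ t / Fintype.card (Tup t n) ≤ (1 - η / 2) ^ t := by
  have h1 : ((n + 1 - t : ℕ) : ℝ) ^ t ≤ Fintype.card (Tup t n) := by
    rw [Fintype.card_embedding_eq, Fintype.card_fin, Fintype.card_fin]
    exact_mod_cast Nat.pow_sub_le_descFactorial n t
  have h2 : ((n + 1 - t : ℕ) : ℝ) = n + 1 - t := by
    rw [Nat.cast_sub (by omega)]
    push_cast
    ring
  rw [h2] at h1
  have ht0 : (0 : ℝ) ≤ t := Nat.cast_nonneg t
  have h3 : (0 : ℝ) < n + 1 - t := by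
    have : (t : ℝ) ≤ n := by exact_mod_cast htn
    linarith
  have h4 : s ≤ (1 - η / 2) * (n + 1 - t) := by nlinarith
  have h5 : (0 : ℝ) < Fintype.card (Tup t n) := lt_of_lt_of_le (by positivity) h1
  rw [div_le_iff₀ h5]
  calc s ^ t ≤ ((1 - η / 2) * (n + 1 - t)) ^ t := by gcongr
    _ = (1 - η / 2) ^ t * (n + 1 - t) ^ t := by rw [mul_pow]
    _ ≤ _ := by
      have : (0 : ℝ) ≤ 1 - η / 2 := by linarith
      gcongr

/-- the second moment, for a mixing family -/
theorem second_moment (η : ℝ) (hη : 0 < η) (hη1 : η ≤ 1) : ∃ t n0 : ℕ, ∀ n ≥ n0,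
    ∀ (K : Type) [Fintype K] [DecidableEq K] (y : K → Perm (Fin n)), (∀ r ≤ t, Mx r y) →
    ∑ κ, ∑ u : Perm (Fin n), (cnt u * cnt (y κ * u) : ℝ) ≤
      Fintype.card K * n.factorial * n ^ 4 * (1 / 4 + η) := by
  set η0 : ℝ := η / 4 with hη0
  obtain ⟨t, ht⟩ := exists_pow_lt_of_lt_one (show (0 : ℝ) < η / 16 by positivity)
    (show 1 - η0 / 2 < 1 by rw [hη0]; linarith)
  obtain ⟨n0, hn0⟩ := exists_nat_ge ((4 * (2 + 4 * t + (t + 1) ^ 2) + 8 * t + 1) / η : ℝ)
  refine ⟨t, n0, ?_⟩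
  intro n hn K _ _ y hy
  have ht0 : (0 : ℝ) ≤ t := Nat.cast_nonneg t
  have hnR : (4 * (2 + 4 * t + (t + 1) ^ 2) + 8 * t + 1 : ℝ) ≤ η * n := by
    have h1 : (n0 : ℝ) ≤ n := by exact_mod_cast hn
    have h2 := hn0.trans h1
    rw [div_le_iff₀ hη] at h2
    linarith
  have hn1 : (0 : ℝ) < n := by
    by_contra hcon
    push Not at hcon
    nlinarith
  have htn : t ≤ n := by
    have : (t : ℝ) ≤ n := by nlinarith
    exact_mod_cast this
  have hfac : (0 : ℝ) < n.factorial := by exact_mod_cast Nat.factorial_pos n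
  -- the bad part
  have hbad : ∑ κ, ∑ u : Perm (Fin n), ∑ b, (nb u (y κ) b t : ℝ) ≤
      Fintype.card K * n.factorial * n ^ 3 *
        (2 * (2 * (1 - η0 / 2) ^ t + 2 * t / n) + (t + 1) ^ 2 / n + (η0 + 1 / n)) := by
    have h1 : ∑ κ, ∑ u : Perm (Fin n), ∑ b, (nb u (y κ) b t : ℝ) =
        ∑ x : Perm (Fin n) × Fin n, ∑ κ, (nb x.1 (y κ) x.2 t : ℝ) := by
      rw [Fintype.sum_prod_type, sum_comm]
      refine sum_congr rfl fun u _ => ?_
      rw [sum_comm]
    rw [h1]
    set M1 : ℝ := (2 * (n : ℝ) ^ 2 * (2 * (1 - η0 / 2) ^ t + 2 * t / n) + (t + 1) ^ 2 * n) *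
      Fintype.card K with hM1
    have hM1' : 0 ≤ M1 := by
      have : (0 : ℝ) ≤ 1 - η0 / 2 := by rw [hη0]; linarith
      rw [hM1]
      positivity
    have h2 : ∀ x : Perm (Fin n) × Fin n, ∑ κ, (nb x.1 (y κ) x.2 t : ℝ) ≤
        M1 + (if (1 - η0) * n < cyl x.1 x.2 then (Fintype.card K : ℝ) * n ^ 2 else 0) := by
      intro x
      split_ifs with h3
      · have h4 : ∑ κ, (nb x.1 (y κ) x.2 t : ℝ) ≤ ∑ _κ : K, (n : ℝ) ^ 2 :=
          sum_le_sum fun κ _ => by exact_mod_cast nb_le x.1 (y κ) x.2 t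
        rw [sum_const, card_univ, nsmul_eq_mul] at h4
        linarith
      · push Not at h3
        have h4 := sum_nb hy htn x.1 x.2
        have h5 := pow_div_le (t := t) (η := η0) (n := n) (by positivity) (by rw [hη0]; linarith)
          (by rw [hη0]; nlinarith) htn (cyl x.1 x.2) (Nat.cast_nonneg _) h3
        rw [add_zero]
        refine h4.trans ?_
        rw [hM1, mul_div_assoc]
        gcongr
    refine (sum_le_sum fun x _ => h2 x).trans ?_
    rw [sum_add_distrib, sum_const, card_univ, Fintype.card_prod, Fintype.card_perm,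
      Fintype.card_fin, nsmul_eq_mul, ← sum_filter, sum_const, nsmul_eq_mul]
    have h3 : (#{x : Perm (Fin n) × Fin n | (1 - η0) * n < cyl x.1 x.2} : ℝ) ≤
        (η0 * n + 1) * n.factorial := by
      set Λ : Finset ℕ := (range (n + 1)).filter fun l => (1 - η0) * n < (l : ℝ) with hΛ
      have h0 : 0 ∉ Λ := by
        rw [hΛ, mem_filter]
        rintro ⟨-, h⟩
        have : (0 : ℝ) ≤ (1 - η0) * n := by
          apply mul_nonneg _ hn1.le
          rw [hη0]; linarith
        push_cast at h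
        linarith
      have h4 := card_cyl_set (n := n) Λ h0
      have h5 : (#Λ : ℝ) ≤ η0 * n + 1 := by
        have h6 : Λ ⊆ Ioc ⌊(1 - η0) * n⌋₊ n := by
          intro l hl
          rw [hΛ, mem_filter, mem_range] at hl
          rw [mem_Ioc]
          refine ⟨?_, by omega⟩
          rw [Nat.floor_lt']
          · exact hl.2
          · rintro rfl
            exact h0 (by rw [hΛ, mem_filter, mem_range]; exact hl)
        have h7 : (#Λ : ℝ) ≤ ((n - ⌊(1 - η0) * n⌋₊ : ℕ) : ℝ) := by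
          have := card_le_card h6
          rw [Nat.card_Ioc] at this
          exact_mod_cast this
        have h8 : (1 - η0) * n < ⌊(1 - η0) * n⌋₊ + 1 := Nat.lt_floor_add_one _
        have h9 : ⌊(1 - η0) * n⌋₊ ≤ n := by
          apply Nat.floor_le_of_le
          have : 0 < η0 := by positivity
          nlinarith
        rw [Nat.cast_sub h9] at h7
        linarith
      have h10 : #{x : Perm (Fin n) × Fin n | (1 - η0) * n < cyl x.1 x.2} ≤
          #{x : Perm (Fin n) × Fin n | cyl x.1 x.2 ∈ Λ} := by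
        apply card_le_card
        intro x hx
        have hx' := (mem_filter.1 hx).2
        rw [mem_filter, hΛ, mem_filter, mem_range]
        exact ⟨mem_univ _, Nat.lt_succ_of_le (cyl_le _ _), hx'⟩
      calc (#{x : Perm (Fin n) × Fin n | (1 - η0) * n < cyl x.1 x.2} : ℝ)
          ≤ ((#Λ * n.factorial : ℕ) : ℝ) := by exact_mod_cast h10.trans h4
        _ = #Λ * n.factorial := by push_cast; ring
        _ ≤ _ := by gcongr
    calc ((n.factorial * n : ℕ) : ℝ) * M1 +
          (#{x : Perm (Fin n) × Fin n | (1 - η0) * n < cyl x.1 x.2} : ℝ) *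
            ((Fintype.card K : ℝ) * n ^ 2)
        ≤ ((n.factorial * n : ℕ) : ℝ) * M1 + ((η0 * n + 1) * n.factorial) *
            ((Fintype.card K : ℝ) * n ^ 2) := by gcongr
      _ = _ := by
          rw [hM1]
          push_cast
          field_simp
  -- summing the pair bounds
  have hpair : ∀ κ, ∑ u : Perm (Fin n), (cnt u * cnt (y κ * u) : ℝ) ≤
      n ^ 2 / 2 * (n.factorial * (n ^ 2 + n) / 2) +
        n * ∑ u : Perm (Fin n), ∑ b, (nb u (y κ) b t : ℝ) := by
    intro κ
    have h1 := sum_pair (y κ) t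
    have h2 : (2 * ∑ u : Perm (Fin n), (cnt u * cnt (y κ * u) : ℝ)) ≤
        n ^ 2 * ∑ u : Perm (Fin n), (cnt u : ℝ) +
          2 * (n * ∑ u : Perm (Fin n), ∑ b, (nb u (y κ) b t : ℝ)) := by exact_mod_cast h1
    have h3 : 2 * ∑ u : Perm (Fin n), (cnt u : ℝ) = n.factorial * (n ^ 2 + n) := by
      exact_mod_cast sum_cnt (n := n)
    have h4 : ∑ u : Perm (Fin n), (cnt u : ℝ) = n.factorial * (n ^ 2 + n) / 2 := by linarith
    rw [h4] at h2
    linarith
  calc ∑ κ, ∑ u : Perm (Fin n), (cnt u * cnt (y κ * u) : ℝ)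
      ≤ ∑ κ, (n ^ 2 / 2 * (n.factorial * (n ^ 2 + n) / 2) +
        n * ∑ u : Perm (Fin n), ∑ b, (nb u (y κ) b t : ℝ)) := sum_le_sum fun κ _ => hpair κ
    _ = Fintype.card K * (n ^ 2 / 2 * (n.factorial * (n ^ 2 + n) / 2)) +
        n * ∑ κ, ∑ u : Perm (Fin n), ∑ b, (nb u (y κ) b t : ℝ) := by
        rw [sum_add_distrib, sum_const, card_univ, nsmul_eq_mul, ← mul_sum]
    _ ≤ Fintype.card K * (n ^ 2 / 2 * (n.factorial * (n ^ 2 + n) / 2)) +
        n * (Fintype.card K * n.factorial * n ^ 3 *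
        (2 * (2 * (1 - η0 / 2) ^ t + 2 * t / n) + (t + 1) ^ 2 / n + (η0 + 1 / n))) := by gcongr
    _ = Fintype.card K * n.factorial * n ^ 4 * (1 / 4 + 1 / (4 * n) +
        (2 * (2 * (1 - η0 / 2) ^ t + 2 * t / n) + (t + 1) ^ 2 / n + (η0 + 1 / n))) := by
        field_simp
        ring
    _ ≤ _ := by
        have h5 : 1 / (4 * n) + (2 * (2 * (1 - η0 / 2) ^ t + 2 * t / n) + (t + 1) ^ 2 / n +
            (η0 + 1 / n)) ≤ η := by
          have h6 : 1 / (4 * n) + (4 * t / n + (t + 1) ^ 2 / n + 1 / n : ℝ) ≤ η / 4 := by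
            have : 1 / (4 * n) + (4 * t / n + (t + 1) ^ 2 / n + 1 / n : ℝ) =
                (1 / 4 + 4 * t + (t + 1) ^ 2 + 1) / n := by
              field_simp
              ring
            rw [this, div_le_iff₀ hn1]
            linarith
          have h7 : 2 * (2 * (1 - η0 / 2) ^ t + 2 * t / n : ℝ) = 4 * (1 - η0 / 2) ^ t + 4 * t / n := by
            ring
          rw [h7]
          have h8 : 4 * (1 - η0 / 2) ^ t ≤ η / 4 := by linarith
          have h9 : η0 = η / 4 := rfl
          linarith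
        have : 1 / 4 + 1 / (4 * n) + (2 * (2 * (1 - η0 / 2) ^ t + 2 * t / n) + (t + 1) ^ 2 / n +
            (η0 + 1 / n)) ≤ 1 / 4 + η := by linarith
        gcongr

end Fam

end

end Run7.h624.DM
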